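import Mathlib

/-! Borel sets of infinite subsets of the natural numbers are Ramsey
(Galvin and Prikry), with a proof by ultrafilter trees. -/

namespace Pool.MP_0d2ef4_co

open Set Filter

/-- Infinite sets with initial segment `s` all of whose further elements are
allowed by the tree `T`. -/
def Br (s : Set ℕ) (T : Set ℕ → Set ℕ) : Set (Set ℕ) :=
  {X | X.Infinite ∧ (∃ m, s = X ∩ Iio m) ∧ ∀ n ∈ X, n ∉ s → n ∈ T (X ∩ Iio n)}

/-- `S` is decided by ultrafilter trees above every finite stem. -/
def UR (U : Ultrafilter ℕ) (S : Set (Set ℕ)) : Prop :=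
  ∀ s : Set ℕ, s.Finite →
    (∃ T : Set ℕ → Set ℕ, (∀ t, T t ∈ U) ∧ Br s T ⊆ S) ∨
    (∃ T : Set ℕ → Set ℕ, (∀ t, T t ∈ U) ∧ Br s T ⊆ Sᶜ)

lemma UR.compl {U : Ultrafilter ℕ} {S : Set (Set ℕ)} (h : UR U S) : UR U Sᶜ := by
  intro s hs
  rcases h s hs with h1 | h1
  · right; simpa using h1
  · left; exact h1

lemma UR.empty {U : Ultrafilter ℕ} : UR U ∅ := by
  intro s _
  right
  exact ⟨fun _ => univ, fun _ => univ_mem, by simp⟩

lemma UR.basic {U : Ultrafilter ℕ} (hU : (U : Filter ℕ) ≤ cofinite) (n : ℕ) :
    UR U {X | n ∈ X} := by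
  intro s _
  by_cases h : n ∈ s
  · left
    refine ⟨fun _ => univ, fun _ => univ_mem, ?_⟩
    rintro X ⟨_, ⟨m, hm⟩, _⟩
    have : n ∈ X ∩ Iio m := hm ▸ h
    exact this.1
  · right
    refine ⟨fun _ => Ioi n, fun _ => ?_, ?_⟩
    · apply hU
      rw [mem_cofinite]
      have : (Ioi n)ᶜ = Iic n := by ext x; simp
      rw [this]
      exact finite_Iic n
    · rintro X ⟨_, _, hX⟩ hn
      exact absurd (hX n hn h) (by simp)

lemma UR.iUnion {U : Ultrafilter ℕ}
    (S : ℕ → Set (Set ℕ)) (hS : ∀ i, UR U (S i)) : UR U (⋃ i, S i) := by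
  classical
  intro s hs
  let good : Set ℕ → Prop := fun t => ∃ T : Set ℕ → Set ℕ, (∀ t, T t ∈ U) ∧ Br t T ⊆ ⋃ i, S i
  by_cases hgs : good s
  · left; exact hgs
  right
  -- successors of nodes that are not good
  have hN : ∀ t : Set ℕ, t.Finite → ¬ good t → {n | ¬ good (insert n t)} ∈ U := by
    intro t ht hgt
    by_contra hcon
    have hG : {n | good (insert n t)} ∈ U := by
      have := Ultrafilter.compl_mem_iff_notMem.2 hcon
      refine mem_of_superset this ?_
      intro n hn
      simpa using hn
    apply hgt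
    have hT : ∀ n, ∃ T : Set ℕ → Set ℕ, (∀ t, T t ∈ U) ∧
        (good (insert n t) → Br (insert n t) T ⊆ ⋃ i, S i) := by
      intro n
      by_cases h : good (insert n t)
      · obtain ⟨T, h1, h2⟩ := h
        exact ⟨T, h1, fun _ => h2⟩
      · exact ⟨fun _ => univ, fun _ => univ_mem, fun h' => absurd h' h⟩
    choose Tn hTn1 hTn2 using hT
    refine ⟨fun t' => if t' = t then {n | good (insert n t)} else Tn (sInf (t' \ t)) t', ?_, ?_⟩
    · intro t'
      by_cases h : t' = t
      · simp only [h, if_true]; exact hG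
      · simp only [h, if_false]; exact hTn1 _ _
    · rintro X ⟨hXi, ⟨m, hm⟩, hX⟩
      have hne : (X \ t).Nonempty := (hXi.sdiff ht).nonempty
      set n := sInf (X \ t) with hn
      have hnX : n ∈ X \ t := Nat.sInf_mem hne
      have hmin : ∀ k ∈ X, k < n → k ∈ t := by
        intro k hk hkn
        by_contra hkt
        exact absurd (Nat.sInf_le (show k ∈ X \ t from ⟨hk, hkt⟩)) (by omega)
      have hmn : m ≤ n := by
        by_contra hlt
        exact hnX.2 (hm ▸ ⟨hnX.1, by simpa using hlt⟩)
      have hcut : X ∩ Iio n = t := by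
        ext k
        constructor
        · rintro ⟨h1, h2⟩; exact hmin k h1 h2
        · intro hk
          have : k ∈ X ∩ Iio m := hm ▸ hk
          exact ⟨this.1, lt_of_lt_of_le this.2 hmn⟩
      have hgn : good (insert n t) := by
        have h1 := hX n hnX.1 hnX.2
        simp only [hcut, if_true] at h1
        exact h1
      apply hTn2 n hgn
      refine ⟨hXi, ⟨n + 1, ?_⟩, ?_⟩
      · rw [← hcut]
        ext k
        simp only [mem_insert_iff, mem_inter_iff, mem_Iio]
        constructor
        · rintro (h | h)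
          · subst h; exact ⟨hnX.1, by omega⟩
          · exact ⟨h.1, by omega⟩
        · rintro ⟨h1, h2⟩
          rcases Nat.lt_succ_iff_lt_or_eq.1 h2 with h3 | h3
          · exact Or.inr ⟨h1, h3⟩
          · exact Or.inl h3
      · intro k hk hkn
        have hkn1 : k ≠ n := fun h => hkn (by simp [h])
        have hkt : k ∉ t := fun h => hkn (by simp [h])
        have hlt : n < k := by
          rcases lt_trichotomy k n with h | h | h
          · exact absurd (hmin k hk h) hkt
          · exact absurd h hkn1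
          · exact h
        have h1 := hX k hk hkt
        have hne' : X ∩ Iio k ≠ t := by
          intro h
          have : n ∈ X ∩ Iio k := ⟨hnX.1, hlt⟩
          rw [h] at this
          exact hnX.2 this
        have hmin' : sInf ((X ∩ Iio k) \ t) = n := by
          apply le_antisymm
          · exact Nat.sInf_le ⟨⟨hnX.1, hlt⟩, hnX.2⟩
          · have hmem := Nat.sInf_mem (show ((X ∩ Iio k) \ t).Nonempty from ⟨n, ⟨hnX.1, hlt⟩, hnX.2⟩)
            exact Nat.sInf_le ⟨hmem.1.1, hmem.2⟩
        simp only [hne', if_false, hmin'] at h1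
        exact h1
  -- trees avoiding the single sets
  have hT' : ∀ (i : ℕ) (t : Set ℕ), ∃ T : Set ℕ → Set ℕ, (∀ t, T t ∈ U) ∧
      (t.Finite → ¬ good t → Br t T ⊆ (S i)ᶜ) := by
    intro i t
    by_cases h : t.Finite ∧ ¬ good t
    · rcases hS i t h.1 with ⟨T, h1, h2⟩ | ⟨T, h1, h2⟩
      · exact absurd ⟨T, h1, h2.trans (subset_iUnion S i)⟩ h.2
      · exact ⟨T, h1, fun _ _ => h2⟩
    · exact ⟨fun _ => univ, fun _ => univ_mem, fun h1 h2 => absurd ⟨h1, h2⟩ h⟩
  choose T' hT'1 hT'2 using hT'
  let N : Set ℕ → Set ℕ := fun t => if good t then univ else {n | ¬ good (insert n t)}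
  let T : Set ℕ → Set ℕ := fun t =>
    if t.Finite then N t ∩ ⋂ r ∈ 𝒫 t, ⋂ i ∈ Iic r.ncard, T' i r t else univ
  refine ⟨T, ?_, ?_⟩
  · intro t
    by_cases ht : t.Finite
    · simp only [T, ht, if_true]
      refine inter_mem ?_ ?_
      · by_cases hg : good t
        · simp only [N, hg, if_true]; exact univ_mem
        · simp only [N, hg, if_false]; exact hN t ht hg
      · rw [biInter_mem ht.powerset]
        intro r _
        rw [biInter_mem (finite_Iic _)]
        intro i _
        exact hT'1 i r t
    · simp only [T, ht, if_false]; exact univ_mem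
  · rintro X ⟨hXi, ⟨m, hm⟩, hX⟩ hXS
    have hfin : ∀ k, (X ∩ Iio k).Finite := fun k => (finite_Iio k).subset inter_subset_right
    have hng : ∀ k, m ≤ k → ¬ good (X ∩ Iio k) := by
      intro k hk
      induction k, hk using Nat.le_induction with
      | base => rw [← hm]; exact hgs
      | succ k hk ih =>
        by_cases hkX : k ∈ X
        · have hks : k ∉ s := by
            rw [hm]
            rintro ⟨_, h2⟩
            exact absurd h2 (by simpa using hk)
          have h1 := hX k hkX hks
          simp only [T, hfin k, if_true] at h1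
          have h2 := h1.1
          simp only [N, ih, if_false] at h2
          have h3 : X ∩ Iio (k + 1) = insert k (X ∩ Iio k) := by
            ext j
            simp only [mem_insert_iff, mem_inter_iff, mem_Iio]
            constructor
            · rintro ⟨h4, h5⟩
              rcases Nat.lt_succ_iff_lt_or_eq.1 h5 with h6 | h6
              · exact Or.inr ⟨h4, h6⟩
              · exact Or.inl h6
            · rintro (h | h)
              · subst h; exact ⟨hkX, by omega⟩
              · exact ⟨h.1, by omega⟩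
          rw [h3]
          exact h2
        · have h3 : X ∩ Iio (k + 1) = X ∩ Iio k := by
            ext j
            simp only [mem_inter_iff, mem_Iio]
            constructor
            · rintro ⟨h4, h5⟩
              rcases Nat.lt_succ_iff_lt_or_eq.1 h5 with h6 | h6
              · exact ⟨h4, h6⟩
              · subst h6; exact absurd h4 hkX
            · rintro ⟨h4, h5⟩
              exact ⟨h4, by omega⟩
          rw [h3]
          exact ih
    obtain ⟨i, hi⟩ := mem_iUnion.1 hXS
    -- a long initial segment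
    obtain ⟨F, hF1, hF2⟩ := hXi.exists_subset_card_eq i
    obtain ⟨k0, hk0⟩ : ∃ k0, ∀ x ∈ F, x < k0 := by
      refine ⟨F.sup id + 1, fun x hx => ?_⟩
      have : x ≤ F.sup id := Finset.le_sup (f := id) hx
      omega
    set k := max m k0 with hk
    have hcard : i ≤ (X ∩ Iio k).ncard := by
      rw [← hF2, ← ncard_coe_finset]
      apply ncard_le_ncard _ (hfin k)
      intro x hx
      exact ⟨hF1 hx, lt_of_lt_of_le (hk0 x hx) (le_max_right _ _)⟩
    have hmk : m ≤ k := le_max_left _ _
    apply hT'2 i (X ∩ Iio k) (hfin k) (hng k hmk) _ hi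
    refine ⟨hXi, ⟨k, rfl⟩, ?_⟩
    intro n hn hnk
    have hkn : k ≤ n := by
      by_contra h
      exact hnk ⟨hn, by simpa using h⟩
    have hns : n ∉ s := by
      rw [hm]
      rintro ⟨_, h2⟩
      exact absurd h2 (by simpa using hmk.trans hkn)
    have h1 := hX n hn hns
    simp only [T, hfin n, if_true] at h1
    have h2 := h1.2
    have h3 := mem_iInter₂.1 h2 (X ∩ Iio k)
      (show X ∩ Iio k ⊆ X ∩ Iio n from inter_subset_inter_right _ (Iio_subset_Iio hkn))
    exact mem_iInter₂.1 h3 i hcard

/-- The sets decided by ultrafilter trees form a sigma-algebra. -/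
@[reducible] def urSpace (U : Ultrafilter ℕ) (hU : (U : Filter ℕ) ≤ cofinite) : MeasurableSpace (Set ℕ) where
  MeasurableSet' := UR U
  measurableSet_empty := UR.empty
  measurableSet_compl := fun _ h => h.compl
  measurableSet_iUnion := fun S h => UR.iUnion S h

lemma UR.of_measurableSet {U : Ultrafilter ℕ} (hU : (U : Filter ℕ) ≤ cofinite)
    {S : Set (Set ℕ)} (hS : MeasurableSet S) : UR U S := by
  have h1 : @Measurable _ _ (urSpace U hU) _ (id : Set ℕ → Set ℕ) := by
    refine (@measurable_set_iff _ _ (urSpace U hU) _).2 ?_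
    intro a
    refine (@measurableSet_setOfPred _ (urSpace U hU) _).1 ?_
    exact UR.basic hU a
  exact h1 hS

/-- Galvin and Prikry: Borel sets of infinite sets are Ramsey. -/
theorem galvin_prikry {S : Set (Set ℕ)} (hS : MeasurableSet S) {A : Set ℕ} (hA : A.Infinite) :
    ∃ B, B ⊆ A ∧ B.Infinite ∧
      ((∀ X, X ⊆ B → X.Infinite → X ∈ S) ∨ (∀ X, X ⊆ B → X.Infinite → X ∉ S)) := by
  classical
  have := hA.cofinite_inf_principal_neBot
  let U : Ultrafilter ℕ := Ultrafilter.of (cofinite ⊓ 𝓟 A)
  have hU0 : (U : Filter ℕ) ≤ cofinite ⊓ 𝓟 A := Ultrafilter.of_le _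
  have hU : (U : Filter ℕ) ≤ cofinite := hU0.trans inf_le_left
  have hAU : A ∈ U := by
    have : (U : Filter ℕ) ≤ 𝓟 A := hU0.trans inf_le_right
    exact this (mem_principal_self A)
  have key : ∀ T : Set ℕ → Set ℕ, (∀ t, T t ∈ U) →
      ∃ B, B ⊆ A ∧ B.Infinite ∧ ∀ X, X ⊆ B → X.Infinite → X ∈ Br ∅ T := by
    intro T hT
    have hpick : ∀ F : Set ℕ, ∃ n, F.Finite →
        n ∈ A ∧ (∀ t ⊆ F, n ∈ T t) ∧ ∀ k ∈ F, k < n := by
      intro F
      by_cases hF : F.Finite
      · have h1 : (A ∩ (⋂ t ∈ 𝒫 F, T t)) ∩ (⋂ k ∈ F, Ioi k) ∈ U := by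
          refine inter_mem (inter_mem hAU ?_) ?_
          · rw [biInter_mem hF.powerset]
            intro t _
            exact hT t
          · rw [biInter_mem hF]
            intro k _
            apply hU
            rw [mem_cofinite]
            have : (Ioi k)ᶜ = Iic k := by ext x; simp
            rw [this]
            exact finite_Iic k
        obtain ⟨n, hn⟩ := U.nonempty_of_mem h1
        refine ⟨n, fun _ => ⟨hn.1.1, fun t ht => ?_, fun k hk => ?_⟩⟩
        · exact mem_iInter₂.1 hn.1.2 t ht
        · exact mem_iInter₂.1 hn.2 k hk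
      · exact ⟨0, fun h => absurd h hF⟩
    choose pick hpick using hpick
    let F : ℕ → Set ℕ := fun n => Nat.rec ∅ (fun _ G => insert (pick G) G) n
    have hF0 : F 0 = ∅ := rfl
    have hF1 : ∀ n, F (n + 1) = insert (pick (F n)) (F n) := fun n => rfl
    have hFfin : ∀ n, (F n).Finite := by
      intro n
      induction n with
      | zero => rw [hF0]; exact finite_empty
      | succ n ih => rw [hF1]; exact ih.insert _
    have hFmem : ∀ n k, k < n → pick (F k) ∈ F n := by
      intro n
      induction n with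
      | zero => intro k hk; omega
      | succ n ih =>
        intro k hk
        rw [hF1]
        rcases Nat.lt_succ_iff_lt_or_eq.1 hk with h | h
        · exact mem_insert_of_mem _ (ih k h)
        · subst h; exact mem_insert _ _
    have hmono : StrictMono (fun n => pick (F n)) := by
      intro a b hab
      exact (hpick (F b) (hFfin b)).2.2 _ (hFmem b a hab)
    refine ⟨range (fun n => pick (F n)), ?_, infinite_range_of_injective hmono.injective, ?_⟩
    · rintro _ ⟨n, rfl⟩
      exact (hpick (F n) (hFfin n)).1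
    · intro X hX hXi
      refine ⟨hXi, ⟨0, by ext x; simp⟩, ?_⟩
      intro n hn _
      obtain ⟨k, rfl⟩ := hX hn
      apply (hpick (F k) (hFfin k)).2.1
      rintro y ⟨hy1, hy2⟩
      obtain ⟨j, rfl⟩ := hX hy1
      have : j < k := hmono.lt_iff_lt.1 hy2
      exact hFmem k j this
  rcases UR.of_measurableSet hU hS ∅ finite_empty with ⟨T, hT, hB⟩ | ⟨T, hT, hB⟩
  · obtain ⟨B, h1, h2, h3⟩ := key T hT
    exact ⟨B, h1, h2, Or.inl fun X hX hXi => hB (h3 X hX hXi)⟩
  · obtain ⟨B, h1, h2, h3⟩ := key T hT
    exact ⟨B, h1, h2, Or.inr fun X hX hXi => hB (h3 X hX hXi)⟩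

end Pool.MP_0d2ef4_co
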