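import Pool.Agent.Work.MP_0d2ef4_co.WQ.Defs
import Pool.Agent.Work.MP_0d2ef4_co.WQ.GP

/-! Basic facts on arrays. -/

namespace Pool.MP_0d2ef4_co

open Set

universe u v

lemma tl_subset (X : Set ℕ) : tl X ⊆ X := sdiff_subset

lemma tl_infinite {X : Set ℕ} (h : X.Infinite) : (tl X).Infinite :=
  h.sdiff (finite_singleton _)

lemma mem_tl_iff {X : Set ℕ} {n : ℕ} : n ∈ tl X ↔ n ∈ X ∧ ∃ m ∈ X, m < n := by
  constructor
  · rintro ⟨h1, h2⟩
    have h3 : sInf X ∈ X := Nat.sInf_mem ⟨n, h1⟩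
    have h4 : sInf X ≤ n := Nat.sInf_le h1
    have h5 : n ≠ sInf X := h2
    exact ⟨h1, sInf X, h3, by omega⟩
  · rintro ⟨h1, m, h2, h3⟩
    refine ⟨h1, ?_⟩
    have h4 : sInf X ≤ m := Nat.sInf_le h2
    intro h5
    have h6 : n = sInf X := h5
    omega

lemma measurable_tl : Measurable tl := by
  rw [measurable_set_iff]
  intro n
  refine measurableSet_setOfPred.1 ?_
  have h : {X : Set ℕ | n ∈ tl X} = {X | n ∈ X} ∩ ⋃ m ∈ Iio n, {X | m ∈ X} := by
    ext X
    simp only [mem_ofPred_eq, mem_tl_iff, mem_inter_iff, mem_iUnion, mem_Iio, exists_prop]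
    constructor
    · rintro ⟨h1, m, h2, h3⟩; exact ⟨h1, m, h3, h2⟩
    · rintro ⟨h1, m, h2, h3⟩; exact ⟨h1, m, h3, h2⟩
  have h2 : MeasurableSet ({X : Set ℕ | n ∈ X} ∩ ⋃ m ∈ Iio n, {X : Set ℕ | m ∈ X}) :=
    (measurableSet_mem n).inter (MeasurableSet.biUnion (to_countable _) fun m _ => measurableSet_mem m)
  rw [← h] at h2
  exact h2

section

variable {Q : Type*} {R : Type*}

lemma IsArr.preimage {f : Set ℕ → Q} (hf : IsArr f) (T : Set Q) : MeasurableSet (f ⁻¹' T) := by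
  have h : f ⁻¹' T = ⋃ q ∈ range f ∩ T, f ⁻¹' {q} := by
    ext X
    simp only [mem_preimage, mem_iUnion, mem_singleton_iff, exists_prop]
    constructor
    · intro h; exact ⟨f X, ⟨mem_range_self X, h⟩, rfl⟩
    · rintro ⟨q, ⟨_, h2⟩, h3⟩; rw [h3]; exact h2
  rw [h]
  exact MeasurableSet.biUnion (hf.1.mono inter_subset_left) fun q _ => hf.2 q

lemma IsArr.of_preimage {f : Set ℕ → Q} (hc : (range f).Countable)
    (h : ∀ q, MeasurableSet {X | f X = q}) : IsArr f := ⟨hc, h⟩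

lemma IsArr.const (q : Q) : IsArr (fun _ : Set ℕ => q) := by
  refine ⟨(countable_singleton q).mono ?_, fun r => ?_⟩
  · rintro _ ⟨_, rfl⟩; rfl
  · by_cases h : q = r
    · have : (fun _ : Set ℕ => q) ⁻¹' {r} = univ := by ext X; simp [h]
      rw [this]; exact MeasurableSet.univ
    · have : (fun _ : Set ℕ => q) ⁻¹' {r} = ∅ := by ext X; simp [h]
      rw [this]; exact MeasurableSet.empty

lemma IsArr.comp {f : Set ℕ → Q} (hf : IsArr f) (g : Q → R) : IsArr (fun X => g (f X)) := by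
  refine ⟨?_, fun r => ?_⟩
  · have : range (fun X => g (f X)) = g '' range f := by
      ext x; simp
    rw [this]
    exact hf.1.image g
  · exact hf.preimage (g ⁻¹' {r})

lemma IsArr.tail {f : Set ℕ → Q} (hf : IsArr f) : IsArr (fun X => f (tl X)) := by
  refine ⟨hf.1.mono ?_, fun r => ?_⟩
  · rintro _ ⟨X, rfl⟩; exact ⟨tl X, rfl⟩
  · exact measurable_tl (hf.2 r)

lemma IsArr.prod {f : Set ℕ → Q} {g : Set ℕ → R} (hf : IsArr f) (hg : IsArr g) :
    IsArr (fun X => (f X, g X)) := by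
  refine ⟨(hf.1.prod hg.1).mono ?_, fun r => ?_⟩
  · rintro _ ⟨X, rfl⟩; exact ⟨mem_range_self X, mem_range_self X⟩
  · have : (fun X => (f X, g X)) ⁻¹' {r} = f ⁻¹' {r.1} ∩ g ⁻¹' {r.2} := by
      ext X
      simp [Prod.ext_iff]
    rw [this]
    exact (hf.2 _).inter (hg.2 _)

lemma IsArr.map₂ {f : Set ℕ → Q} (hf : IsArr f) (F : Q → Q → R) :
    IsArr (fun X => F (f X) (f (tl X))) :=
  (hf.prod hf.tail).comp (fun p => F p.1 p.2)

lemma IsArr.measurableSet_rel {f : Set ℕ → Q} {g : Set ℕ → R} (hf : IsArr f) (hg : IsArr g)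
    (r : Q → R → Prop) : MeasurableSet {X | r (f X) (g X)} :=
  (hf.prod hg).preimage {p | r p.1 p.2}

lemma IsArr.measurableSet_setOf {f : Set ℕ → Q} (hf : IsArr f)
    (p : Q → Prop) : MeasurableSet {X | p (f X)} := hf.preimage {q | p q}

/-- Patching arrays along a measurable index function. -/
lemma IsArr.diag {I : Set ℕ → ℕ} (hI : ∀ i, MeasurableSet {X | I X = i})
    {f : ℕ → Set ℕ → Q} (hf : ∀ i, IsArr (f i)) : IsArr (fun X => f (I X) X) := by
  refine ⟨(countable_iUnion fun i => (hf i).1).mono ?_, fun q => ?_⟩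
  · rintro _ ⟨X, rfl⟩; exact mem_iUnion.2 ⟨I X, X, rfl⟩
  · have : (fun X => f (I X) X) ⁻¹' {q} = ⋃ i, ({X | I X = i} ∩ f i ⁻¹' {q}) := by
      ext X
      simp only [mem_preimage, mem_singleton_iff, mem_iUnion, mem_inter_iff, mem_ofPred_eq]
      constructor
      · intro h; exact ⟨I X, rfl, h⟩
      · rintro ⟨i, h1, h2⟩; rw [h1]; exact h2
    rw [this]
    exact MeasurableSet.iUnion fun i => (hI i).inter ((hf i).2 q)

/-- Changing an array by a case distinction. -/
lemma IsArr.ite {f g : Set ℕ → Q} (hf : IsArr f) (hg : IsArr g) {E : Set (Set ℕ)}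
    (hE : MeasurableSet E) [DecidablePred (· ∈ E)] : IsArr (fun X => if X ∈ E then f X else g X) := by
  refine ⟨(hf.1.union hg.1).mono ?_, fun q => ?_⟩
  · rintro _ ⟨X, rfl⟩
    by_cases h : X ∈ E
    · left; simp only [h, if_true]; exact mem_range_self X
    · right; simp only [h, if_false]; exact mem_range_self X
  · have : (fun X => if X ∈ E then f X else g X) ⁻¹' {q} =
        (E ∩ f ⁻¹' {q}) ∪ (Eᶜ ∩ g ⁻¹' {q}) := by
      ext X
      by_cases h : X ∈ E <;> simp [h]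
    rw [this]
    exact (hE.inter (hf.2 q)).union (hE.compl.inter (hg.2 q))

end

lemma measurableSet_subset (A : Set ℕ) : MeasurableSet {X : Set ℕ | X ⊆ A} := by
  have : {X : Set ℕ | X ⊆ A} = ⋂ n ∈ Aᶜ, {X | n ∈ X}ᶜ := by
    ext X
    simp only [mem_ofPred_eq, mem_iInter, mem_compl_iff]
    constructor
    · intro h n hn hnX; exact hn (h hnX)
    · intro h n hnX
      by_contra hn
      exact h n hn hnX
  rw [this]
  exact MeasurableSet.biInter (to_countable _) fun n _ => (measurableSet_mem n).compl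

lemma measurableSet_infinite : MeasurableSet {X : Set ℕ | X.Infinite} := by
  have : {X : Set ℕ | X.Infinite} = ⋂ n : ℕ, ⋃ m ∈ Ioi n, {X | m ∈ X} := by
    ext X
    simp only [mem_ofPred_eq, mem_iInter, mem_iUnion, mem_Ioi, exists_prop]
    constructor
    · intro h n
      obtain ⟨m, h1, h2⟩ := h.exists_gt n
      exact ⟨m, h2, h1⟩
    · intro h
      refine infinite_of_not_bddAbove ?_
      rintro ⟨n, hn⟩
      obtain ⟨m, h1, h2⟩ := h n
      have := hn h2
      omega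
  rw [this]
  exact MeasurableSet.iInter fun n => MeasurableSet.biUnion (to_countable _)
    fun m _ => measurableSet_mem m

/-- Galvin and Prikry for predicates. -/
lemma gp_pred {p : Set ℕ → Prop} (hp : MeasurableSet {X | p X}) {A : Set ℕ} (hA : A.Infinite) :
    ∃ B, B ⊆ A ∧ B.Infinite ∧
      ((∀ X, X ⊆ B → X.Infinite → p X) ∨ (∀ X, X ⊆ B → X.Infinite → ¬ p X)) :=
  galvin_prikry hp hA

section

variable {Q : Type*} {le : Q → Q → Prop} {P : Set ℕ → Q → Prop} {A B : Set ℕ}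

lemma NB.mono (h : NB le P A) (hBA : B ⊆ A) : NB le P B :=
  fun C hC hCi f hf hP => h C (hC.trans hBA) hCi f hf hP

lemma NB.mono' {P' : Set ℕ → Q → Prop} (h : NB le P A) (hP : ∀ X, X ⊆ A → ∀ q, P' X q → P X q) :
    NB le P' A :=
  fun C hC hCi f hf hP' => h C hC hCi f hf fun X hX hXi => hP X (hX.trans hC) _ (hP' X hX hXi)

/-- An array that is not bad is perfect on a smaller set. -/
lemma NB.perfect (h : NB le P A) (hBA : B ⊆ A) (hB : B.Infinite) {f : Set ℕ → Q}
    (hf : IsArr f) (hP : ∀ X, X ⊆ B → X.Infinite → P X (f X)) :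
    ∃ C, C ⊆ B ∧ C.Infinite ∧ ∀ X, X ⊆ C → X.Infinite → le (f X) (f (tl X)) := by
  obtain ⟨C, hC1, hC2, hC3⟩ := gp_pred (p := fun X => le (f X) (f (tl X)))
    (hf.measurableSet_rel hf.tail le) hB
  rcases hC3 with h1 | h1
  · exact ⟨C, hC1, hC2, h1⟩
  · exfalso
    obtain ⟨X, h2, h3, h4⟩ := h C (hC1.trans hBA) hC2 f hf
      (fun X hX hXi => hP X (hX.trans hC1) hXi)
    exact h1 X h2 h3 h4

/-- A finite colouring of infinite sets. -/
lemma exists_const {K : Type*} [Finite K] {c : Set ℕ → K} (hc : ∀ k, MeasurableSet {X | c X = k})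
    (hA : A.Infinite) : ∃ B, B ⊆ A ∧ B.Infinite ∧ ∃ k, ∀ X, X ⊆ B → X.Infinite → c X = k := by
  classical
  have := Fintype.ofFinite K
  have key : ∀ s : Finset K, (∃ B, B ⊆ A ∧ B.Infinite ∧ ∃ k, ∀ X, X ⊆ B → X.Infinite → c X = k) ∨
      (∃ B, B ⊆ A ∧ B.Infinite ∧ ∀ k ∈ s, ∀ X, X ⊆ B → X.Infinite → c X ≠ k) := by
    intro s
    induction s using Finset.induction_on with
    | empty => right; exact ⟨A, Subset.rfl, hA, by simp⟩
    | insert k s hks ih =>
      rcases ih with h | ⟨B, h1, h2, h3⟩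
      · exact Or.inl h
      · obtain ⟨C, hC1, hC2, hC3⟩ := gp_pred (p := fun X => c X = k) (hc k) h2
        rcases hC3 with h4 | h4
        · left; exact ⟨C, hC1.trans h1, hC2, k, h4⟩
        · right
          refine ⟨C, hC1.trans h1, hC2, ?_⟩
          intro k' hk' X hX hXi
          rcases Finset.mem_insert.1 hk' with h5 | h5
          · rw [h5]; exact h4 X hX hXi
          · exact h3 k' h5 X (hX.trans hC1) hXi
  rcases key Finset.univ with h | ⟨B, _, h2, h3⟩
  · exact h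
  · exact absurd rfl (h3 (c B) (Finset.mem_univ _) B Subset.rfl h2)

end

end Pool.MP_0d2ef4_co
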