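import Mathlib

/-!
# Rayless graphs with tame blocks: definitions used in the statement

Graphs are simple graphs on types of arbitrary cardinality.
-/

namespace Pool.MP_0d2ef4_co

open Set

universe u v

/-- `H` is a minor of `G`: there are pairwise disjoint nonempty connected vertex
sets `M a` of `G`, one for each vertex `a` of `H`, with an edge of `G` between
`M a` and `M b` for every edge `ab` of `H`. (`Connected` includes nonempty.) -/
def IsMinor {V : Type u} {W : Type v} (H : SimpleGraph V) (G : SimpleGraph W) : Prop :=
  ∃ M : V → Set W, (∀ a, (G.induce (M a)).Connected) ∧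
    (∀ a b, a ≠ b → Disjoint (M a) (M b)) ∧
    ∀ a b, H.Adj a b → ∃ p ∈ M a, ∃ q ∈ M b, G.Adj p q

/-- `G` has no ray (one-way infinite path with distinct vertices). -/
def Rayless {V : Type u} (G : SimpleGraph V) : Prop :=
  ¬ ∃ f : ℕ → V, Function.Injective f ∧ ∀ n, G.Adj (f n) (f (n + 1))

/-- The set `S` of vertices induces a connected subgraph that remains connected
when any one of its vertices is deleted. (Sets with fewer than three vertices are
allowed; they satisfy the condition in `InClass` trivially.) -/
def TwoConnected {V : Type u} (G : SimpleGraph V) (S : Set V) : Prop :=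
  (G.induce S).Connected ∧ ∀ w ∈ S, (G.induce (S \ {w})).Preconnected

/-- No four vertices of `S` induce a path. -/
def P4Free {V : Type u} (G : SimpleGraph V) (S : Set V) : Prop :=
  ∀ a ∈ S, ∀ b ∈ S, ∀ c ∈ S, ∀ d ∈ S, ¬ (G.Adj a b ∧ G.Adj b c ∧ G.Adj c d ∧
    ¬ G.Adj a c ∧ ¬ G.Adj b d ∧ ¬ G.Adj a d)

/-- Coloured decompositions. The vertices are coloured by `c` with `m` colours.
`Dec G c S` says that `S` can be built up from single vertices by two operations:
unions of arbitrary (possibly infinite) families of disjoint pieces whose mutual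
adjacencies depend only on the colours, and unions of at most `m` disjoint
pieces whose mutual adjacencies depend only on the colours and on the pieces. -/
inductive Dec {V : Type u} (G : SimpleGraph V) {m : ℕ} (c : V → Fin m) : Set V → Prop
  | single (v : V) : Dec G c {v}
  | unif (D : Fin m → Fin m → Prop) (I : Type u) (S : I → Set V) (hS : ∀ i, Dec G c (S i))
      (hD : ∀ i j, i ≠ j → ∀ x ∈ S i, ∀ y ∈ S j, x ≠ y ∧ (G.Adj x y ↔ D (c x) (c y))) :
      Dec G c (⋃ i, S i)
  | fin (D : Fin m → Fin m → Fin m → Fin m → Prop) (S : Fin m → Set V)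
      (hS : ∀ i, Dec G c (S i))
      (hD : ∀ i j, i ≠ j → ∀ x ∈ S i, ∀ y ∈ S j, x ≠ y ∧ (G.Adj x y ↔ D i j (c x) (c y))) :
      Dec G c (⋃ i, S i)

/-- The class with parameter `m`: rayless graphs in which every two-connected set
`S` of vertices has a coloured decomposition with `m` colours or becomes free of
induced four vertex paths after the deletion of at most `m` vertices. -/
def InClass (m : ℕ) {V : Type u} (G : SimpleGraph V) : Prop :=
  Rayless G ∧ ∀ S : Set V, TwoConnected G S →
    (∃ c : V → Fin m, Dec G c S) ∨ ∃ F : Finset V, F.card ≤ m ∧ P4Free G (S \ ↑F)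

end Pool.MP_0d2ef4_co
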