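import Pool.Agent.Work.MP_0d2ef4_co.WQ.Defs
import Pool.Agent.Work.MP_0d2ef4_co.WQ.Stat

/-! The larger class of blocks: coloured decompositions. -/

namespace Pool.MP_0d2ef4_co

open Set

universe u v

/-- Every two-connected set has a coloured decomposition with `m` colours. -/
def ClsD {V : Type u} (m : ℕ) (G : SimpleGraph V) : Prop :=
  ∀ S, TwoCon G S → ∃ c : V → Fin m, Dec G c S

/-- Labelled graphs with a coloured decomposition; the colour of a vertex is the
second component of its label. -/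
def CS2Stmt : Prop :=
  ∀ (m : ℕ) (L : Type v) (leL : L → L → Prop) (P : Set ℕ → L → Prop) (A : Set ℕ),
    NB leL P A →
    NB (CS.le.{u} (fun a b : L × Fin m => leL a.1 b.1 ∧ a.2 = b.2))
      (fun X c => Nonempty c.W ∧ Dec c.H (fun w => (c.lab w).2) c.S ∧
        ∀ w ∈ c.S, P X (c.lab w).1) A

def BS2Stmt : Prop :=
  ∀ (m : ℕ) (P : Set ℕ → RG.{u} → Prop) (A : Set ℕ), NB RMin P A →
    NB BS.le.{u} (fun X b => b.v ∉ b.C ∧ (∃ c : b.V → Fin m, Dec b.G c (insert b.v b.C)) ∧
      ∀ w ∈ b.C, P X ⟨b.V, b.G, b.r, w⟩) A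

def RG2Stmt : Prop :=
  ∀ m : ℕ, NB RMin.{u} (fun _ x => Cn x.G univ x.r x.v ∧ RaylessOn x.G univ ∧ ClsD m x.G) univ

/-- Rayless graphs whose blocks are free of induced four vertex paths up to `k`
vertices have coloured decompositions of their blocks. -/
def P4DecStmt : Prop :=
  ∀ k : ℕ, ∃ m : ℕ, ∀ (V : Type u) (G : SimpleGraph V), RaylessOn G univ → Cls k G → ClsD m G

end Pool.MP_0d2ef4_co
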