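import Pool.Agent.Work.MP_0d2ef4_co.WQ.Basic
import Pool.Agent.Work.MP_0d2ef4_co.WQ.Arr
import Pool.Agent.Work.MP_0d2ef4_co.WQ.Defs2

/-! From rooted graphs to arbitrary graphs. -/

namespace Pool.MP_0d2ef4_co

open Set

universe u v

lemma cn_of_reachable {V : Type u} {G : SimpleGraph V} {S : Set V} {a b : S}
    (h : (G.induce S).Reachable a b) : Cn G S a b := by
  obtain ⟨p⟩ := h
  induction p with
  | nil => exact Cn.refl (Subtype.property _)
  | @cons x y z hxy _ ih => exact (Cn.of_adj x.2 y.2 hxy).trans ih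

lemma reachable_of_cn {V : Type u} {G : SimpleGraph V} {S : Set V} {a b : V}
    (h : Cn G S a b) : ∀ (ha : a ∈ S) (hb : b ∈ S), (G.induce S).Reachable ⟨a, ha⟩ ⟨b, hb⟩ := by
  refine Cn.induct (p := fun b => ∀ (ha : a ∈ S) (hb : b ∈ S),
    (G.induce S).Reachable ⟨a, ha⟩ ⟨b, hb⟩) h (fun _ _ => SimpleGraph.Reachable.refl _) ?_
  intro x y hx hxy hy ih ha hb
  refine (ih ha hx.right).trans (SimpleGraph.Adj.reachable ?_)
  exact hxy

lemma connected_of_cn {V : Type u} {G : SimpleGraph V} {S : Set V} (hS : S.Nonempty)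
    (h : ∀ a ∈ S, ∀ b ∈ S, Cn G S a b) : (G.induce S).Connected := by
  have : Nonempty S := hS.to_subtype
  exact ⟨fun a b => reachable_of_cn (h a a.2 b b.2) a.2 b.2⟩

lemma twoCon_iff {V : Type u} {G : SimpleGraph V} {S : Set V} :
    TwoConnected G S ↔ TwoCon G S := by
  constructor
  · rintro ⟨h1, h2⟩
    refine ⟨?_, ?_, ?_⟩
    · obtain ⟨x⟩ := h1.nonempty
      exact ⟨x, x.2⟩
    · intro a ha b hb
      exact cn_of_reachable (h1.preconnected ⟨a, ha⟩ ⟨b, hb⟩)
    · intro w hw a ha b hb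
      exact cn_of_reachable (h2 w hw ⟨a, ha⟩ ⟨b, hb⟩)
  · rintro ⟨h1, h2, h3⟩
    refine ⟨connected_of_cn h1 h2, fun w hw a b => ?_⟩
    exact reachable_of_cn (h3 w hw a a.2 b b.2) a.2 b.2

lemma rayless_iff {V : Type u} {G : SimpleGraph V} : Rayless G ↔ RaylessOn G univ := by
  constructor
  · rintro h ⟨f, h1, _, h2⟩; exact h ⟨f, h1, h2⟩
  · rintro h ⟨f, h1, h2⟩; exact h ⟨f, h1, fun _ => mem_univ _, h2⟩

/-- A graph with its type of vertices. -/
structure Gr where
  V : Type u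
  G : SimpleGraph V

/-- The family of the components, with roots. -/
noncomputable def Gr.fam (x : Gr.{u}) : Fam.{u} RG.{u} where
  I := {C : Set x.V // ∃ a, C = cmp x.G univ a}
  x := fun C => ⟨x.V, x.G, C.2.choose, C.2.choose⟩

lemma dom_self {V : Type u} (G : SimpleGraph V) (r : V) : dom G r r = cmp G univ r := by
  ext y
  constructor
  · intro h; exact h.1
  · intro h
    exact ⟨h, fun h' => h'.left rfl⟩

lemma isMinor_of_fam {x y : Gr.{u}} (h : Fam.le RMin x.fam y.fam) : IsMinor x.G y.G := by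
  obtain ⟨σ, hσ, hM⟩ := h
  have hmem : ∀ (z : Gr.{u}) (C : {C : Set z.V // ∃ a, C = cmp z.G univ a}),
      dom z.G C.2.choose C.2.choose = C.1 := by
    intro z C
    rw [dom_self, ← C.2.choose_spec]
  have hM' : ∀ C : {C : Set x.V // ∃ a, C = cmp x.G univ a},
      ∃ (D : {C : Set y.V // ∃ a, C = cmp y.G univ a}) (M : x.V → Set y.V), D = σ C ∧
      (∀ a ∈ C.1, M a ⊆ D.1 ∧ (M a).Nonempty ∧ ∀ p ∈ M a, ∀ q ∈ M a, Cn y.G (M a) p q) ∧
      (∀ a ∈ C.1, ∀ b ∈ C.1, a ≠ b → Disjoint (M a) (M b)) ∧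
      (∀ a ∈ C.1, ∀ b ∈ C.1, x.G.Adj a b → ∃ p ∈ M a, ∃ q ∈ M b, y.G.Adj p q) := by
    intro C
    obtain ⟨M, h1, h2, h3, _⟩ := hM C
    refine ⟨σ C, M, rfl, ?_, ?_, ?_⟩
    · intro a ha
      have h4 := h1 a (by rw [← hmem x C] at ha; exact ha)
      refine ⟨?_, h4.2⟩
      rw [← hmem y (σ C)]
      exact h4.1
    · intro a ha b hb
      exact h2 a (by rw [← hmem x C] at ha; exact ha) b (by rw [← hmem x C] at hb; exact hb)
    · intro a ha b hb
      exact h3 a (by rw [← hmem x C] at ha; exact ha) b (by rw [← hmem x C] at hb; exact hb)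
  choose D M hD hM1 hM2 hM3 using hM'
  let cp : x.V → {C : Set x.V // ∃ a, C = cmp x.G univ a} := fun a => ⟨cmp x.G univ a, a, rfl⟩
  have hself : ∀ a, a ∈ (cp a).1 := fun a => Cn.refl (mem_univ a)
  have hcp : ∀ a b, x.G.Adj a b → cp a = cp b := by
    intro a b hab
    apply Subtype.ext
    exact cmp_eq (Cn.of_adj (mem_univ a) (mem_univ b) hab)
  refine ⟨fun a => M (cp a) a, fun a => ?_, fun a b hab => ?_, fun a b hab => ?_⟩
  · obtain ⟨_, h2, h3⟩ := hM1 (cp a) a (hself a)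
    exact connected_of_cn h2 h3
  · by_cases h : cp a = cp b
    · have h1 := hM2 (cp a) a (hself a) b (h ▸ hself b) hab
      show Disjoint (M (cp a) a) (M (cp b) b)
      rw [← h]
      exact h1
    · rw [Set.disjoint_left]
      intro p hp hp'
      have h1 := (hM1 _ _ (hself a)).1 hp
      have h2 := (hM1 _ _ (hself b)).1 hp'
      apply h
      apply hσ
      rw [← hD, ← hD]
      apply Subtype.ext
      obtain ⟨a', ha'⟩ := (D (cp a)).2
      obtain ⟨b', hb'⟩ := (D (cp b)).2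
      rw [ha'] at h1 ⊢
      rw [hb'] at h2 ⊢
      rw [cmp_eq h1, cmp_eq h2]
  · have h := hcp a b hab
    obtain ⟨p, hp, q, hq, hpq⟩ := hM3 (cp a) a (hself a) b (h ▸ hself b) hab
    refine ⟨p, hp, q, ?_, hpq⟩
    show q ∈ M (cp b) b
    rw [← h]
    exact hq

lemma measurable_sInf' : Measurable (fun X : Set ℕ => sInf X) := by
  refine measurable_to_countable' fun n => ?_
  have h : (fun X : Set ℕ => sInf X) ⁻¹' {n} =
      ({X | n ∈ X} ∩ ⋂ i ∈ Iio n, {X | i ∈ X}ᶜ) ∪ ({X | n = 0} ∩ ⋂ i, {X | i ∈ X}ᶜ) := by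
    ext X
    simp only [mem_preimage, mem_singleton_iff, mem_ofPred_eq, mem_union, mem_inter_iff, mem_iInter,
      mem_compl_iff, mem_Iio]
    constructor
    · intro h
      by_cases hne : X.Nonempty
      · left
        have h1 := Nat.sInf_mem hne
        rw [h] at h1
        refine ⟨h1, fun i hi hCi => ?_⟩
        have h2 : sInf X ≤ i := Nat.sInf_le hCi
        omega
      · right
        have h1 : X = ∅ := not_nonempty_iff_eq_empty.1 hne
        rw [h1, Nat.sInf_empty] at h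
        refine ⟨h.symm, fun i hi => ?_⟩
        exact hne ⟨i, hi⟩
    · rintro (⟨h1, h2⟩ | ⟨h1, h2⟩)
      · apply le_antisymm (Nat.sInf_le h1)
        by_contra hlt
        exact h2 _ (by omega) (Nat.sInf_mem ⟨n, h1⟩)
      · have h3 : X = ∅ := eq_empty_iff_forall_notMem.2 h2
        rw [h3, Nat.sInf_empty, h1]
  rw [h]
  refine MeasurableSet.union ?_ ?_
  · exact (measurableSet_mem n).inter
      (MeasurableSet.biInter (to_countable _) fun i _ => (measurableSet_mem i).compl)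
  · refine MeasurableSet.inter ?_ (MeasurableSet.iInter fun i => (measurableSet_mem i).compl)
    by_cases hn : n = 0
    · have : {X : Set ℕ | n = 0} = univ := by ext X; simp [hn]
      rw [this]; exact MeasurableSet.univ
    · have : {X : Set ℕ | n = 0} = ∅ := by ext X; simp [hn]
      rw [this]; exact MeasurableSet.empty

lemma sInf_lt_sInf_tl {X : Set ℕ} (hX : X.Infinite) : sInf X < sInf (X \ {sInf X}) := by
  have h1 : sInf (X \ {sInf X}) ∈ X \ {sInf X} := by
    apply Nat.sInf_mem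
    exact (tl_infinite hX).nonempty
  have h2 : sInf X ≤ sInf (X \ {sInf X}) := Nat.sInf_le h1.1
  have h3 : sInf (X \ {sInf X}) ≠ sInf X := h1.2
  omega

theorem bqo_of_rg (hf : FamStmt.{u, u + 1}) (hr : RG2Stmt.{u}) (m : ℕ)
    (V : ℕ → Type u) (G : ∀ n, SimpleGraph (V n)) (hG : ∀ n, RaylessOn (G n) univ ∧ ClsD m (G n))
    (c : Set ℕ → ℕ) (hc : Measurable c) :
    ∃ X : Set ℕ, X.Infinite ∧ IsMinor (G (c X)) (G (c (X \ {sInf X}))) := by
  have h1 := hf RG.{u} RMin.{u} _ univ (hr m)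
  have harr : IsArr (fun X : Set ℕ => (Gr.mk (V (c X)) (G (c X))).fam) := by
    have h2 : IsArr c := ⟨to_countable _, fun n => hc (measurableSet_singleton n)⟩
    exact h2.comp (fun n => (Gr.mk (V n) (G n)).fam)
  obtain ⟨X, _, hXi, hle⟩ := h1 univ Subset.rfl infinite_univ _ harr (by
    intro X _ _ C
    exact ⟨Cn.refl (mem_univ _), (hG (c X)).1, (hG (c X)).2⟩)
  exact ⟨X, hXi, isMinor_of_fam hle⟩

end Pool.MP_0d2ef4_co
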