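import Pool.Agent.Work.MP_0d2ef4_co.WQ.Defs

/-! Basic facts on reachability inside a set of vertices. -/

namespace Pool.MP_0d2ef4_co

open Set

universe u

variable {V : Type u} {G : SimpleGraph V} {S T : Set V} {a b c : V}

lemma Cn.left (h : Cn G S a b) : a ∈ S := h.1

lemma Cn.right (h : Cn G S a b) : b ∈ S := by
  rcases Relation.ReflTransGen.cases_tail h.2 with h1 | ⟨c, _, h2⟩
  · rw [h1]; exact h.1
  · exact h2.2

lemma Cn.refl (h : a ∈ S) : Cn G S a a := ⟨h, Relation.ReflTransGen.refl⟩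

lemma Cn.trans (h : Cn G S a b) (h' : Cn G S b c) : Cn G S a c := ⟨h.1, h.2.trans h'.2⟩

lemma Cn.tail (h : Cn G S a b) (hbc : G.Adj b c) (hc : c ∈ S) : Cn G S a c :=
  ⟨h.1, h.2.tail ⟨hbc, hc⟩⟩

lemma Cn.of_adj (ha : a ∈ S) (hb : b ∈ S) (h : G.Adj a b) : Cn G S a b :=
  (Cn.refl ha).tail h hb

lemma Cn.symm (h : Cn G S a b) : Cn G S b a := by
  obtain ⟨h1, h2⟩ := h
  induction h2 with
  | refl => exact Cn.refl h1
  | @tail c d h3 h4 ih =>
    have hc : c ∈ S := Cn.right ⟨h1, h3⟩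
    exact (Cn.of_adj h4.2 hc h4.1.symm).trans ih

lemma Cn.mono (h : Cn G S a b) (hST : S ⊆ T) : Cn G T a b :=
  ⟨hST h.1, h.2.lift id fun _ _ h' => ⟨h'.1, hST h'.2⟩⟩

/-- Induction along a walk inside `S`. -/
lemma Cn.induct {p : V → Prop} (h : Cn G S a b) (h0 : p a)
    (hs : ∀ x y, Cn G S a x → G.Adj x y → y ∈ S → p x → p y) : p b := by
  obtain ⟨h1, h2⟩ := h
  induction h2 with
  | refl => exact h0
  | @tail c d h3 h4 ih => exact hs c d ⟨h1, h3⟩ h4.1 h4.2 ih

/-- Induction along a walk inside `S`, from the end. -/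
lemma Cn.induct_head {p : V → Prop} (h : Cn G S a b) (h0 : p b)
    (hs : ∀ x y, x ∈ S → G.Adj x y → Cn G S y b → p y → p x) : p a := by
  have := Cn.induct (p := p) h.symm h0 (fun x y h1 h2 h3 h4 => hs y x h3 h2.symm h1.symm h4)
  exact this

/-- Last exit from `a`. -/
lemma Cn.last_exit (h : Cn G S a b) (hab : a ≠ b) :
    ∃ c, G.Adj a c ∧ Cn G (S \ {a}) c b := by
  have key : Cn G (S \ {a}) a b ∨ ∃ c, G.Adj a c ∧ Cn G (S \ {a}) c b := by
    refine Cn.induct_head (p := fun x => Cn G (S \ {a}) x b ∨ ∃ c, G.Adj a c ∧ Cn G (S \ {a}) c b)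
      h (Or.inl (Cn.refl ⟨h.right, fun h' => hab h'.symm⟩)) ?_
    rintro x y hx hxy _ (h1 | h1)
    · by_cases hxa : x = a
      · right; exact ⟨y, hxa ▸ hxy, h1⟩
      · left
        have hx' : x ∈ S \ {a} := ⟨hx, hxa⟩
        exact (Cn.of_adj hx' h1.left hxy).trans h1
    · exact Or.inr h1
  rcases key with h1 | h1
  · exact absurd rfl h1.left.2
  · exact h1

lemma mem_cmp : b ∈ cmp G S a ↔ Cn G S a b := Iff.rfl

lemma cmp_subset : cmp G S a ⊆ S := fun _ h => Cn.right h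

lemma self_mem_cmp (h : a ∈ S) : a ∈ cmp G S a := Cn.refl h

lemma cmp_eq (h : Cn G S a b) : cmp G S a = cmp G S b := by
  ext x
  exact ⟨fun hx => h.symm.trans hx, fun hx => h.trans hx⟩

/-- A component is connected. -/
lemma cmp_conn (h : b ∈ cmp G S a) (h' : c ∈ cmp G S a) : Cn G (cmp G S a) b c := by
  have key : ∀ x, Cn G S a x → Cn G (cmp G S a) a x := by
    intro x hx
    refine Cn.induct (p := fun x => Cn G (cmp G S a) a x) hx (Cn.refl (Cn.refl hx.left)) ?_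
    intro x y hx hxy hy h1
    exact h1.tail hxy (hx.tail hxy hy)
  exact (key b h).symm.trans (key c h')

/-- Vertices of different components are not adjacent. -/
lemma cmp_closed (h : b ∈ cmp G S a) (hbc : G.Adj b c) (hc : c ∈ S) : c ∈ cmp G S a :=
  Cn.tail h hbc hc

lemma RaylessOn.mono (h : RaylessOn G T) (hST : S ⊆ T) : RaylessOn G S := by
  rintro ⟨f, h1, h2, h3⟩
  exact h ⟨f, h1, fun n => hST (h2 n), h3⟩

lemma P4FreeOn.mono (h : P4FreeOn G T) (hST : S ⊆ T) : P4FreeOn G S :=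
  fun a b c d ha hb hc hd => h a b c d (hST ha) (hST hb) (hST hc) (hST hd)

end Pool.MP_0d2ef4_co
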