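import Pool.Agent.Work.MP_0d2ef4_co.WQ.Basic

/-! Basic facts on domination. -/

namespace Pool.MP_0d2ef4_co

open Set

universe u

private lemma DOM_self {V : Type u} {G : SimpleGraph V} {r v : V} (h : Cn G univ r v) :
    v ∈ dom G r v :=
  ⟨h, fun h' => h'.right rfl⟩

private lemma DOM_root {V : Type u} {G : SimpleGraph V} {r v : V} (h : r ∈ dom G r v) :
    v = r := by
  by_contra hne
  exact h.2 (Cn.refl (fun h' : r = v => hne h'.symm))

private lemma DOM_bdry {V : Type u} {G : SimpleGraph V} {r w y z : V} (hy : y ∈ dom G r w)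
    (hne : y ≠ w) (hyz : G.Adj y z) : z ∈ dom G r w :=
  ⟨hy.1.tail hyz (mem_univ z), fun h => hy.2 (h.tail hyz.symm hne)⟩

private lemma DOM_trans {V : Type u} {G : SimpleGraph V} {r v w y : V} (hy : y ∈ dom G r w)
    (hw : w ∈ dom G r v) : y ∈ dom G r v := by
  refine ⟨hy.1, fun h => ?_⟩
  have key : Cn G {w}ᶜ r y ∨ Cn G {v}ᶜ r w := by
    refine Cn.induct (p := fun z => Cn G {w}ᶜ r z ∨ Cn G {v}ᶜ r w) h ?_ ?_
    · by_cases hrw : r = w
      · right
        rw [← hrw]
        exact Cn.refl h.left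
      · exact Or.inl (Cn.refl hrw)
    · intro x z hx hxz hz ih
      by_cases hzw : z = w
      · right
        rw [← hzw]
        exact hx.tail hxz hz
      · rcases ih with ih | ih
        · exact Or.inl (ih.tail hxz hzw)
        · exact Or.inr ih
  rcases key with key | key
  · exact hy.2 key
  · exact hw.2 key

private lemma DOM_antisymm {V : Type u} {G : SimpleGraph V} {r v w : V} (hw : w ∈ dom G r v)
    (hv : v ∈ dom G r w) : v = w := by
  by_contra hne
  have key : (Cn G {v}ᶜ r v ∧ Cn G {w}ᶜ r v) ∨ Cn G {w}ᶜ r v ∨ Cn G {v}ᶜ r w := by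
    refine Cn.induct
      (p := fun z => (Cn G {v}ᶜ r z ∧ Cn G {w}ᶜ r z) ∨ Cn G {w}ᶜ r v ∨ Cn G {v}ᶜ r w)
      hv.1 ?_ ?_
    · by_cases hrv : r = v
      · right; left
        rw [← hrv]
        exact Cn.refl (fun h' : r = w => hne (hrv.symm.trans h'))
      · by_cases hrw : r = w
        · right; right
          rw [← hrw]
          exact Cn.refl hrv
        · exact Or.inl ⟨Cn.refl hrv, Cn.refl hrw⟩
    · intro x z hx hxz _ ih
      rcases ih with ⟨h1, h2⟩ | ih
      · by_cases hzv : z = v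
        · right; left
          rw [← hzv]
          exact h2.tail hxz (fun h' : z = w => hne (hzv.symm.trans h'))
        · by_cases hzw : z = w
          · right; right
            rw [← hzw]
            exact h1.tail hxz hzv
          · exact Or.inl ⟨h1.tail hxz hzv, h2.tail hxz hzw⟩
      · exact Or.inr ih
  rcases key with key | key | key
  · exact hv.2 key.2
  · exact hv.2 key
  · exact hw.2 key

private lemma DOM_chain {V : Type u} {G : SimpleGraph V} {r v w y : V} (h1 : y ∈ dom G r v)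
    (h2 : y ∈ dom G r w) : v ∈ dom G r w ∨ w ∈ dom G r v := by
  by_contra hcon
  push Not at hcon
  obtain ⟨hv, hw⟩ := hcon
  have key : Cn G {v}ᶜ r y ∨ Cn G {w}ᶜ r y := by
    refine Cn.induct (p := fun z => Cn G {v}ᶜ r z ∨ Cn G {w}ᶜ r z) h1.1 ?_ ?_
    · by_cases hrv : r = v
      · by_cases hrw : r = w
        · exfalso
          apply hv
          rw [← hrv, ← hrw]
          exact DOM_self (Cn.refl (mem_univ r))
        · exact Or.inr (Cn.refl hrw)
      · exact Or.inl (Cn.refl hrv)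
    · intro x z hx hxz _ ih
      have hz : Cn G univ r z := hx.tail hxz (mem_univ z)
      by_cases hzv : z = v
      · right
        by_contra hno
        apply hv
        rw [← hzv]
        exact ⟨hz, hno⟩
      · by_cases hzw : z = w
        · left
          by_contra hno
          apply hw
          rw [← hzw]
          exact ⟨hz, hno⟩
        · rcases ih with ih | ih
          · exact Or.inl (ih.tail hxz hzv)
          · exact Or.inr (ih.tail hxz hzw)
  rcases key with key | key
  · exact h1.2 key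
  · exact h2.2 key

private lemma DOM_conn {V : Type u} {G : SimpleGraph V} {r v y : V} (hy : y ∈ dom G r v) :
    Cn G (dom G r v) v y := by
  refine Cn.induct (p := fun z => z ∈ dom G r v → Cn G (dom G r v) v z) hy.1 ?_ ?_ hy
  · intro h
    rw [DOM_root h] at *
    exact Cn.refl h
  · intro x z _ hxz _ ih hz
    by_cases hx : x ∈ dom G r v
    · exact (ih hx).tail hxz hz
    · have hzv : z = v := by
        by_contra hne
        exact hx (DOM_bdry hz hne hxz.symm)
      rw [hzv] at hz ⊢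
      exact Cn.refl hz

private lemma DOM_conn_diff {V : Type u} {G : SimpleGraph V} {r v w y : V}
    (hw : w ∈ dom G r v) (hne : w ≠ v) (hy : y ∈ dom G r v) (hyw : y ∉ dom G r w) :
    Cn G (dom G r v \ dom G r w) v y := by
  have hvw : v ∉ dom G r w := fun h => hne (DOM_antisymm hw h).symm
  have hy' : Cn G {w}ᶜ r y := by
    by_contra hno
    exact hyw ⟨hy.1, hno⟩
  refine Cn.induct (p := fun z => z ∈ dom G r v → Cn G (dom G r v \ dom G r w) v z)
    hy' ?_ ?_ hy
  · intro h
    have hvr : v = r := DOM_root h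
    have : v ∈ dom G r v := hvr ▸ h
    have h2 : Cn G (dom G r v \ dom G r w) v v := Cn.refl ⟨this, hvw⟩
    exact hvr ▸ h2
  · intro x z hx hxz hzw ih hz
    have hzw' : z ∉ dom G r w := fun h => h.2 (hx.tail hxz hzw)
    by_cases hxv : x ∈ dom G r v
    · exact (ih hxv).tail hxz ⟨hz, hzw'⟩
    · have hzv : z = v := by
        by_contra hne'
        exact hxv (DOM_bdry hz hne' hxz.symm)
      rw [hzv] at hz hzw' ⊢
      exact Cn.refl ⟨hz, hzw'⟩

private lemma DOM_nbr {V : Type u} {G : SimpleGraph V} {r v w : V}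
    (hw : w ∈ dom G r v) (hne : w ≠ v) : ∃ p ∈ dom G r v, p ∉ dom G r w ∧ G.Adj p w := by
  have key : Cn G {w}ᶜ r w ∨ ∃ p, Cn G {w}ᶜ r p ∧ G.Adj p w := by
    refine Cn.induct (p := fun z => Cn G {w}ᶜ r z ∨ ∃ p, Cn G {w}ᶜ r p ∧ G.Adj p w)
      hw.1 ?_ ?_
    · left
      refine Cn.refl (fun h' : r = w => hne ?_)
      rw [← h'] at hw ⊢
      exact (DOM_root hw).symm
    · intro x z _ hxz _ ih
      rcases ih with ih | ih
      · by_cases hzw : z = w
        · rw [hzw] at hxz
          exact Or.inr ⟨x, ih, hxz⟩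
        · exact Or.inl (ih.tail hxz hzw)
      · exact Or.inr ih
  rcases key with key | ⟨p, hp, hpw⟩
  · exact absurd rfl key.right
  · exact ⟨p, DOM_bdry hw hne hpw.symm, fun h => h.2 hp, hpw⟩

/-- `w` is the end of a walk with `n` edges from `r`. -/
private def DOM_R {V : Type u} (G : SimpleGraph V) (r : V) : ℕ → V → Prop
  | 0, x => x = r
  | n + 1, y => ∃ x, DOM_R G r n x ∧ G.Adj x y

private lemma DOM_R_ex {V : Type u} {G : SimpleGraph V} {r w : V} (h : Cn G univ r w) :
    ∃ n, DOM_R G r n w := by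
  refine Cn.induct (p := fun z => ∃ n, DOM_R G r n z) h ⟨0, rfl⟩ ?_
  rintro x y _ hxy _ ⟨n, hn⟩
  exact ⟨n + 1, x, hn, hxy⟩

private lemma DOM_R_lt {V : Type u} {G : SimpleGraph V} {r z : V} :
    ∀ (n : ℕ) (w : V), DOM_R G r n w → w ∈ dom G r z → w ≠ z → ∃ m < n, DOM_R G r m z := by
  intro n
  induction n with
  | zero =>
    intro w hw hwz hne
    have hwr : w = r := hw
    rw [hwr] at hwz hne
    exact absurd (DOM_root hwz).symm hne
  | succ n ih =>
    rintro w ⟨x, hx, hxw⟩ hwz hne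
    have hxz : x ∈ dom G r z := DOM_bdry hwz hne hxw.symm
    by_cases hx' : x = z
    · rw [hx'] at hx
      exact ⟨n, Nat.lt_succ_self n, hx⟩
    · obtain ⟨m, hm, hm'⟩ := ih x hx hxz hx'
      exact ⟨m, Nat.lt_succ_of_lt hm, hm'⟩

private lemma DOM_child {V : Type u} {G : SimpleGraph V} {r v y : V} :
    ∀ (n : ℕ) (w : V), DOM_R G r n w → w ∈ dom G r v → w ≠ v → y ∈ dom G r w →
      ∃ w ∈ Ch G r v, y ∈ dom G r w := by
  intro n
  induction n using Nat.strong_induction_on with
  | _ n ih =>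
    intro w hn hw hne hy
    by_cases hch : ∀ z, z ∈ dom G r v → z ≠ v → w ∈ dom G r z → z = w
    · exact ⟨w, ⟨hw, hne, hch⟩, hy⟩
    · push Not at hch
      obtain ⟨z, hz, hzv, hwz, hzw⟩ := hch
      obtain ⟨m, hm, hm'⟩ := DOM_R_lt n w hn hwz hzw.symm
      exact ih m hm z hm' hz hzv (DOM_trans hy hwz)

private lemma DOM_child_unique {V : Type u} {G : SimpleGraph V} {r v w w' y : V}
    (hw : w ∈ Ch G r v) (hw' : w' ∈ Ch G r v) (hy : y ∈ dom G r w) (hy' : y ∈ dom G r w') :
    w = w' := by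
  rcases DOM_chain hy hy' with h | h
  · exact (hw.2.2 w' hw'.1 hw'.2.1 h).symm
  · exact hw'.2.2 w hw.1 hw.2.1 h

theorem dom_holds : DomFacts.{u} where
  self := fun _ _ _ h => DOM_self h
  root := fun _ _ _ h => DOM_root h
  bdry := fun _ _ _ _ _ h1 h2 h3 => DOM_bdry h1 h2 h3
  trans := fun _ _ _ _ _ h1 h2 => DOM_trans h1 h2
  antisymm := fun _ _ _ _ h1 h2 => DOM_antisymm h1 h2
  chain := fun _ _ _ _ _ h1 h2 => DOM_chain h1 h2
  conn := fun _ _ _ _ h => DOM_conn h
  conn_diff := fun _ _ _ _ _ h1 h2 h3 h4 => DOM_conn_diff h1 h2 h3 h4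
  nbr := fun _ _ _ _ h1 h2 => DOM_nbr h1 h2
  child := fun G r v y hy hne => by
    obtain ⟨n, hn⟩ := DOM_R_ex hy.1
    exact DOM_child n y hn hy hne (DOM_self hy.1)
  child_unique := fun _ _ _ _ _ _ h1 h2 h3 h4 => DOM_child_unique h1 h2 h3 h4

end Pool.MP_0d2ef4_co
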