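import Pool.Agent.Work.MP_0d2ef4_co.WQ.Arr

/-! Families: the statement on transfinite sequences gives the one on families. -/

namespace Pool.MP_0d2ef4_co

open Set

universe u v

/-- The type of the well ordering of the index type. -/
noncomputable def famLen {Q : Type v} (F : Fam.{u} Q) : Ordinal.{u} :=
  Ordinal.type (WellOrderingRel : F.I → F.I → Prop)

open Classical in
/-- A family as a transfinite sequence. -/
noncomputable def famSeq {Q : Type v} (q₀ : Q) (F : Fam.{u} Q) : TSeq.{u} Q where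
  len := famLen F
  val := fun o => if h : o < famLen F then
    F.x (Ordinal.enum (WellOrderingRel : F.I → F.I → Prop) ⟨o, h⟩) else q₀

lemma famSeq_val {Q : Type v} (q₀ : Q) (F : Fam.{u} Q) (o : Ordinal.{u}) (h : o < famLen F) :
    (famSeq q₀ F).val o = F.x (Ordinal.enum (WellOrderingRel : F.I → F.I → Prop) ⟨o, h⟩) := by
  simp [famSeq, h]

lemma famSeq_typein {Q : Type v} (q₀ : Q) (F : Fam.{u} Q) (i : F.I) :
    (famSeq q₀ F).val (Ordinal.typein (WellOrderingRel : F.I → F.I → Prop) i) = F.x i := by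
  rw [famSeq_val q₀ F _ (Ordinal.typein_lt_type _ i)]
  rw [Ordinal.enum_typein]

lemma fam_le_of_seq {Q : Type v} {le : Q → Q → Prop} (q₀ : Q) (F F' : Fam.{u} Q)
    (h : TSeq.le.{u} le (famSeq q₀ F) (famSeq q₀ F')) : Fam.le.{u} le F F' := by
  obtain ⟨g, hg1, hg2⟩ := h
  have hlt : ∀ i : F.I, Ordinal.typein (WellOrderingRel : F.I → F.I → Prop) i < famLen F :=
    fun i => Ordinal.typein_lt_type _ i
  have hg3 : ∀ i : F.I,
      g (Ordinal.typein (WellOrderingRel : F.I → F.I → Prop) i) < famLen F' :=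
    fun i => (hg2 _ (hlt i)).1
  refine ⟨fun i => Ordinal.enum (WellOrderingRel : F'.I → F'.I → Prop)
    ⟨g (Ordinal.typein (WellOrderingRel : F.I → F.I → Prop) i), hg3 i⟩, ?_, ?_⟩
  · intro i j hij
    have h1 : g (Ordinal.typein (WellOrderingRel : F.I → F.I → Prop) i) =
        g (Ordinal.typein (WellOrderingRel : F.I → F.I → Prop) j) := by
      have h2 := (Ordinal.enum (WellOrderingRel : F'.I → F'.I → Prop)).injective hij
      exact congrArg Subtype.val h2
    rcases lt_trichotomy (Ordinal.typein (WellOrderingRel : F.I → F.I → Prop) i)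
      (Ordinal.typein (WellOrderingRel : F.I → F.I → Prop) j) with h3 | h3 | h3
    · exact absurd h1 (hg1 _ _ h3 (hlt j)).ne
    · exact Ordinal.typein_injective _ h3
    · exact absurd h1 (hg1 _ _ h3 (hlt i)).ne'
  · intro i
    have h4 := (hg2 _ (hlt i)).2
    rw [famSeq_typein, famSeq_val q₀ F' _ (hg3 i)] at h4
    exact h4

/-- No bad arrays of families. -/
theorem fam_holds (h : TSeqStmt.{u, v}) : FamStmt.{u, v} := by
  intro Q le P A hNB B hBA hBi f hf hP
  by_cases hemp : ∃ X, X ⊆ B ∧ X.Infinite ∧ IsEmpty (f X).I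
  · obtain ⟨X, h1, h2, h3⟩ := hemp
    exact ⟨X, h1, h2, fun i => (h3.false i).elim, fun i => (h3.false i).elim,
      fun i => (h3.false i).elim⟩
  · have hne : Nonempty (f B).I := by
      by_contra hn
      exact hemp ⟨B, Subset.rfl, hBi, not_nonempty_iff.1 hn⟩
    obtain ⟨i₀⟩ := hne
    have h5 := h Q le P A hNB B hBA hBi (fun X => famSeq ((f B).x i₀) (f X))
      (hf.comp (famSeq ((f B).x i₀))) ?_
    · obtain ⟨X, h6, h7, h8⟩ := h5
      exact ⟨X, h6, h7, fam_le_of_seq _ _ _ h8⟩
    · intro X hX hXi o ho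
      have ho' : o < famLen (f X) := ho
      show P X ((famSeq ((f B).x i₀) (f X)).val o)
      rw [famSeq_val _ _ _ ho']
      exact hP X hX hXi _

end Pool.MP_0d2ef4_co
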