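import Pool.Agent.Work.MP_0d2ef4_co.WQ.Basic

/-! A chain of disjoint connected sets contains a ray. -/

namespace Pool.MP_0d2ef4_co

open Set

universe u

/-- State of the construction of the ray. -/
private def RaySt {V : Type u} (G : SimpleGraph V) (D : ℕ → Set V) (x : ℕ → V)
    (p : Set V × V) : Prop :=
  ∃ n, (∀ m, n < m → Disjoint p.1 (D m)) ∧ Cn G (D n \ p.1) p.2 (x n)

private lemma ray_step {V : Type u} (G : SimpleGraph V) (D : ℕ → Set V) (x e : ℕ → V)
    (hdis : ∀ m n, m < n → Disjoint (D m) (D n))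
    (hcon : ∀ n, ∀ a ∈ D n, ∀ b ∈ D n, Cn G (D n) a b)
    (hx : ∀ n, x n ∈ D n) (he : ∀ n, e n ∈ D (n + 1)) (hadj : ∀ n, G.Adj (x n) (e n))
    (p : Set V × V) (hp : RaySt G D x p) :
    ∃ q : Set V × V, RaySt G D x q ∧ q.1 = insert p.2 p.1 ∧ G.Adj p.2 q.2 := by
  obtain ⟨n, h1, h2⟩ := hp
  have ha : p.2 ∈ D n := h2.left.1
  by_cases hax : p.2 = x n
  · refine ⟨(insert p.2 p.1, e n), ⟨n + 1, ?_, ?_⟩, rfl, ?_⟩
    · intro m hm
      rw [Set.disjoint_insert_left]
      exact ⟨fun h => Set.disjoint_left.1 (hdis n m (by omega)) ha h, h1 m (by omega)⟩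
    · have hd : Disjoint (D (n + 1)) (insert p.2 p.1) := by
        rw [disjoint_comm, Set.disjoint_insert_left]
        exact ⟨fun h => Set.disjoint_left.1 (hdis n (n + 1) (by omega)) ha h, h1 _ (by omega)⟩
      show Cn G (D (n + 1) \ insert p.2 p.1) (e n) (x (n + 1))
      rw [hd.sdiff_eq_left]
      exact hcon (n + 1) _ (he n) _ (hx (n + 1))
    · show G.Adj p.2 (e n)
      rw [hax]; exact hadj n
  · obtain ⟨c, hc1, hc2⟩ := h2.last_exit hax
    refine ⟨(insert p.2 p.1, c), ⟨n, ?_, ?_⟩, rfl, hc1⟩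
    · intro m hm
      rw [Set.disjoint_insert_left]
      exact ⟨fun h => Set.disjoint_left.1 (hdis n m hm) ha h, h1 m hm⟩
    · show Cn G (D n \ insert p.2 p.1) c (x n)
      refine hc2.mono ?_
      rintro y ⟨⟨hy1, hy2⟩, hy3⟩
      refine ⟨hy1, ?_⟩
      rintro (hy4 | hy4)
      · exact hy3 hy4
      · exact hy2 hy4

/-- A chain of disjoint connected sets contains a ray. -/
theorem ray_holds : RayStmt.{u} := by
  intro V G U D hDU hdis hcon hadj hray
  choose x hx e he hadj using hadj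
  have h0 : RaySt G D x (∅, x 0) :=
    ⟨0, fun m _ => Set.empty_disjoint _, Cn.refl ⟨hx 0, fun h => h⟩⟩
  have hstep := ray_step G D x e hdis hcon hx he hadj
  choose! nx hnx using hstep
  let s : ℕ → {p : Set V × V // RaySt G D x p} := fun n =>
    Nat.rec ⟨(∅, x 0), h0⟩ (fun _ p => ⟨nx p.1, (hnx p.1 p.2).1⟩) n
  have hs1 : ∀ n, (s (n + 1)).1.1 = insert (s n).1.2 (s n).1.1 := fun n =>
    (hnx (s n).1 (s n).2).2.1
  have hs2 : ∀ n, G.Adj (s n).1.2 (s (n + 1)).1.2 := fun n => (hnx (s n).1 (s n).2).2.2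
  have hs3 : ∀ n, (s n).1.2 ∉ (s n).1.1 := by
    intro n
    obtain ⟨k, _, h⟩ := (s n).2
    exact h.left.2
  have hs4 : ∀ n, (s n).1.2 ∈ U := by
    intro n
    obtain ⟨k, _, h⟩ := (s n).2
    exact hDU k h.left.1
  have hs5 : ∀ j k, j < k → (s j).1.2 ∈ (s k).1.1 := by
    intro j k hjk
    induction k, hjk using Nat.le_induction with
    | base => rw [hs1]; exact Set.mem_insert _ _
    | succ k hk ih => rw [hs1]; exact Set.mem_insert_of_mem _ ih
  refine hray ⟨fun n => (s n).1.2, ?_, hs4, hs2⟩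
  intro j k hjk
  simp only at hjk
  rcases lt_trichotomy j k with h | h | h
  · exact absurd (hjk ▸ hs5 j k h) (hs3 k)
  · exact h
  · exact absurd (hjk ▸ hs5 k j h) (hs3 j)

end Pool.MP_0d2ef4_co
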