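import Pool.Agent.Work.MP_0d2ef4_co.WQ.Arr

/-! Transfinite sequences: the theorem of Nash-Williams from the minimal bad
array lemma. -/

namespace Pool.MP_0d2ef4_co

open Set

universe u v

section

variable {Q : Type v} (le : Q → Q → Prop)

/-- The strict initial segment relation. -/
private def tseqLt (a b : TSeq.{u} Q) : Prop :=
  a.len < b.len ∧ ∀ i, i < a.len → a.val i = b.val i

private lemma tseqLt_wf : WellFounded (tseqLt : TSeq.{u} Q → TSeq.{u} Q → Prop) :=
  Subrelation.wf (r := InvImage (· < ·) TSeq.len) (fun h => h.1)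
    (InvImage.wf _ Ordinal.lt_wf)

/-- The least length at which a cut of `a` does not embed. -/
private noncomputable def tseqBet (a b : TSeq.{u} Q) : Ordinal.{u} :=
  sInf {β : Ordinal.{u} | ¬ TSeq.le le ⟨β, a.val⟩ b}

private lemma tseqBet_le {a b : TSeq.{u} Q} (h : ¬ TSeq.le le a b) : tseqBet le a b ≤ a.len :=
  csInf_le (OrderBot.bddBelow _) h

private lemma tseqBet_spec {a b : TSeq.{u} Q} (h : ¬ TSeq.le le a b) :
    ¬ TSeq.le le ⟨tseqBet le a b, a.val⟩ b :=
  csInf_mem (s := {β : Ordinal.{u} | ¬ TSeq.le le ⟨β, a.val⟩ b}) ⟨a.len, h⟩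

private lemma tseqBet_lt {a b : TSeq.{u} Q} {γ : Ordinal.{u}} (h : γ < tseqBet le a b) :
    TSeq.le le ⟨γ, a.val⟩ b := by
  by_contra hcon
  exact absurd (csInf_le (OrderBot.bddBelow _)
    (show γ ∈ {β : Ordinal.{u} | ¬ TSeq.le le ⟨β, a.val⟩ b} from hcon)) (not_le.2 h)

/-- The set of admissible values at `i` given the earlier values. -/
private def tseqAdm (a b : TSeq.{u} Q) (i : Ordinal.{u})
    (f : ∀ i', i' < i → Ordinal.{u}) : Set Ordinal.{u} :=
  {j | (∀ i' (h : i' < i), f i' h < j) ∧ j < b.len ∧ le (a.val i) (b.val j)}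

/-- The greedy embedding. -/
private noncomputable def tseqGr (a b : TSeq.{u} Q) : Ordinal.{u} → Ordinal.{u} :=
  Ordinal.lt_wf.fix fun i f => sInf (tseqAdm le a b i f)

private lemma tseqGr_eq (a b : TSeq.{u} Q) (i : Ordinal.{u}) :
    tseqGr le a b i = sInf (tseqAdm le a b i (fun i' _ => tseqGr le a b i')) := by
  unfold tseqGr
  rw [WellFounded.fix_eq]

private lemma tseqGr_le {a b : TSeq.{u} Q} {γ : Ordinal.{u}} {h : Ordinal.{u} → Ordinal.{u}}
    (h1 : ∀ i j, i < j → j < γ → h i < h j)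
    (h2 : ∀ i, i < γ → h i < b.len ∧ le (a.val i) (b.val (h i))) :
    ∀ i, i < γ → tseqGr le a b i ≤ h i ∧
      tseqGr le a b i ∈ tseqAdm le a b i (fun i' _ => tseqGr le a b i') := by
  intro i
  induction i using WellFoundedLT.induction with
  | _ i ih =>
    intro hi
    have hmem : h i ∈ tseqAdm le a b i (fun i' _ => tseqGr le a b i') := by
      refine ⟨fun i' hi' => ?_, (h2 i hi).1, (h2 i hi).2⟩
      exact lt_of_le_of_lt (ih i' hi' (hi'.trans hi)).1 (h1 i' i hi' hi)
    rw [tseqGr_eq le a b i]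
    exact ⟨csInf_le (OrderBot.bddBelow _) hmem, csInf_mem ⟨_, hmem⟩⟩

private lemma tseqBet_succ {a b : TSeq.{u} Q} (h : ¬ TSeq.le le a b) :
    ∃ γ, tseqBet le a b = Order.succ γ := by
  have hs := tseqBet_spec le h
  rcases Ordinal.zero_or_succ_or_isSuccLimit (tseqBet le a b) with h0 | ⟨γ, h0⟩ | h0
  · exfalso
    apply hs
    refine ⟨fun i => i, fun i j _ hj => ?_, fun i hi => ?_⟩
    · rw [h0] at hj
      exact absurd hj (not_lt.2 zero_le)
    · rw [h0] at hi
      exact absurd hi (not_lt.2 zero_le)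
  · exact ⟨γ, h0.symm⟩
  · exfalso
    apply hs
    have key : ∀ i, i < tseqBet le a b →
        tseqGr le a b i ∈ tseqAdm le a b i (fun i' _ => tseqGr le a b i') := by
      intro i hi
      obtain ⟨f, hf1, hf2⟩ := tseqBet_lt le (h0.succ_lt hi)
      exact (tseqGr_le le hf1 hf2 i (Order.lt_succ i)).2
    refine ⟨tseqGr le a b, fun i j hij hj => ?_, fun i hi => ?_⟩
    · exact (key j hj).1 i hij
    · exact (key i hi).2

end

theorem tseq_holds (hm : MBAStmt.{max v (u+1)}) : TSeqStmt.{u,v} := by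
  intro Q le P A hA
  by_contra hcon
  obtain ⟨B, hBA, hB, g, hg, hgP, hgbad, hgNB⟩ := hm (TSeq.{u} Q) (TSeq.le le) tseqLt tseqLt_wf
    (fun a b c h1 h2 => ⟨h1.1.trans h2.1, fun i hi =>
      (h1.2 i hi).trans (h2.2 i (hi.trans h1.1))⟩)
    (by
      rintro a b c ⟨h, h1, h2⟩ h3
      refine ⟨h, h1, fun i hi => ⟨(h2 i hi).1.trans h3.1, ?_⟩⟩
      rw [← h3.2 _ (h2 i hi).1]
      exact (h2 i hi).2)
    (fun X a => ∀ i, i < a.len → P X (a.val i))
    (by
      intro X a b h1 h2 i hi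
      rw [h2.2 i hi]
      exact h1 i (hi.trans h2.1))
    A hcon
  have hcut : IsArr (fun X => (⟨tseqBet le (g X) (g (tl X)), (g X).val⟩ : TSeq.{u} Q)) :=
    hg.map₂ (fun a b => (⟨tseqBet le a b, a.val⟩ : TSeq.{u} Q))
  obtain ⟨C, hCB, hC, hC3⟩ := gp_pred
    (p := fun X => tseqBet le (g X) (g (tl X)) = (g X).len)
    (hg.measurableSet_rel hg.tail (fun a b => tseqBet le a b = a.len)) hB
  have hCl : ∀ X, X ⊆ C → X.Infinite → tseqBet le (g X) (g (tl X)) = (g X).len := by
    rcases hC3 with h | h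
    · exact h
    · exfalso
      obtain ⟨X, hXC, hX, f, hf1, hf2⟩ := hgNB C hCB hC _ hcut (by
        intro X hXC hX
        exact ⟨lt_of_le_of_ne (tseqBet_le le (hgbad X (hXC.trans hCB) hX)) (h X hXC hX),
          fun _ _ => rfl⟩)
      apply tseqBet_spec le (hgbad X (hXC.trans hCB) hX)
      refine ⟨f, hf1, fun i hi => ⟨?_, (hf2 i hi).2⟩⟩
      exact lt_of_lt_of_le (hf2 i hi).1
        (tseqBet_le le (hgbad (tl X) (((tl_subset X).trans hXC).trans hCB) (tl_infinite hX)))
  have hlen : ∀ X, X ⊆ C → X.Infinite → ∃ γ, (g X).len = Order.succ γ := by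
    intro X hXC hX
    obtain ⟨γ, hγ⟩ := tseqBet_succ le (hgbad X (hXC.trans hCB) hX)
    exact ⟨γ, by rw [← hCl X hXC hX, hγ]⟩
  classical
  let pr : Ordinal.{u} → Ordinal.{u} := fun o =>
    if h : ∃ γ, o = Order.succ γ then h.choose else 0
  have hpr : ∀ X, X ⊆ C → X.Infinite → (g X).len = Order.succ (pr (g X).len) := by
    intro X hXC hX
    have h := hlen X hXC hX
    simp only [pr, dif_pos h]
    exact h.choose_spec
  have hprlt : ∀ X, X ⊆ C → X.Infinite → pr (g X).len < (g X).len := by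
    intro X hXC hX
    conv_rhs => rw [hpr X hXC hX]
    exact Order.lt_succ _
  obtain ⟨D, hDC, hD, hDp⟩ := hgNB.perfect (f := fun X => (⟨pr (g X).len, (g X).val⟩ : TSeq.{u} Q))
    hCB hC (hg.comp (fun a => (⟨pr a.len, a.val⟩ : TSeq.{u} Q)))
    (fun X hXC hX => ⟨hprlt X hXC hX, fun _ _ => rfl⟩)
  obtain ⟨E, hED, hE, hEp⟩ := hA.perfect (f := fun X => (g X).val (pr (g X).len))
    (((hDC).trans hCB).trans hBA) hD (hg.comp (fun a => a.val (pr a.len)))
    (fun X hXD hX => hgP X ((hXD.trans hDC).trans hCB) hX _ (hprlt X (hXD.trans hDC) hX))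
  obtain ⟨f, hf1, hf2⟩ := hDp E hED hE
  have hq := hEp E Subset.rfl hE
  have hEC : E ⊆ C := hED.trans hDC
  have htC : tl E ⊆ C := (tl_subset E).trans hEC
  apply hgbad E (hEC.trans hCB) hE
  refine ⟨fun i => if i < pr (g E).len then f i else pr (g (tl E)).len, ?_, ?_⟩
  · intro i j hij hj
    have hj' : j ≤ pr (g E).len := by
      rw [hpr E hEC hE] at hj
      exact Order.lt_succ_iff.1 hj
    rcases lt_or_eq_of_le hj' with h | h
    · simp only [h, hij.trans h, if_true]
      exact hf1 i j hij h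
    · have hi : i < pr (g E).len := h ▸ hij
      have hnj : ¬ j < pr (g E).len := by rw [h]; exact lt_irrefl _
      simp only [hi, if_true, hnj, if_false]
      exact (hf2 i hi).1
  · intro i hi
    have hi' : i ≤ pr (g E).len := by
      rw [hpr E hEC hE] at hi
      exact Order.lt_succ_iff.1 hi
    rcases lt_or_eq_of_le hi' with h | h
    · simp only [h, if_true]
      exact ⟨(hf2 i h).1.trans (hprlt (tl E) htC (tl_infinite hE)), (hf2 i h).2⟩
    · have hni : ¬ i < pr (g E).len := by rw [h]; exact lt_irrefl _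
      simp only [hni, if_false]
      refine ⟨hprlt (tl E) htC (tl_infinite hE), ?_⟩
      rw [h]
      exact hq

end Pool.MP_0d2ef4_co
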