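import Pool.Agent.Work.MP_0d2ef4_co.WQ.Basic

/-! The children of one component form with the root a two-connected set. -/

namespace Pool.MP_0d2ef4_co

open Set

universe u

private lemma TWO_self {V : Type u} (hd : DomFacts.{u}) (G : SimpleGraph V) (r v y : V)
    (h : y ∈ dom G r v) : y ∈ dom G r y := hd.self G r y h.1

/-- A walk in the graph dominated by the root gives a walk of children. -/
private lemma TWO_walk {V : Type u} (hd : DomFacts.{u}) (G : SimpleGraph V) (r v c : V)
    (D : Set V) (hD : D ⊆ dom G r v \ {v}) (w' : V) (hw' : w' ∈ cmp G (Ch G r v) c)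
    (hw'D : w' ∈ D) (x : V) (hx : Cn G D x w') :
    ∀ t ∈ Ch G r v, x ∈ dom G r t → Cn G (cmp G (Ch G r v) c ∩ D) t w' := by
  refine Cn.induct_head (p := fun x => ∀ t ∈ Ch G r v, x ∈ dom G r t →
    Cn G (cmp G (Ch G r v) c ∩ D) t w') hx ?_ ?_
  · intro t ht hw't
    have h1 : w' ∈ Ch G r v := cmp_subset hw'
    have h2 : t = w' := hd.child_unique G r v t w' w' ht h1 hw't (TWO_self hd G r v w' h1.1)
    rw [h2]
    exact Cn.refl ⟨hw', hw'D⟩
  · intro x y hxD hxy hyw hp t ht hxt
    have hyD : y ∈ D := hyw.left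
    obtain ⟨hyv, hyne⟩ := hD hyD
    obtain ⟨t', ht', hyt'⟩ := hd.child G r v y hyv hyne
    have h1 := hp t' ht' hyt'
    by_cases hxt0 : x = t
    · by_cases hyt0 : y = t'
      · subst hxt0; subst hyt0
        have h2 : y ∈ cmp G (Ch G r v) c := h1.left.1
        have h3 : x ∈ cmp G (Ch G r v) c := cmp_closed h2 hxy.symm ht
        have h4 : x ∈ cmp G (Ch G r v) c ∩ D := ⟨h3, hxD⟩
        exact (Cn.of_adj h4 h1.left hxy).trans h1
      · have h2 : x ∈ dom G r t' := hd.bdry G r t' y x hyt' hyt0 hxy.symm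
        have h3 : t = t' := hd.child_unique G r v t t' x ht ht' hxt h2
        rw [h3]; exact h1
    · have h2 : y ∈ dom G r t := hd.bdry G r t x y hxt hxt0 hxy
      have h3 : t = t' := hd.child_unique G r v t t' y ht ht' h2 hyt'
      rw [h3]; exact h1

/-- From the root to a child, inside `D`. -/
private lemma TWO_root {V : Type u} (hd : DomFacts.{u}) (G : SimpleGraph V) (r v c : V)
    (D : Set V) (hD : D ⊆ dom G r v) (w' : V) (hw' : w' ∈ cmp G (Ch G r v) c)
    (hx : Cn G D v w') :
    Cn G (insert v (cmp G (Ch G r v) c ∩ D)) v w' := by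
  have hw1 : w' ∈ Ch G r v := cmp_subset hw'
  have hne : v ≠ w' := fun h => hw1.2.1 h.symm
  obtain ⟨c0, hc0, hc1⟩ := Cn.last_exit hx hne
  have hD' : D \ {v} ⊆ dom G r v \ {v} := fun z hz => ⟨hD hz.1, hz.2⟩
  have hc0D := hD' hc1.left
  obtain ⟨t, ht, hct⟩ := hd.child G r v c0 hc0D.1 hc0D.2
  have hc0t : c0 = t := by
    by_contra hne0
    have h1 : v ∈ dom G r t := hd.bdry G r t c0 v hct hne0 hc0.symm
    exact ht.2.1 (hd.antisymm G r v t ht.1 h1).symm
  have h1 := TWO_walk hd G r v c (D \ {v}) hD' w' hw' hc1.right c0 hc1 t ht hct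
  rw [← hc0t] at h1
  have h2 : Cn G (insert v (cmp G (Ch G r v) c ∩ D)) c0 w' :=
    h1.mono fun z hz => Or.inr ⟨hz.1, hz.2.1⟩
  exact (Cn.of_adj (mem_insert _ _) h2.left hc0).trans h2

theorem twocon_holds (hd : DomFacts.{u}) : TwoConStmt.{u} := by
  intro V G r v c hc
  have hvC : v ∉ cmp G (Ch G r v) c := fun h => (cmp_subset h).2.1 rfl
  have hvS : v ∈ insert v (cmp G (Ch G r v) c) := mem_insert _ _
  refine ⟨⟨v, hvS⟩, ?_, ?_⟩
  · have key : ∀ a ∈ insert v (cmp G (Ch G r v) c),
        Cn G (insert v (cmp G (Ch G r v) c)) v a := by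
      intro a ha
      rcases ha with rfl | ha
      · exact Cn.refl hvS
      · have h1 : a ∈ Ch G r v := cmp_subset ha
        have h2 := TWO_root hd G r v c (dom G r v) (Subset.refl _) a ha
          (hd.conn G r v a h1.1)
        exact h2.mono (insert_subset_insert inter_subset_left)
    intro a ha b hb
    exact (key a ha).symm.trans (key b hb)
  · intro w hw a ha b hb
    rcases hw with rfl | hw
    · have h1 : a ∈ cmp G (Ch G r w) c := ha.1.resolve_left ha.2
      have h2 : b ∈ cmp G (Ch G r w) c := hb.1.resolve_left hb.2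
      exact (cmp_conn h1 h2).mono fun z hz => ⟨Or.inr hz, fun h => hvC (h ▸ hz)⟩
    · have hwCh : w ∈ Ch G r v := cmp_subset hw
      have hwv : w ≠ v := hwCh.2.1
      have key : ∀ a ∈ insert v (cmp G (Ch G r v) c) \ {w},
          Cn G (insert v (cmp G (Ch G r v) c) \ {w}) v a := by
        rintro a ⟨ha, haw⟩
        rcases ha with rfl | ha
        · exact Cn.refl ⟨hvS, haw⟩
        · have h1 : a ∈ Ch G r v := cmp_subset ha
          have h2 : a ∉ dom G r w := fun h => haw (h1.2.2 w hwCh.1 hwv h).symm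
          have h3 := hd.conn_diff G r v w a hwCh.1 hwv h1.1 h2
          have h4 := TWO_root hd G r v c (dom G r v \ dom G r w) sdiff_subset a ha h3
          refine h4.mono ?_
          rintro z (rfl | hz)
          · exact ⟨hvS, fun h => hwv h.symm⟩
          · refine ⟨Or.inr hz.1, fun h => hz.2.2 ?_⟩
            rw [h]; exact TWO_self hd G r v w hwCh.1
      exact (key a ha).symm.trans (key b hb)

end Pool.MP_0d2ef4_co
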