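import Mathlib

/-! Definitions for the theorem that rayless graphs whose blocks are cographs up
to `k` vertices are better-quasi-ordered under the minor relation. -/

namespace Pool.MP_0d2ef4_co

open Set

universe u v

/-! ### Arrays and bad arrays -/

/-- A set of natural numbers without its least element. -/
def tl (X : Set ℕ) : Set ℕ := X \ {sInf X}

/-- Arrays: functions with countable range and Borel fibres. -/
def IsArr {Q : Type*} (f : Set ℕ → Q) : Prop :=
  (range f).Countable ∧ ∀ q, MeasurableSet (f ⁻¹' {q})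

/-- No array on an infinite subset of `A` with values in `P` is bad. -/
def NB {Q : Type*} (le : Q → Q → Prop) (P : Set ℕ → Q → Prop) (A : Set ℕ) : Prop :=
  ∀ B, B ⊆ A → B.Infinite → ∀ f : Set ℕ → Q, IsArr f →
    (∀ X, X ⊆ B → X.Infinite → P X (f X)) →
    ∃ X, X ⊆ B ∧ X.Infinite ∧ le (f X) (f (tl X))

/-- The minimal bad array lemma. -/
def MBAStmt : Prop :=
  ∀ (Q : Type v) (le lt : Q → Q → Prop), WellFounded lt →
    (∀ a b c, lt a b → lt b c → lt a c) →
    (∀ a b c, le a b → lt b c → le a c) →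
    ∀ (P : Set ℕ → Q → Prop), (∀ X a b, P X b → lt a b → P X a) →
    ∀ A : Set ℕ, ¬ NB le P A →
    ∃ B, B ⊆ A ∧ B.Infinite ∧ ∃ g : Set ℕ → Q, IsArr g ∧
      (∀ X, X ⊆ B → X.Infinite → P X (g X)) ∧
      (∀ X, X ⊆ B → X.Infinite → ¬ le (g X) (g (tl X))) ∧
      NB le (fun X q => lt q (g X)) B

/-! ### Transfinite sequences and families -/

/-- Transfinite sequences (only the values below `len` matter). -/
structure TSeq (Q : Type v) where
  len : Ordinal.{u}
  val : Ordinal.{u} → Q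

/-- Embedding of transfinite sequences. -/
def TSeq.le {Q : Type v} (le : Q → Q → Prop) (a b : TSeq.{u} Q) : Prop :=
  ∃ h : Ordinal.{u} → Ordinal.{u}, (∀ i j, i < j → j < a.len → h i < h j) ∧
    ∀ i, i < a.len → h i < b.len ∧ le (a.val i) (b.val (h i))

/-- Families of elements. -/
structure Fam (Q : Type v) where
  I : Type u
  x : I → Q

/-- Domination of families by an injection of the index types. -/
def Fam.le {Q : Type v} (le : Q → Q → Prop) (F F' : Fam.{u} Q) : Prop :=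
  ∃ σ : F.I → F'.I, Function.Injective σ ∧ ∀ i, le (F.x i) (F'.x (σ i))

def TSeqStmt : Prop :=
  ∀ (Q : Type v) (le : Q → Q → Prop) (P : Set ℕ → Q → Prop) (A : Set ℕ), NB le P A →
    NB (TSeq.le.{u} le) (fun X a => ∀ i, i < a.len → P X (a.val i)) A

def FamStmt : Prop :=
  ∀ (Q : Type v) (le : Q → Q → Prop) (P : Set ℕ → Q → Prop) (A : Set ℕ), NB le P A →
    NB (Fam.le.{u} le) (fun X F => ∀ i, P X (F.x i)) A

/-! ### Graphs -/

section graph

variable {V : Type u}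

/-- `b` can be reached from `a` inside `S`. -/
def Cn (G : SimpleGraph V) (S : Set V) (a b : V) : Prop :=
  a ∈ S ∧ Relation.ReflTransGen (fun x y => G.Adj x y ∧ y ∈ S) a b

/-- No ray of `G` lies in `S`. -/
def RaylessOn (G : SimpleGraph V) (S : Set V) : Prop :=
  ¬ ∃ f : ℕ → V, Function.Injective f ∧ (∀ n, f n ∈ S) ∧ ∀ n, G.Adj (f n) (f (n + 1))

/-- No induced path on four vertices of `G` lies in `S`. -/
def P4FreeOn (G : SimpleGraph V) (S : Set V) : Prop :=
  ∀ a b c d, a ∈ S → b ∈ S → c ∈ S → d ∈ S → G.Adj a b → G.Adj b c → G.Adj c d →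
    ¬ G.Adj a c → ¬ G.Adj b d → ¬ G.Adj a d → False

/-- `S` induces a connected subgraph that stays connected when any one vertex is
deleted. -/
def TwoCon (G : SimpleGraph V) (S : Set V) : Prop :=
  S.Nonempty ∧ (∀ a ∈ S, ∀ b ∈ S, Cn G S a b) ∧
    ∀ w ∈ S, ∀ a ∈ S \ {w}, ∀ b ∈ S \ {w}, Cn G (S \ {w}) a b

/-- Every two-connected set becomes free of induced four vertex paths after the
deletion of at most `k` vertices. -/
def Cls (k : ℕ) (G : SimpleGraph V) : Prop :=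
  ∀ S, TwoCon G S → ∃ F : Finset V, F.card ≤ k ∧ P4FreeOn G (S \ ↑F)

/-- The vertices all of whose paths from `r` pass through `v`. -/
def dom (G : SimpleGraph V) (r v : V) : Set V :=
  {y | Cn G univ r y ∧ ¬ Cn G {v}ᶜ r y}

/-- The vertices immediately dominated by `v`. -/
def Ch (G : SimpleGraph V) (r v : V) : Set V :=
  {w | w ∈ dom G r v ∧ w ≠ v ∧ ∀ z, z ∈ dom G r v → z ≠ v → w ∈ dom G r z → z = w}

/-- The component of `a` in the subgraph induced by `S`. -/
def cmp (G : SimpleGraph V) (S : Set V) (a : V) : Set V := {b | Cn G S a b}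

/-- `S'` is a proper component of `S` or one side of a join. -/
def PartOn (G : SimpleGraph V) (S' S : Set V) : Prop :=
  S' ⊆ S ∧ S'.Nonempty ∧ S' ≠ S ∧
    ((∃ a ∈ S, S' = cmp G S a) ∨ ∀ a ∈ S', ∀ b ∈ S \ S', G.Adj a b)

end graph

/-! ### Labelled graphs -/

/-- A graph with a set of vertices and labels. -/
structure CS (L : Type v) where
  W : Type u
  H : SimpleGraph W
  S : Set W
  lab : W → L

/-- Label increasing embedding of subgraphs. -/
def CS.le {L : Type v} (leL : L → L → Prop) (x y : CS.{u} L) : Prop :=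
  ∃ φ : x.W → y.W, InjOn φ x.S ∧ MapsTo φ x.S y.S ∧
    (∀ a ∈ x.S, ∀ b ∈ x.S, x.H.Adj a b → y.H.Adj (φ a) (φ b)) ∧
    ∀ a ∈ x.S, leL (x.lab a) (y.lab (φ a))

def CSStmt : Prop :=
  ∀ (L : Type v) (leL : L → L → Prop) (P : Set ℕ → L → Prop) (A : Set ℕ), NB leL P A →
    NB (CS.le.{u} leL) (fun X c => Nonempty c.W ∧ RaylessOn c.H c.S ∧ P4FreeOn c.H c.S ∧
      ∀ w ∈ c.S, P X (c.lab w)) A

/-! ### Rooted graphs -/

/-- The graph induced by `dom G r v`, rooted at `v`. -/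
structure RG where
  V : Type u
  G : SimpleGraph V
  r : V
  v : V

/-- Rooted minors. -/
def RMin (x y : RG.{u}) : Prop :=
  ∃ M : x.V → Set y.V,
    (∀ a ∈ dom x.G x.r x.v, M a ⊆ dom y.G y.r y.v ∧ (M a).Nonempty ∧
      ∀ p ∈ M a, ∀ q ∈ M a, Cn y.G (M a) p q) ∧
    (∀ a ∈ dom x.G x.r x.v, ∀ b ∈ dom x.G x.r x.v, a ≠ b → Disjoint (M a) (M b)) ∧
    (∀ a ∈ dom x.G x.r x.v, ∀ b ∈ dom x.G x.r x.v, x.G.Adj a b →
      ∃ p ∈ M a, ∃ q ∈ M b, y.G.Adj p q) ∧
    y.v ∈ M x.v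

/-- Strict domination. -/
def RG.lt (x y : RG.{u}) : Prop :=
  ∃ w, x = ⟨y.V, y.G, y.r, w⟩ ∧ w ∈ dom y.G y.r y.v ∧ w ≠ y.v ∧ RaylessOn y.G univ

/-- A rooted graph with a set `C` of further vertices of a block at the root. -/
structure BS where
  V : Type u
  G : SimpleGraph V
  r : V
  v : V
  C : Set V

/-- Embeddings of blocks that respect the roots and the rooted graphs at the
other vertices. -/
def BS.le (x y : BS.{u}) : Prop :=
  ∃ φ : x.V → y.V, InjOn φ (insert x.v x.C) ∧ MapsTo φ x.C y.C ∧ φ x.v = y.v ∧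
    (∀ a ∈ insert x.v x.C, ∀ b ∈ insert x.v x.C, x.G.Adj a b → y.G.Adj (φ a) (φ b)) ∧
    ∀ a ∈ x.C, RMin ⟨x.V, x.G, x.r, a⟩ ⟨y.V, y.G, y.r, φ a⟩

def BSStmt : Prop :=
  ∀ (k : ℕ) (P : Set ℕ → RG.{u} → Prop) (A : Set ℕ), NB RMin P A →
    NB BS.le.{u} (fun X b => b.v ∉ b.C ∧ RaylessOn b.G univ ∧
      (∃ F : Finset b.V, F.card ≤ k ∧ P4FreeOn b.G (insert b.v b.C \ ↑F)) ∧
      ∀ w ∈ b.C, P X ⟨b.V, b.G, b.r, w⟩) A

/-- The family of the blocks at the root. -/
def RG.fam (x : RG.{u}) : Fam.{u} BS.{u} where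
  I := {C : Set x.V // ∃ c ∈ Ch x.G x.r x.v, C = cmp x.G (Ch x.G x.r x.v) c}
  x := fun C => ⟨x.V, x.G, x.r, x.v, C.1⟩

/-- Gluing: an injection of the blocks gives a rooted minor. -/
def GlueStmt : Prop :=
  ∀ x y : RG.{u}, Cn x.G univ x.r x.v → Cn y.G univ y.r y.v →
    Fam.le BS.le x.fam y.fam → RMin x y

def RGStmt : Prop :=
  ∀ k : ℕ, NB RMin.{u} (fun _ x => Cn x.G univ x.r x.v ∧ RaylessOn x.G univ ∧ Cls k x.G) univ

/-! ### Statements of the parts -/

/-- A chain of disjoint connected sets contains a ray. -/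
def RayStmt : Prop :=
  ∀ (V : Type u) (G : SimpleGraph V) (U : Set V) (D : ℕ → Set V), (∀ n, D n ⊆ U) →
    (∀ m n, m < n → Disjoint (D m) (D n)) →
    (∀ n, ∀ a ∈ D n, ∀ b ∈ D n, Cn G (D n) a b) →
    (∀ n, ∃ a ∈ D n, ∃ b ∈ D (n + 1), G.Adj a b) → ¬ RaylessOn G U

/-- A connected rayless set without induced path on four vertices is a join. -/
def SeinStmt : Prop :=
  ∀ (V : Type u) (G : SimpleGraph V) (S : Set V), RaylessOn G S → P4FreeOn G S →
    (∀ a ∈ S, ∀ b ∈ S, Cn G S a b) → ∀ x ∈ S, (∃ y ∈ S, y ≠ x) →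
    ∃ S', S' ⊆ S ∧ S'.Nonempty ∧ S' ≠ S ∧ ∀ a ∈ S', ∀ b ∈ S \ S', G.Adj a b

/-- Parts are well founded in rayless sets. -/
def PartStmt : Prop :=
  ∀ (V : Type u) (G : SimpleGraph V) (S : ℕ → Set V), RaylessOn G (S 0) →
    ¬ ∀ n, PartOn G (S (n + 1)) (S n)

/-- Basic facts on domination. -/
structure DomFacts : Prop where
  self : ∀ {V : Type u} (G : SimpleGraph V) (r v : V), Cn G univ r v → v ∈ dom G r v
  root : ∀ {V : Type u} (G : SimpleGraph V) (r v : V), r ∈ dom G r v → v = r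
  bdry : ∀ {V : Type u} (G : SimpleGraph V) (r w y z : V), y ∈ dom G r w → y ≠ w →
    G.Adj y z → z ∈ dom G r w
  trans : ∀ {V : Type u} (G : SimpleGraph V) (r v w y : V), y ∈ dom G r w →
    w ∈ dom G r v → y ∈ dom G r v
  antisymm : ∀ {V : Type u} (G : SimpleGraph V) (r v w : V), w ∈ dom G r v →
    v ∈ dom G r w → v = w
  chain : ∀ {V : Type u} (G : SimpleGraph V) (r v w y : V), y ∈ dom G r v →
    y ∈ dom G r w → v ∈ dom G r w ∨ w ∈ dom G r v
  conn : ∀ {V : Type u} (G : SimpleGraph V) (r v y : V), y ∈ dom G r v →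
    Cn G (dom G r v) v y
  conn_diff : ∀ {V : Type u} (G : SimpleGraph V) (r v w y : V), w ∈ dom G r v → w ≠ v →
    y ∈ dom G r v → y ∉ dom G r w → Cn G (dom G r v \ dom G r w) v y
  nbr : ∀ {V : Type u} (G : SimpleGraph V) (r v w : V), w ∈ dom G r v → w ≠ v →
    ∃ p ∈ dom G r v, p ∉ dom G r w ∧ G.Adj p w
  child : ∀ {V : Type u} (G : SimpleGraph V) (r v y : V), y ∈ dom G r v → y ≠ v →
    ∃ w ∈ Ch G r v, y ∈ dom G r w
  child_unique : ∀ {V : Type u} (G : SimpleGraph V) (r v w w' y : V), w ∈ Ch G r v →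
    w' ∈ Ch G r v → y ∈ dom G r w → y ∈ dom G r w' → w = w'

/-- The children in one component form with the root a two-connected set. -/
def TwoConStmt : Prop :=
  ∀ (V : Type u) (G : SimpleGraph V) (r v c : V), c ∈ Ch G r v →
    TwoCon G (insert v (cmp G (Ch G r v) c))

/-- Facts on strict domination of rooted graphs. -/
structure LtFacts : Prop where
  wf : WellFounded RG.lt.{u}
  trans : ∀ a b c : RG.{u}, RG.lt a b → RG.lt b c → RG.lt a c
  le : ∀ a b c : RG.{u}, RMin a b → RG.lt b c → RMin a c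

end Pool.MP_0d2ef4_co
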