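import Pool.Agent.Work.MP_0d2ef4_co.WQ.Basic
import Pool.Agent.Work.MP_0d2ef4_co.WQ.Arr
import Pool.Agent.Work.MP_0d2ef4_co.WQ.Defs2

/-! Blocks at the root: from labelled sets with a coloured decomposition to
blocks with a coloured decomposition. -/

namespace Pool.MP_0d2ef4_co

open Set

universe u v

/-- A colouring of a block with a coloured decomposition. -/
private noncomputable def bs2Col {m : ℕ} (d : Fin m) (b : BS.{u}) : b.V → Fin m := by
  classical
  exact if h : ∃ c : b.V → Fin m, Dec b.G c (insert b.v b.C) then h.choose else fun _ => d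

private lemma bs2Col_dec {m : ℕ} (d : Fin m) (b : BS.{u})
    (h : ∃ c : b.V → Fin m, Dec b.G c (insert b.v b.C)) :
    Dec b.G (bs2Col d b) (insert b.v b.C) := by
  classical
  unfold bs2Col
  rw [dif_pos h]
  exact h.choose_spec

/-- Labels: the root has the label `none`. -/
private noncomputable def bs2Lab (b : BS.{u}) (w : b.V) : Option RG.{u} := by
  classical
  exact if w = b.v then none else some ⟨b.V, b.G, b.r, w⟩

private lemma bs2Lab_root (b : BS.{u}) : bs2Lab b b.v = none := by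
  classical
  unfold bs2Lab
  exact if_pos rfl

private lemma bs2Lab_ne (b : BS.{u}) {w : b.V} (h : w ≠ b.v) :
    bs2Lab b w = some ⟨b.V, b.G, b.r, w⟩ := by
  classical
  unfold bs2Lab
  exact if_neg h

private def bs2Le (x y : Option RG.{u}) : Prop :=
  (x = none ∧ y = none) ∨ ∃ p q, x = some p ∧ y = some q ∧ RMin p q

private noncomputable def bs2CS {m : ℕ} (d : Fin m) (b : BS.{u}) :
    CS.{u} (Option RG.{u} × Fin m) where
  W := b.V
  H := b.G
  S := insert b.v b.C
  lab := fun w => (bs2Lab b w, bs2Col d b w)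

private lemma bs2_nb (P : Set ℕ → RG.{u} → Prop) (A : Set ℕ) (h : NB RMin P A) :
    NB bs2Le.{u} (fun X a => ∀ q, a = some q → P X q) A := by
  classical
  intro B hBA hB f hf hP
  obtain ⟨C, hCB, hC, hC2⟩ := gp_pred (p := fun X => f X = none)
    (hf.measurableSet_setOf (fun a => a = none)) hB
  have ht : tl C ⊆ C := tl_subset C
  have hti : (tl C).Infinite := tl_infinite hC
  rcases hC2 with h1 | h1
  · exact ⟨C, hCB, hC, Or.inl ⟨h1 C Subset.rfl hC, h1 (tl C) ht hti⟩⟩
  · have h3 : ∀ X, X ⊆ C → X.Infinite → ∃ q, f X = some q := by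
      intro X hX hXi
      rcases h4 : f X with _ | q
      · exact absurd h4 (h1 X hX hXi)
      · exact ⟨q, rfl⟩
    obtain ⟨q0, _⟩ := h3 C Subset.rfl hC
    have hg : IsArr (fun X => (f X).getD q0) := hf.comp (fun a => a.getD q0)
    obtain ⟨X, hX, hXi, hle⟩ := h C (hCB.trans hBA) hC (fun X => (f X).getD q0) hg (by
      intro X hX hXi
      obtain ⟨q, hq⟩ := h3 X hX hXi
      show P X ((f X).getD q0)
      rw [hq]
      exact hP X (hX.trans hCB) hXi q hq)
    obtain ⟨q, hq⟩ := h3 X hX hXi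
    obtain ⟨q', hq'⟩ := h3 (tl X) ((tl_subset X).trans hX) (tl_infinite hXi)
    refine ⟨X, hX.trans hCB, hXi, Or.inr ⟨q, q', hq, hq', ?_⟩⟩
    have h5 : RMin ((f X).getD q0) ((f (tl X)).getD q0) := hle
    rw [hq, hq'] at h5
    exact h5

/-- An embedding of labelled graphs is an embedding of blocks. -/
private lemma bs2_glue {m : ℕ} (d : Fin m) (x y : BS.{u}) (hx : x.v ∉ x.C)
    (h1 : CS.le (fun a b : Option RG.{u} × Fin m => bs2Le a.1 b.1 ∧ a.2 = b.2)
      (bs2CS d x) (bs2CS d y)) : BS.le x y := by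
  obtain ⟨φ, hφ1, hφ2, hφ3, hφ4⟩ := h1
  change x.V → y.V at φ
  change InjOn φ (insert x.v x.C) at hφ1
  change MapsTo φ (insert x.v x.C) (insert y.v y.C) at hφ2
  change ∀ a ∈ insert x.v x.C, ∀ b ∈ insert x.v x.C, x.G.Adj a b → y.G.Adj (φ a) (φ b) at hφ3
  have hlab : ∀ a ∈ insert x.v x.C, bs2Le (bs2Lab x a) (bs2Lab y (φ a)) :=
    fun a ha => (hφ4 a ha).1
  have hv : φ x.v = y.v := by
    by_contra h5
    have h6 := bs2Lab_ne y h5
    rcases hlab x.v (mem_insert _ _) with h4 | ⟨p, q, h4, _⟩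
    · rw [h6] at h4
      exact absurd h4.2 (by simp)
    · rw [bs2Lab_root] at h4
      exact absurd h4 (by simp)
  have hC : ∀ a ∈ x.C, φ a ∈ y.C ∧ RMin ⟨x.V, x.G, x.r, a⟩ ⟨y.V, y.G, y.r, φ a⟩ := by
    intro a ha
    have hav : a ≠ x.v := fun h => hx (h ▸ ha)
    have h6 := bs2Lab_ne x hav
    rcases hlab a (mem_insert_of_mem _ ha) with h4 | ⟨p, q, h4, h5, h7⟩
    · rw [h6] at h4
      exact absurd h4.1 (by simp)
    · by_cases h9 : φ a = y.v
      · rw [h9, bs2Lab_root] at h5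
        exact absurd h5 (by simp)
      · refine ⟨(hφ2 (mem_insert_of_mem _ ha)).resolve_left h9, ?_⟩
        rw [h6] at h4
        rw [bs2Lab_ne y h9] at h5
        rw [Option.some.inj h4, Option.some.inj h5]
        exact h7
  exact ⟨φ, hφ1, fun a ha => (hC a ha).1, hv, hφ3, fun a ha => (hC a ha).2⟩

theorem bs2_holds (hc : CS2Stmt.{u, u+1}) : BS2Stmt.{u} := by
  intro m P A hA B hBA hB f hf hP
  obtain ⟨c0, _⟩ := (hP B Subset.rfl hB).2.1
  have d : Fin m := c0 (f B).v
  obtain ⟨X, hX, hXi, hle⟩ := hc m (Option RG.{u}) bs2Le _ A (bs2_nb P A hA) B hBA hB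
    (fun X => bs2CS d (f X)) (hf.comp (bs2CS d)) (by
      intro X hX hXi
      refine ⟨⟨(f X).v⟩, bs2Col_dec d (f X) (hP X hX hXi).2.1, ?_⟩
      intro w hw q hq
      change bs2Lab (f X) w = some q at hq
      by_cases h : w = (f X).v
      · rw [h, bs2Lab_root] at hq
        exact absurd hq (by simp)
      · rw [bs2Lab_ne _ h] at hq
        rw [← Option.some.inj hq]
        exact (hP X hX hXi).2.2 w (hw.resolve_left h))
  exact ⟨X, hX, hXi, bs2_glue d (f X) (f (tl X)) (hP X hX hXi).1 hle⟩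

end Pool.MP_0d2ef4_co
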