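import Pool.Agent.Work.MP_0d2ef4_co.WQ.Basic
import Pool.Agent.Work.MP_0d2ef4_co.WQ.Arr
import Pool.Agent.Work.MP_0d2ef4_co.WQ.Defs2

/-! Labelled graphs with coloured decompositions. -/

namespace Pool.MP_0d2ef4_co

open Set

universe u v

section

/-- Coloured decompositions with ranks. -/
inductive DecR {V : Type u} (G : SimpleGraph V) {m : ℕ} (c : V → Fin m) :
    Ordinal.{u} → Set V → Prop
  | single (α : Ordinal.{u}) (v : V) : DecR G c α {v}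
  | unif (α : Ordinal.{u}) (D : Fin m → Fin m → Prop) (I : Type u) (S : I → Set V)
      (β : I → Ordinal.{u}) (hβ : ∀ i, β i < α) (hS : ∀ i, DecR G c (β i) (S i))
      (hD : ∀ i j, i ≠ j → ∀ x ∈ S i, ∀ y ∈ S j, x ≠ y ∧ (G.Adj x y ↔ D (c x) (c y))) :
      DecR G c α (⋃ i, S i)
  | fin (α : Ordinal.{u}) (D : Fin m → Fin m → Fin m → Fin m → Prop) (S : Fin m → Set V)
      (β : Fin m → Ordinal.{u}) (hβ : ∀ i, β i < α) (hS : ∀ i, DecR G c (β i) (S i))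
      (hD : ∀ i j, i ≠ j → ∀ x ∈ S i, ∀ y ∈ S j, x ≠ y ∧ (G.Adj x y ↔ D i j (c x) (c y))) :
      DecR G c α (⋃ i, S i)

variable {V : Type u} {G : SimpleGraph V} {m : ℕ} {c : V → Fin m}

lemma Dec.exists_rank {S : Set V} (h : Dec G c S) : ∃ α, DecR G c α S := by
  induction h with
  | single v => exact ⟨0, DecR.single 0 v⟩
  | unif D I S _ hD ih =>
    choose β hβ using ih
    exact ⟨⨆ i, Order.succ (β i), DecR.unif _ D I S β
      (fun i => (Order.lt_succ (β i)).trans_le (Ordinal.le_iSup _ i)) hβ hD⟩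
  | fin D S _ hD ih =>
    choose β hβ using ih
    exact ⟨⨆ i : ULift.{u} (Fin m), Order.succ (β i.down), DecR.fin _ D S β
      (fun i => (Order.lt_succ (β i)).trans_le
        (Ordinal.le_iSup (fun i : ULift.{u} (Fin m) => Order.succ (β i.down)) ⟨i⟩)) hβ hD⟩

lemma DecR.dec {α : Ordinal.{u}} {S : Set V} (h : DecR G c α S) : Dec G c S := by
  induction h with
  | single α v => exact Dec.single v
  | unif α D I S β _ _ hD ih => exact Dec.unif D I S ih hD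
  | fin α D S β _ _ hD ih => exact Dec.fin D S ih hD

/-- The least rank of a decomposition. -/
noncomputable def drk (G : SimpleGraph V) (c : V → Fin m) (S : Set V) : Ordinal.{u} :=
  sInf {α | DecR G c α S}

lemma Dec.decR_drk {S : Set V} (h : Dec G c S) : DecR G c (drk G c S) S :=
  csInf_mem h.exists_rank

lemma DecR.drk_le {α : Ordinal.{u}} {S : Set V} (h : DecR G c α S) : drk G c S ≤ α :=
  csInf_le' h

lemma Dec.cases_drk {S : Set V} (h : Dec G c S) :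
    (∃ v, S = {v}) ∨
    (∃ (D : Fin m → Fin m → Prop) (I : Type u) (T : I → Set V),
      (∀ i, Dec G c (T i) ∧ drk G c (T i) < drk G c S) ∧
      (∀ i j, i ≠ j → ∀ x ∈ T i, ∀ y ∈ T j, x ≠ y ∧ (G.Adj x y ↔ D (c x) (c y))) ∧
      S = ⋃ i, T i) ∨
    (∃ (D : Fin m → Fin m → Fin m → Fin m → Prop) (T : Fin m → Set V),
      (∀ i, Dec G c (T i) ∧ drk G c (T i) < drk G c S) ∧
      (∀ i j, i ≠ j → ∀ x ∈ T i, ∀ y ∈ T j, x ≠ y ∧ (G.Adj x y ↔ D i j (c x) (c y))) ∧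
      S = ⋃ i, T i) := by
  have h1 := h.decR_drk
  generalize hα : drk G c S = α at h1
  cases h1 with
  | single _ v => exact Or.inl ⟨v, rfl⟩
  | unif _ D I T β hβ hT hD =>
    exact Or.inr (Or.inl ⟨D, I, T, fun i => ⟨(hT i).dec, (hT i).drk_le.trans_lt (hβ i)⟩, hD, rfl⟩)
  | fin _ D T β hβ hT hD =>
    exact Or.inr (Or.inr ⟨D, T, fun i => ⟨(hT i).dec, (hT i).drk_le.trans_lt (hβ i)⟩, hD, rfl⟩)

end

section

variable {L : Type v} {m : ℕ}

/-- The colour of a vertex. -/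
def ccol (x : CS.{u} (L × Fin m)) (w : x.W) : Fin m := (x.lab w).2

/-- The labelled graph on a subset. -/
def CS.sb (y : CS.{u} L) (S' : Set y.W) : CS.{u} L := ⟨y.W, y.H, S', y.lab⟩

/-- The rank. -/
noncomputable def crk (x : CS.{u} (L × Fin m)) : Ordinal.{u} := drk x.H (ccol x) x.S

/-- Smaller pieces. -/
def clt (x y : CS.{u} (L × Fin m)) : Prop :=
  ∃ S' : Set y.W, S' ⊆ y.S ∧ x = y.sb S' ∧ Dec y.H (ccol y) S' ∧
    drk y.H (ccol y) S' < drk y.H (ccol y) y.S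

lemma clt_wf : WellFounded (clt : CS.{u} (L × Fin m) → CS.{u} (L × Fin m) → Prop) := by
  have h : Subrelation (clt : CS.{u} (L × Fin m) → CS.{u} (L × Fin m) → Prop)
      (InvImage (· < ·) crk) := by
    rintro x y ⟨S', _, rfl, _, h⟩
    exact h
  exact h.wf (InvImage.wf _ Ordinal.lt_wf)

lemma clt_trans (x y z : CS.{u} (L × Fin m)) (h1 : clt x y) (h2 : clt y z) : clt x z := by
  obtain ⟨S', h3, rfl, h4, h5⟩ := h1
  obtain ⟨S'', h6, rfl, h7, h8⟩ := h2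
  exact ⟨S', h3.trans h6, rfl, h4, h5.trans h8⟩

lemma cs_le_sb {leL : L → L → Prop} {x y : CS.{u} L} {T : Set y.W} (hT : T ⊆ y.S)
    (h : CS.le leL x (y.sb T)) : CS.le leL x y := by
  obtain ⟨φ, h1, h2, h3, h4⟩ := h
  exact ⟨φ, h1, fun a ha => hT (h2 ha), h3, h4⟩

lemma cs_glue {leL : L → L → Prop} {x y : CS.{u} (L × Fin m)} [Nonempty y.W]
    {ι ι' : Type*} {S : ι → Set x.W} {T : ι' → Set y.W} (hS : x.S = ⋃ i, S i)
    (hT : y.S = ⋃ i, T i) {σ : ι → ι'} (hσ : Function.Injective σ)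
    {R : ι → ι → Fin m → Fin m → Prop} {R' : ι' → ι' → Fin m → Fin m → Prop}
    (hR : ∀ i j a b, R i j a b → R' (σ i) (σ j) a b)
    (hD : ∀ i j, i ≠ j → ∀ a ∈ S i, ∀ b ∈ S j, a ≠ b ∧ (x.H.Adj a b ↔ R i j (ccol x a) (ccol x b)))
    (hD' : ∀ i j, i ≠ j → ∀ a ∈ T i, ∀ b ∈ T j,
      a ≠ b ∧ (y.H.Adj a b ↔ R' i j (ccol y a) (ccol y b)))
    (hle : ∀ i, CS.le (fun a b : L × Fin m => leL a.1 b.1 ∧ a.2 = b.2) (x.sb (S i)) (y.sb (T (σ i)))) :
    CS.le (fun a b : L × Fin m => leL a.1 b.1 ∧ a.2 = b.2) x y := by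
  classical
  have hle' : ∀ i, ∃ φ : x.W → y.W, InjOn φ (S i) ∧ MapsTo φ (S i) (T (σ i)) ∧
      (∀ a ∈ S i, ∀ b ∈ S i, x.H.Adj a b → y.H.Adj (φ a) (φ b)) ∧
      ∀ a ∈ S i, leL (x.lab a).1 (y.lab (φ a)).1 ∧ ccol x a = ccol y (φ a) := hle
  choose φ h1 h2 h3 h4 using hle'
  have hix : ∀ a, ∃ i : Option ι, a ∈ x.S → ∃ j, i = some j ∧ a ∈ S j := by
    intro a
    by_cases ha : a ∈ x.S
    · rw [hS, mem_iUnion] at ha
      obtain ⟨j, hj⟩ := ha
      exact ⟨some j, fun _ => ⟨j, rfl, hj⟩⟩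
    · exact ⟨none, fun h => absurd h ha⟩
  choose ix hix using hix
  let ψ : x.W → y.W := fun a => match ix a with
    | some j => φ j a
    | none => Classical.arbitrary _
  have hψ : ∀ a ∈ x.S, ∃ j, a ∈ S j ∧ ψ a = φ j a := by
    intro a ha
    obtain ⟨j, hj, hj'⟩ := hix a ha
    refine ⟨j, hj', ?_⟩
    simp only [ψ, hj]
  refine ⟨ψ, ?_, ?_, ?_, ?_⟩
  · intro a ha b hb hab
    obtain ⟨i, hi, hi'⟩ := hψ a ha
    obtain ⟨j, hj, hj'⟩ := hψ b hb
    rw [hi', hj'] at hab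
    by_cases hij : i = j
    · subst hij
      exact h1 i hi hj hab
    · exfalso
      exact (hD' (σ i) (σ j) (fun h => hij (hσ h)) _ (h2 i hi) _ (h2 j hj)).1 hab
  · intro a ha
    obtain ⟨i, hi, hi'⟩ := hψ a ha
    rw [hi', hT]
    exact mem_iUnion.2 ⟨_, h2 i hi⟩
  · intro a ha b hb hab
    obtain ⟨i, hi, hi'⟩ := hψ a ha
    obtain ⟨j, hj, hj'⟩ := hψ b hb
    rw [hi', hj']
    by_cases hij : i = j
    · subst hij
      exact h3 i a hi b hj hab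
    · have h5 := (hD i j hij a hi b hj).2.1 hab
      refine (hD' (σ i) (σ j) (fun h => hij (hσ h)) _ (h2 i hi) _ (h2 j hj)).2.2 ?_
      rw [← (h4 i a hi).2, ← (h4 j b hj).2]
      exact hR i j _ _ h5
  · intro a ha
    obtain ⟨i, hi, hi'⟩ := hψ a ha
    rw [hi']
    exact h4 i a hi

/-- Perfectness for finitely many arrays. -/
lemma NB.perfect_fin {Q : Type*} {le : Q → Q → Prop} {P : Set ℕ → Q → Prop} {A B : Set ℕ}
    (h : NB le P A) (hBA : B ⊆ A) (hB : B.Infinite) {ι : Type*} (s : Finset ι)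
    {f : ι → Set ℕ → Q} (hf : ∀ i ∈ s, IsArr (f i))
    (hP : ∀ i ∈ s, ∀ X, X ⊆ B → X.Infinite → P X (f i X)) :
    ∃ C, C ⊆ B ∧ C.Infinite ∧ ∀ i ∈ s, ∀ X, X ⊆ C → X.Infinite → le (f i X) (f i (tl X)) := by
  classical
  induction s using Finset.induction_on with
  | empty => exact ⟨B, Subset.rfl, hB, by simp⟩
  | insert k s hks ih =>
    obtain ⟨C, hC1, hC2, hC3⟩ := ih (fun i hi => hf i (Finset.mem_insert_of_mem hi))
      (fun i hi => hP i (Finset.mem_insert_of_mem hi))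
    obtain ⟨D, hD1, hD2, hD3⟩ := h.perfect (hC1.trans hBA) hC2 (hf k (Finset.mem_insert_self _ _))
      (fun X hX hXi => hP k (Finset.mem_insert_self _ _) X (hX.trans hC1) hXi)
    refine ⟨D, hD1.trans hC1, hD2, ?_⟩
    intro i hi X hX hXi
    rcases Finset.mem_insert.1 hi with h5 | h5
    · rw [h5]; exact hD3 X hX hXi
    · exact hC3 i h5 X (hX.trans hD1) hXi

end

theorem cs2_holds (hm : MBAStmt.{max v (u+1)}) (hf : FamStmt.{u, max v (u+1)}) :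
    CS2Stmt.{u,v} := by
  classical
  intro m L leL P A hNB
  by_contra hbad
  obtain ⟨B, hBA, hB, g, hg, hgP, hgbad, hgNB⟩ :=
    hm (CS.{u} (L × Fin m)) (CS.le (fun a b : L × Fin m => leL a.1 b.1 ∧ a.2 = b.2)) clt clt_wf
      clt_trans
      (by
        rintro a b c h1 ⟨T, hT1, rfl, _, _⟩
        exact cs_le_sb hT1 h1) _
      (by
        rintro X a b ⟨c1, c2, c3⟩ ⟨T, hT1, rfl, hT2, hT3⟩
        exact ⟨c1, hT2, fun w hw => c3 w (hT1 hw)⟩) A hbad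
  have htl : ∀ X, X ⊆ B → X.Infinite → (tl X ⊆ B ∧ (tl X).Infinite) := fun X hX hXi =>
    ⟨(tl_subset X).trans hX, tl_infinite hXi⟩
  -- one vertex
  obtain ⟨B2, hB2, hB2i, h2⟩ := gp_pred (p := fun X => ∃ v, (g X).S = {v})
    (hg.measurableSet_setOf fun x => ∃ v, x.S = {v}) hB
  rcases h2 with h2 | h2
  · have hL : ∃ ℓ : CS.{u} (L × Fin m) → L × Fin m, ∀ x, ∀ v, x.S = {v} → ℓ x = x.lab v := by
      obtain ⟨w0, _⟩ := h2 B2 Subset.rfl hB2i
      refine ⟨fun x => if h : ∃ v, x.S = {v} then x.lab h.choose else (g B2).lab w0, ?_⟩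
      intro x v hv
      have h : ∃ v, x.S = {v} := ⟨v, hv⟩
      simp only [dif_pos h]
      have h3 : ({v} : Set x.W) = {h.choose} := hv.symm.trans h.choose_spec
      rw [singleton_eq_singleton_iff.1 h3]
    obtain ⟨ℓ, hℓ⟩ := hL
    obtain ⟨C, hC1, hC2, hC3⟩ := hNB.perfect (hB2.trans hBA) hB2i (f := fun X => (ℓ (g X)).1)
      (hg.comp fun x => (ℓ x).1) (by
        intro X hX hXi
        obtain ⟨v, hv⟩ := h2 X hX hXi
        rw [hℓ _ v hv]
        exact (hgP X (hX.trans hB2) hXi).2.2 v (by rw [hv]; exact mem_singleton v))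
    obtain ⟨C', hC'1, hC'2, k, hk⟩ := exists_const (c := fun X => (ℓ (g X)).2)
      (fun k => (hg.comp fun x => (ℓ x).2).2 k) hC2
    have hXB : C' ⊆ B2 := hC'1.trans hC1
    obtain ⟨v, hv⟩ := h2 C' hXB hC'2
    obtain ⟨v', hv'⟩ := h2 (tl C') ((tl_subset _).trans hXB) (tl_infinite hC'2)
    have e1 := hC3 C' hC'1 hC'2
    have e2 := hk C' Subset.rfl hC'2
    have e3 := hk (tl C') (tl_subset _) (tl_infinite hC'2)
    rw [hℓ _ v hv, hℓ _ v' hv'] at e1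
    rw [hℓ _ v hv] at e2
    rw [hℓ _ v' hv'] at e3
    refine hgbad C' (hXB.trans hB2) hC'2 ⟨fun _ => v', ?_, ?_, ?_, ?_⟩
    · rw [hv]; exact injOn_singleton _ _
    · intro a _; rw [hv']; exact mem_singleton v'
    · rw [hv]
      rintro a ha b hb hab
      rw [mem_singleton_iff] at ha hb
      rw [ha, hb] at hab
      exact absurd rfl hab.ne
    · rw [hv]
      rintro a ha
      rw [mem_singleton_iff] at ha
      rw [ha]
      exact ⟨e1, e2.trans e3.symm⟩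
  have hB2B : B2 ⊆ B := hB2
  -- uniform nodes
  let K2 : CS.{u} (L × Fin m) → (Fin m → Fin m → Prop) → Prop := fun x D =>
    ∃ (I : Type u) (T : I → Set x.W),
      (∀ i, Dec x.H (ccol x) (T i) ∧ drk x.H (ccol x) (T i) < drk x.H (ccol x) x.S) ∧
      (∀ i j, i ≠ j → ∀ a ∈ T i, ∀ b ∈ T j, a ≠ b ∧ (x.H.Adj a b ↔ D (ccol x a) (ccol x b))) ∧
      x.S = ⋃ i, T i
  let K3 : CS.{u} (L × Fin m) → (Fin m → Fin m → Fin m → Fin m → Prop) → Prop := fun x D =>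
    ∃ (T : Fin m → Set x.W),
      (∀ i, Dec x.H (ccol x) (T i) ∧ drk x.H (ccol x) (T i) < drk x.H (ccol x) x.S) ∧
      (∀ i j, i ≠ j → ∀ a ∈ T i, ∀ b ∈ T j, a ≠ b ∧ (x.H.Adj a b ↔ D i j (ccol x a) (ccol x b))) ∧
      x.S = ⋃ i, T i
  obtain ⟨B3, hB3, hB3i, h3⟩ := gp_pred (p := fun X => ∃ D, K2 (g X) D)
    (hg.measurableSet_setOf fun x => ∃ D, K2 x D) hB2i
  have hB3B : B3 ⊆ B := hB3.trans hB2
  rcases h3 with h3 | h3
  · have hch : ∀ x : CS.{u} (L × Fin m), ∃ D, (∃ D, K2 x D) → K2 x D := by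
      intro x
      by_cases h : ∃ D, K2 x D
      · obtain ⟨D, hD⟩ := h; exact ⟨D, fun _ => hD⟩
      · exact ⟨fun _ _ => True, fun h' => absurd h' h⟩
    choose dD hdD using hch
    obtain ⟨B4, hB4, hB4i, D, hD⟩ := exists_const (c := fun X => dD (g X))
      (fun k => (hg.comp dD).2 k) hB3i
    have hK : ∀ X, X ⊆ B4 → X.Infinite → K2 (g X) D := by
      intro X hX hXi
      have h4 := hdD (g X) (h3 X (hX.trans hB4) hXi)
      rw [hD X hX hXi] at h4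
      exact h4
    have hch2 : ∀ x : CS.{u} (L × Fin m), ∃ (F : Fam.{u} (Set x.W)), K2 x D →
      ((∀ i, Dec x.H (ccol x) (F.x i) ∧ drk x.H (ccol x) (F.x i) < drk x.H (ccol x) x.S) ∧
      (∀ i j, i ≠ j → ∀ a ∈ F.x i, ∀ b ∈ F.x j,
        a ≠ b ∧ (x.H.Adj a b ↔ D (ccol x a) (ccol x b))) ∧
      x.S = ⋃ i, F.x i) := by
      intro x
      by_cases h : K2 x D
      · obtain ⟨I, T, h5⟩ := h
        exact ⟨⟨I, T⟩, fun _ => h5⟩
      · exact ⟨⟨PEmpty, fun i => i.elim⟩, fun h' => absurd h' h⟩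
    choose F hF using hch2
    let fm : CS.{u} (L × Fin m) → Fam.{u} (CS.{u} (L × Fin m)) := fun x =>
      ⟨(F x).I, fun i => x.sb ((F x).x i)⟩
    obtain ⟨X, hX, hXi, σ, hσ, hX2⟩ := hf (CS.{u} (L × Fin m)) _ (fun X q => clt q (g X)) B hgNB B4
      (hB4.trans hB3B) hB4i (fun X => fm (g X)) (hg.comp fm) (by
        intro X hX hXi i
        obtain ⟨h5, h6, h7⟩ := hF (g X) (hK X hX hXi)
        exact ⟨_, by rw [h7]; exact subset_iUnion _ i, rfl, (h5 i).1, (h5 i).2⟩)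
    have hXB : X ⊆ B := hX.trans (hB4.trans hB3B)
    obtain ⟨h5, h6, h7⟩ := hF (g X) (hK X hX hXi)
    obtain ⟨h5', h6', h7'⟩ := hF (g (tl X)) (hK (tl X) ((tl_subset X).trans hX) (tl_infinite hXi))
    have hne' : Nonempty (g (tl X)).W := (hgP (tl X) (htl X hXB hXi).1 (htl X hXB hXi).2).1
    exact hgbad X hXB hXi (cs_glue h7 h7' hσ (R := fun _ _ => D) (R' := fun _ _ => D)
      (fun _ _ _ _ h => h) h6 h6' hX2)
  -- finite nodes
  have hK3 : ∀ X, X ⊆ B3 → X.Infinite → ∃ D, K3 (g X) D := by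
    intro X hX hXi
    rcases (hgP X (hX.trans hB3B) hXi).2.1.cases_drk with h4 | ⟨D, I, T, h5, h6, h7⟩ | ⟨D, T, h4⟩
    · exact absurd h4 (h2 X (hX.trans hB3) hXi)
    · exact absurd ⟨D, I, T, h5, h6, h7⟩ (h3 X hX hXi)
    · exact ⟨D, T, h4⟩
  have hch : ∀ x : CS.{u} (L × Fin m), ∃ D, (∃ D, K3 x D) → K3 x D := by
    intro x
    by_cases h : ∃ D, K3 x D
    · obtain ⟨D, hD⟩ := h; exact ⟨D, fun _ => hD⟩
    · exact ⟨fun _ _ _ _ => True, fun h' => absurd h' h⟩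
  choose dD hdD using hch
  obtain ⟨B4, hB4, hB4i, D, hD⟩ := exists_const (c := fun X => dD (g X))
    (fun k => (hg.comp dD).2 k) hB3i
  have hK : ∀ X, X ⊆ B4 → X.Infinite → K3 (g X) D := by
    intro X hX hXi
    have h4 := hdD (g X) (hK3 X (hX.trans hB4) hXi)
    rw [hD X hX hXi] at h4
    exact h4
  have hch2 : ∀ x : CS.{u} (L × Fin m), ∃ (F : Fin m → Set x.W), K3 x D →
      ((∀ i, Dec x.H (ccol x) (F i) ∧ drk x.H (ccol x) (F i) < drk x.H (ccol x) x.S) ∧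
      (∀ i j, i ≠ j → ∀ a ∈ F i, ∀ b ∈ F j,
        a ≠ b ∧ (x.H.Adj a b ↔ D i j (ccol x a) (ccol x b))) ∧
      x.S = ⋃ i, F i) := by
    intro x
    by_cases h : K3 x D
    · obtain ⟨T, h5⟩ := h
      exact ⟨T, fun _ => h5⟩
    · exact ⟨fun _ => ∅, fun h' => absurd h' h⟩
  choose F hF using hch2
  obtain ⟨C, hC1, hC2, hC3⟩ := hgNB.perfect_fin (hB4.trans hB3B) hB4i Finset.univ
    (f := fun (i : Fin m) X => (g X).sb (F (g X) i))
    (fun i _ => hg.comp fun x => x.sb (F x i)) (by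
      intro i _ X hX hXi
      obtain ⟨h5, h6, h7⟩ := hF (g X) (hK X hX hXi)
      exact ⟨_, by rw [h7]; exact subset_iUnion _ i, rfl, (h5 i).1, (h5 i).2⟩)
  have hXB : C ⊆ B := hC1.trans (hB4.trans hB3B)
  obtain ⟨h5, h6, h7⟩ := hF (g C) (hK C hC1 hC2)
  obtain ⟨h5', h6', h7'⟩ := hF (g (tl C)) (hK (tl C) ((tl_subset C).trans hC1) (tl_infinite hC2))
  have hne' : Nonempty (g (tl C)).W := (hgP (tl C) (htl C hXB hC2).1 (htl C hXB hC2).2).1
  exact hgbad C hXB hC2 (cs_glue h7 h7' (σ := fun i : Fin m => i) Function.injective_id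
    (R := D) (R' := D) (fun _ _ _ _ h => h) h6 h6'
    (fun i => hC3 i (Finset.mem_univ i) C Subset.rfl hC2))

end Pool.MP_0d2ef4_co
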