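import Pool.Agent.Work.MP_0d2ef4_co.WQ.Basic

/-! Strict domination of rooted rayless graphs is a well founded partial order that is
compatible with rooted minors. -/

namespace Pool.MP_0d2ef4_co

open Set

universe u

/-- The root of a dominated set lies outside each smaller dominated set. -/
private lemma LT_mem_diff (hd : DomFacts.{u}) {V : Type u} {G : SimpleGraph V} {r v w : V}
    (hw : w ∈ dom G r v) (hne : w ≠ v) : v ∈ dom G r v \ dom G r w := by
  obtain ⟨p, hp1, hp2, _⟩ := hd.nbr G r v w hw hne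
  exact (hd.conn_diff G r v w p hw hne hp1 hp2).left

private lemma LT_conn (hd : DomFacts.{u}) {V : Type u} {G : SimpleGraph V} {r v w : V}
    (hw : w ∈ dom G r v) (hne : w ≠ v) :
    ∀ a ∈ dom G r v \ dom G r w, ∀ b ∈ dom G r v \ dom G r w,
      Cn G (dom G r v \ dom G r w) a b := fun a ha b hb =>
  (hd.conn_diff G r v w a hw hne ha.1 ha.2).symm.trans
    (hd.conn_diff G r v w b hw hne hb.1 hb.2)

/-- In a rayless graph strict domination is well founded. -/
private lemma LT_wf (hd : DomFacts.{u}) (hr : RayStmt.{u}) {V : Type u} (G : SimpleGraph V)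
    (r : V) (hray : RaylessOn G univ) :
    WellFounded (fun w v : V => w ∈ dom G r v ∧ w ≠ v) := by
  rw [wellFounded_iff_isEmpty_descending_chain]
  refine ⟨?_⟩
  rintro ⟨f, hf⟩
  have hmono : ∀ m n, m ≤ n → dom G r (f n) ⊆ dom G r (f m) := by
    intro m n hmn
    induction n, hmn using Nat.le_induction with
    | base => exact Subset.rfl
    | succ n _ ih =>
      intro y hy
      exact ih (hd.trans G r (f n) (f (n + 1)) y hy (hf n).1)
  refine hr V G univ (fun n => dom G r (f n) \ dom G r (f (n + 1))) (fun n => subset_univ _)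
    ?_ ?_ ?_ hray
  · intro m n hmn
    rw [Set.disjoint_left]
    intro a ha hb
    exact ha.2 (hmono (m + 1) n hmn hb.1)
  · intro n
    exact LT_conn hd (hf n).1 (hf n).2
  · intro n
    obtain ⟨p, hp1, hp2, hp3⟩ := hd.nbr G r (f n) (f (n + 1)) (hf n).1 (hf n).2
    exact ⟨p, ⟨hp1, hp2⟩, f (n + 1), LT_mem_diff hd (hf (n + 1)).1 (hf (n + 1)).2, hp3⟩

private lemma LT_acc (hd : DomFacts.{u}) (hr : RayStmt.{u}) {V : Type u} (G : SimpleGraph V)
    (r v : V) : Acc RG.lt.{u} ⟨V, G, r, v⟩ := by
  by_cases hray : RaylessOn G univ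
  · refine (LT_wf hd hr G r hray).induction (C := fun v => Acc RG.lt.{u} ⟨V, G, r, v⟩) v ?_
    intro v ih
    refine Acc.intro _ ?_
    rintro x ⟨w, rfl, hw, hne, _⟩
    exact ih w ⟨hw, hne⟩
  · refine Acc.intro _ ?_
    rintro x ⟨w, rfl, _, _, h⟩
    exact absurd h hray

theorem lt_holds (hd : DomFacts.{u}) (hr : RayStmt.{u}) : LtFacts.{u} := by
  refine ⟨⟨?_⟩, ?_, ?_⟩
  · rintro ⟨V, G, r, v⟩
    exact LT_acc hd hr G r v
  · rintro a b c ⟨w, rfl, hw, hne, _⟩ ⟨w', rfl, hw', hne', hray⟩
    refine ⟨w, rfl, hd.trans c.G c.r c.v w' w hw hw', ?_, hray⟩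
    intro h
    exact hne' (hd.antisymm c.G c.r w' c.v (h ▸ hw) hw')
  · rintro a b c ⟨M, hM, hdis, hadj, hroot⟩ ⟨w, rfl, hw, hne, _⟩
    classical
    have hv := LT_mem_diff hd hw hne
    have hsub : ∀ x ∈ dom a.G a.r a.v, M x ⊆ dom c.G c.r w := fun x hx => (hM x hx).1
    have hnv : ∀ x ∈ dom a.G a.r a.v, x ≠ a.v →
        Disjoint (M a.v ∪ (dom c.G c.r c.v \ dom c.G c.r w)) (M x) := by
      intro x hx hxv
      have hav : a.v ∈ dom a.G a.r a.v := (hd.conn a.G a.r a.v x hx).left
      rw [Set.disjoint_union_left]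
      refine ⟨hdis a.v hav x hx hxv.symm, ?_⟩
      rw [Set.disjoint_left]
      intro y hy1 hy2
      exact hy1.2 (hsub x hx hy2)
    refine ⟨fun x => if x = a.v then M a.v ∪ (dom c.G c.r c.v \ dom c.G c.r w) else M x,
      ?_, ?_, ?_, ?_⟩
    · intro x hx
      by_cases hxv : x = a.v
      · subst hxv
        simp only [if_true]
        refine ⟨?_, ⟨w, Or.inl hroot⟩, ?_⟩
        · rintro y (hy | hy)
          · exact hd.trans c.G c.r c.v w y (hsub _ hx hy) hw
          · exact hy.1
        · have key : ∀ p ∈ M a.v ∪ (dom c.G c.r c.v \ dom c.G c.r w),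
              Cn c.G (M a.v ∪ (dom c.G c.r c.v \ dom c.G c.r w)) w p := by
            rintro p (hp | hp)
            · exact ((hM _ hx).2.2 w hroot p hp).mono subset_union_left
            · obtain ⟨q, hq1, hq2, hq3⟩ := hd.nbr c.G c.r c.v w hw hne
              have h1 : Cn c.G (M a.v ∪ (dom c.G c.r c.v \ dom c.G c.r w)) w q :=
                Cn.of_adj (Or.inl hroot) (Or.inr ⟨hq1, hq2⟩) hq3.symm
              exact h1.trans ((LT_conn hd hw hne q ⟨hq1, hq2⟩ p hp).mono subset_union_right)
          intro p hp q hq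
          exact (key p hp).symm.trans (key q hq)
      · simp only [if_neg hxv]
        exact ⟨fun y hy => hd.trans c.G c.r c.v w y (hsub x hx hy) hw, (hM x hx).2⟩
    · intro x hx y hy hxy
      by_cases hxv : x = a.v
      · have hyv : y ≠ a.v := fun h => hxy (hxv.trans h.symm)
        simp only [if_pos hxv, if_neg hyv]
        exact hnv y hy hyv
      · by_cases hyv : y = a.v
        · simp only [if_neg hxv, if_pos hyv]
          exact (hnv x hx hxv).symm
        · simp only [if_neg hxv, if_neg hyv]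
          exact hdis x hx y hy hxy
    · intro x hx y hy hxy
      have hinc : ∀ z, M z ⊆ (if z = a.v then M a.v ∪ (dom c.G c.r c.v \ dom c.G c.r w)
          else M z) := by
        intro z
        by_cases hz : z = a.v
        · rw [if_pos hz, hz]
          exact subset_union_left
        · rw [if_neg hz]
      obtain ⟨p, hp, q, hq, hpq⟩ := hadj x hx y hy hxy
      exact ⟨p, hinc x hp, q, hinc y hq, hpq⟩
    · simp only [if_true]
      exact Or.inr hv

end Pool.MP_0d2ef4_co
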