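import Pool.Agent.Work.MP_0d2ef4_co.WQ.Arr

/-! The minimal bad array lemma. -/

namespace Pool.MP_0d2ef4_co

open Set

universe v

section mba

/-- A bad array together with its domain. -/
structure MBad {Q : Type v} (le : Q → Q → Prop) (P : Set ℕ → Q → Prop) (A : Set ℕ)
    (f : Set ℕ → Q) : Prop where
  inf : A.Infinite
  arr : IsArr f
  mem : ∀ X, X ⊆ A → X.Infinite → P X (f X)
  bad : ∀ X, X ⊆ A → X.Infinite → ¬ le (f X) (f (tl X))

/-- `p` comes later than `q` in a descending chain. -/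
def MLt {Q : Type v} (lt : Q → Q → Prop) (p q : Set ℕ × (Set ℕ → Q)) : Prop :=
  (p.1 \ q.1).Finite ∧ ∀ X, X ⊆ p.1 → X ⊆ q.1 → X.Infinite → lt (p.2 X) (q.2 X)

lemma pseudo_inter (s : ℕ → Set ℕ) (hs : ∀ i, (s i).Infinite)
    (hc : ∀ i j, (s i \ s j).Finite ∨ (s j \ s i).Finite) :
    ∃ A, A ⊆ s 0 ∧ A.Infinite ∧ ∀ i, (A \ s i).Finite := by
  have h1 : ∀ n, ∃ j, ∀ i ≤ n, (s j \ s i).Finite := by
    intro n
    induction n with
    | zero =>
      refine ⟨0, fun i hi => ?_⟩
      have : i = 0 := by omega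
      subst this
      simp
    | succ n ih =>
      obtain ⟨j, hj⟩ := ih
      rcases hc j (n + 1) with h | h
      · refine ⟨j, fun i hi => ?_⟩
        rcases Nat.lt_or_ge i (n + 1) with h2 | h2
        · exact hj i (by omega)
        · have : i = n + 1 := by omega
          rw [this]; exact h
      · refine ⟨n + 1, fun i hi => ?_⟩
        rcases Nat.lt_or_ge i (n + 1) with h2 | h2
        · refine (h.union (hj i (by omega))).subset ?_
          rintro x ⟨hx1, hx2⟩
          by_cases hx : x ∈ s j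
          · right; exact ⟨hx, hx2⟩
          · left; exact ⟨hx1, hx⟩
        · have : i = n + 1 := by omega
          rw [this]; simp
  have h2 : ∀ n m, ∃ a, (∀ i ≤ n, a ∈ s i) ∧ m < a := by
    intro n m
    obtain ⟨j, hj⟩ := h1 n
    have hfin : (⋃ i ∈ Iic n, (s j \ s i)).Finite := (finite_Iic n).biUnion fun i hi => hj i hi
    obtain ⟨a, ha1, ha2⟩ := ((hs j).sdiff hfin).exists_gt m
    refine ⟨a, fun i hi => ?_, ha2⟩
    by_contra hai
    exact ha1.2 (mem_biUnion (show i ∈ Iic n from hi) ⟨ha1.1, hai⟩)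
  choose pick hp1 hp2 using h2
  let a : ℕ → ℕ := fun n => Nat.rec (pick 0 0) (fun n am => pick (n + 1) am) n
  have ha0 : a 0 = pick 0 0 := rfl
  have ha1 : ∀ n, a (n + 1) = pick (n + 1) (a n) := fun n => rfl
  have hmono : StrictMono a := strictMono_nat_of_lt_succ fun n => by
    rw [ha1]; exact hp2 _ _
  have hmem : ∀ n i, i ≤ n → a n ∈ s i := by
    intro n i hi
    cases n with
    | zero => rw [ha0]; exact hp1 0 0 i hi
    | succ n => rw [ha1]; exact hp1 _ _ i hi
  refine ⟨range a, ?_, infinite_range_of_injective hmono.injective, ?_⟩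
  · rintro _ ⟨n, rfl⟩
    exact hmem n 0 (Nat.zero_le _)
  · intro i
    refine ((finite_Iio i).image a).subset ?_
    rintro _ ⟨⟨n, rfl⟩, hx⟩
    refine ⟨n, ?_, rfl⟩
    by_contra hn
    exact hx (hmem n i (by simpa using hn))

lemma measurableSet_sInf_eq {C : ℕ → Set ℕ → Prop} (hC : ∀ i, MeasurableSet {X | C i X}) (n : ℕ) :
    MeasurableSet {X | sInf {i | C i X} = n} := by
  have h : {X | sInf {i | C i X} = n} =
      ({X | C n X} ∩ ⋂ i ∈ Iio n, {X | C i X}ᶜ) ∪ ({X | n = 0} ∩ ⋂ i, {X | C i X}ᶜ) := by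
    ext X
    simp only [mem_ofPred_eq, mem_union, mem_inter_iff, mem_iInter, mem_compl_iff, mem_Iio]
    constructor
    · intro h
      by_cases hne : {i | C i X}.Nonempty
      · left
        have h1 := Nat.sInf_mem hne
        rw [h] at h1
        refine ⟨h1, fun i hi hCi => ?_⟩
        have h2 : sInf {i | C i X} ≤ i := Nat.sInf_le hCi
        omega
      · right
        have h1 : {i | C i X} = ∅ := not_nonempty_iff_eq_empty.1 hne
        rw [h1, Nat.sInf_empty] at h
        refine ⟨h.symm, fun i hi => ?_⟩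
        exact hne ⟨i, hi⟩
    · rintro (⟨h1, h2⟩ | ⟨h1, h2⟩)
      · apply le_antisymm (Nat.sInf_le h1)
        by_contra hlt
        have h3 : sInf {i | C i X} ∈ {i | C i X} := Nat.sInf_mem ⟨n, h1⟩
        exact h2 _ (by omega) h3
      · have h3 : {i | C i X} = ∅ := by
          ext i
          simp only [mem_ofPred_eq, mem_empty_iff_false, iff_false]
          exact h2 i
        rw [h3, Nat.sInf_empty, h1]
  rw [h]
  refine MeasurableSet.union ?_ ?_
  · exact (hC n).inter (MeasurableSet.biInter (to_countable _) fun i _ => (hC i).compl)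
  · refine MeasurableSet.inter ?_ (MeasurableSet.iInter fun i => (hC i).compl)
    by_cases hn : n = 0
    · have : {X : Set ℕ | n = 0} = univ := by ext X; simp [hn]
      rw [this]; exact MeasurableSet.univ
    · have : {X : Set ℕ | n = 0} = ∅ := by ext X; simp [hn]
      rw [this]; exact MeasurableSet.empty

variable {Q : Type v} {le lt : Q → Q → Prop} {P : Set ℕ → Q → Prop} {A₀ : Set ℕ}

/-- The countable limit step. -/
lemma mba_step (wf : WellFounded lt) (htr : ∀ a b c, lt a b → lt b c → lt a c)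
    (hle : ∀ a b c, le a b → lt b c → le a c)
    (hno : ∀ A f, A ⊆ A₀ → MBad le P A f → ∃ C h, C ⊆ A ∧ MBad le P C h ∧
      ∀ X, X ⊆ C → X.Infinite → lt (h X) (f X))
    (s : ℕ → Set ℕ × (Set ℕ → Q)) (hs : ∀ i, (s i).1 ⊆ A₀ ∧ MBad le P (s i).1 (s i).2)
    (hc : ∀ i j, s i = s j ∨ MLt lt (s i) (s j) ∨ MLt lt (s j) (s i)) :
    ∃ p : Set ℕ × (Set ℕ → Q), (p.1 ⊆ A₀ ∧ MBad le P p.1 p.2) ∧ ∀ i, MLt lt p (s i) := by
  classical
  obtain ⟨A, hA0, hAi, hA⟩ := pseudo_inter (fun i => (s i).1) (fun i => (hs i).2.inf) (by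
    intro i j
    rcases hc i j with h | h | h
    · left; rw [h]; simp
    · left; exact h.1
    · right; exact h.1)
  let C : ℕ → Set ℕ → Prop := fun i X => X ⊆ (s i).1 ∧ ∀ j, X ⊆ (s j).1 →
    ((s i).2 X = (s j).2 X ∨ lt ((s i).2 X) ((s j).2 X))
  have hCm : ∀ i, MeasurableSet {X | C i X} := by
    intro i
    have h : {X | C i X} = {X | X ⊆ (s i).1} ∩ ⋂ j, ({X | X ⊆ (s j).1}ᶜ ∪
        {X | ((s i).2 X = (s j).2 X ∨ lt ((s i).2 X) ((s j).2 X))}) := by
      ext X
      simp only [C, mem_ofPred_eq, mem_inter_iff, mem_iInter, mem_union, mem_compl_iff]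
      constructor
      · rintro ⟨h1, h2⟩
        refine ⟨h1, fun j => ?_⟩
        by_cases h3 : X ⊆ (s j).1
        · exact Or.inr (h2 j h3)
        · exact Or.inl h3
      · rintro ⟨h1, h2⟩
        refine ⟨h1, fun j hj => ?_⟩
        rcases h2 j with h3 | h3
        · exact absurd hj h3
        · exact h3
    rw [h]
    refine (measurableSet_subset _).inter (MeasurableSet.iInter fun j => ?_)
    refine (measurableSet_subset _).compl.union ?_
    exact (hs i).2.arr.measurableSet_rel (hs j).2.arr (fun a b => a = b ∨ lt a b)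
  let I : Set ℕ → ℕ := fun X => sInf {i | C i X}
  let f : Set ℕ → Q := fun X => (s (I X)).2 X
  have hf : IsArr f := IsArr.diag (I := I) (f := fun i => (s i).2)
    (fun n => measurableSet_sInf_eq hCm n) (fun i => (hs i).2.arr)
  have hI : ∀ X, X ⊆ A → X.Infinite → C (I X) X := by
    intro X hX hXi
    have hne : {i | C i X}.Nonempty := by
      have hV : ((fun i => (s i).2 X) '' {i | X ⊆ (s i).1}).Nonempty :=
        ⟨_, 0, hX.trans hA0, rfl⟩
      obtain ⟨_, ⟨i, hi1, rfl⟩, hmin⟩ := wf.has_min _ hV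
      refine ⟨i, hi1, fun j hj => ?_⟩
      rcases hc i j with h | h | h
      · left; rw [h]
      · right; exact h.2 X hi1 hj hXi
      · exact absurd (h.2 X hj hi1 hXi) (hmin _ ⟨j, hj, rfl⟩)
    exact Nat.sInf_mem hne
  have hbad : MBad le P A f := by
    refine ⟨hAi, hf, fun X hX hXi => ?_, fun X hX hXi hcon => ?_⟩
    · exact (hs (I X)).2.mem X (hI X hX hXi).1 hXi
    · have h1 := hI X hX hXi
      have h2 := hI (tl X) ((tl_subset X).trans hX) (tl_infinite hXi)
      have h3 := (hs (I X)).2.bad X h1.1 hXi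
      apply h3
      rcases h2.2 (I X) ((tl_subset X).trans h1.1) with h4 | h4
      · rw [← h4]; exact hcon
      · exact hle _ _ _ hcon h4
  obtain ⟨D, h, hDA, hD, hlt⟩ := hno A f (hA0.trans (hs 0).1) hbad
  refine ⟨(D, h), ⟨hDA.trans (hA0.trans (hs 0).1), hD⟩, fun i => ⟨?_, fun X hX1 hX2 hXi => ?_⟩⟩
  · exact (hA i).subset (sdiff_subset_sdiff_left hDA)
  · have h1 := hlt X hX1 hXi
    rcases (hI X (hX1.trans hDA) hXi).2 i hX2 with h2 | h2
    · have h3 : f X = (s i).2 X := h2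
      rw [h3] at h1; exact h1
    · exact htr _ _ _ h1 h2

/-- An uncountable well order all of whose initial segments are countable. -/
lemma exists_omega_one : ∃ (I : Type) (_ : LinearOrder I) (_ : WellFoundedLT I),
    (¬ (univ : Set I).Countable) ∧ ∀ i : I, (Iio i).Countable := by
  refine ⟨(Cardinal.aleph 1).ord.ToType, inferInstance, inferInstance, ?_, ?_⟩
  · intro h
    have h1 := Cardinal.le_aleph0_iff_set_countable.2 h
    rw [Cardinal.mk_univ, Cardinal.mk_ord_toType] at h1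
    exact absurd h1 (not_le.2 Cardinal.aleph0_lt_aleph_one)
  · intro i
    have h1 := Cardinal.mk_Iio_lt i (by simp)
    rw [Cardinal.mk_ord_toType] at h1
    exact Cardinal.le_aleph0_iff_set_countable.1 (Cardinal.lt_aleph_one_iff.1 h1)

theorem mba_holds : MBAStmt.{v} := by
  classical
  intro Q le lt wf htr hle P hP A₀ hA₀
  by_contra hcon
  -- every bad array has a strictly smaller one
  have hno : ∀ A f, A ⊆ A₀ → MBad le P A f → ∃ C h, C ⊆ A ∧ MBad le P C h ∧
      ∀ X, X ⊆ C → X.Infinite → lt (h X) (f X) := by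
    intro A f hA hf
    by_contra hno
    apply hcon
    refine ⟨A, hA, hf.inf, f, hf.arr, hf.mem, hf.bad, ?_⟩
    intro B hB hBi h hh hlt
    by_contra hb
    apply hno
    refine ⟨B, h, hB, ⟨hBi, hh, fun X hX hXi => ?_, fun X hX hXi hle' => ?_⟩, hlt⟩
    · exact hP X _ _ (hf.mem X (hX.trans hB) hXi) (hlt X hX hXi)
    · exact hb ⟨X, hX, hXi, hle'⟩
  -- the first bad array
  obtain ⟨B₀, hB₀, hB₀i, f₀, hf₀, hP₀, hbad₀⟩ : ∃ B, B ⊆ A₀ ∧ B.Infinite ∧ ∃ f : Set ℕ → Q,
      IsArr f ∧ (∀ X, X ⊆ B → X.Infinite → P X (f X)) ∧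
      ∀ X, X ⊆ B → X.Infinite → ¬ le (f X) (f (tl X)) := by
    by_contra h
    apply hA₀
    intro B hB hBi f hf hPf
    by_contra h2
    exact h ⟨B, hB, hBi, f, hf, hPf, fun X hX hXi h3 => h2 ⟨X, hX, hXi, h3⟩⟩
  have h0 : MBad le P B₀ f₀ := ⟨hB₀i, hf₀, hP₀, hbad₀⟩
  obtain ⟨I, instI, instW, hunc, hcount⟩ := exists_omega_one
  -- the transfinite sequence
  let good : Set ℕ × (Set ℕ → Q) → Prop := fun p => p.1 ⊆ A₀ ∧ MBad le P p.1 p.2
  let E : Set (Set ℕ × (Set ℕ → Q)) → Set ℕ × (Set ℕ → Q) := fun S =>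
    if h : ∃ p, good p ∧ ∀ q ∈ S, MLt lt p q then h.choose else (B₀, f₀)
  have hE : ∀ S, (∃ p, good p ∧ ∀ q ∈ S, MLt lt p q) → good (E S) ∧ ∀ q ∈ S, MLt lt (E S) q := by
    intro S h
    simp only [E, h, dif_pos]
    exact h.choose_spec
  have hwf : WellFounded ((· < ·) : I → I → Prop) := instW.wf
  let G : I → Set ℕ × (Set ℕ → Q) :=
    hwf.fix (fun i rec => E {q | ∃ (j : I) (hj : j < i), q = rec j hj})
  have hG : ∀ i, G i = E (G '' Iio i) := by
    intro i
    have h1 : G i = E {q | ∃ (j : I) (_ : j < i), q = G j} := hwf.fix_eq _ i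
    rw [h1]
    congr 1
    ext q
    simp only [mem_ofPred_eq, mem_image, mem_Iio]
    constructor
    · rintro ⟨j, hj, rfl⟩; exact ⟨j, hj, rfl⟩
    · rintro ⟨j, hj, rfl⟩; exact ⟨j, hj, rfl⟩
  have hmain : ∀ i, good (G i) ∧ ∀ j < i, MLt lt (G i) (G j) := by
    intro i
    induction i using hwf.induction with
    | _ i ih =>
      have hex : ∃ p, good p ∧ ∀ q ∈ G '' Iio i, MLt lt p q := by
        by_cases hne : (Iio i).Nonempty
        · obtain ⟨t, ht⟩ := (hcount i).exists_eq_range hne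
          have htm : ∀ n, t n < i := fun n => by
            have : t n ∈ Iio i := by rw [ht]; exact mem_range_self n
            exact this
          obtain ⟨p, hp1, hp2⟩ := mba_step wf htr hle hno (fun n => G (t n))
            (fun n => (ih (t n) (htm n)).1) (by
              intro m n
              rcases lt_trichotomy (t m) (t n) with h | h | h
              · right; right; exact (ih (t n) (htm n)).2 (t m) h
              · left; simp only [h]
              · right; left; exact (ih (t m) (htm m)).2 (t n) h)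
          refine ⟨p, hp1, ?_⟩
          rintro _ ⟨j, hj, rfl⟩
          have : j ∈ range t := by rw [← ht]; exact hj
          obtain ⟨n, rfl⟩ := this
          exact hp2 n
        · refine ⟨(B₀, f₀), ⟨hB₀, h0⟩, ?_⟩
          rintro _ ⟨j, hj, rfl⟩
          exact absurd ⟨j, hj⟩ hne
      have h1 := hE _ hex
      rw [← hG i] at h1
      exact ⟨h1.1, fun j hj => h1.2 _ ⟨j, hj, rfl⟩⟩
  -- condensation points
  let pat : ℕ → I → Set ℕ := fun k i => (G i).1 ∩ Iio k
  let N : Set I := {i | ∃ k, {j | pat k j = pat k i}.Countable}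
  have hN : N.Countable := by
    have h1 : N ⊆ ⋃ k : ℕ, ⋃ t ∈ {t | t ∈ 𝒫 (Iio k) ∧ {j | pat k j = t}.Countable},
        {j | pat k j = t} := by
      rintro i ⟨k, hk⟩
      refine mem_iUnion.2 ⟨k, mem_biUnion (x := pat k i) ⟨inter_subset_right, hk⟩ rfl⟩
    refine Countable.mono h1 (countable_iUnion fun k => ?_)
    refine Countable.biUnion ?_ (fun t ht => ht.2)
    exact ((finite_Iio k).powerset.subset fun t ht => ht.1).countable
  -- states
  let SG : I × Set ℕ × Set ℕ → Prop := fun σ => σ.1 ∉ N ∧ σ.2.1.Finite ∧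
    σ.2.1 ⊆ (G σ.1).1 ∧ ((G σ.1).1 \ σ.2.2).Finite
  have hstep : ∀ σ : {σ : I × Set ℕ × Set ℕ // SG σ}, ∃ (x : ℕ) (τ : {σ : I × Set ℕ × Set ℕ // SG σ}),
      x ∈ (G σ.1.1).1 ∧ x ∈ σ.1.2.2 ∧ (∀ y ∈ σ.1.2.1, y < x) ∧ σ.1.1 < τ.1.1 ∧
      τ.1.2.1 = insert x σ.1.2.1 ∧ τ.1.2.2 = σ.1.2.2 ∩ (G σ.1.1).1 := by
    rintro ⟨⟨i, F, R⟩, h1, h2, h3, h4⟩
    simp only at h1 h2 h3 h4 ⊢
    have hinf : ((G i).1 ∩ R).Infinite := by
      have h5 := (hmain i).1.2.inf.sdiff h4
      refine h5.mono ?_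
      rintro x ⟨hx1, hx2⟩
      refine ⟨hx1, ?_⟩
      by_contra hx3
      exact hx2 ⟨hx1, hx3⟩
    obtain ⟨m, hm⟩ := h2.bddAbove
    obtain ⟨x, hx1, hx2⟩ := hinf.exists_gt m
    have hbig : ¬ {j | pat (x + 1) j = pat (x + 1) i}.Countable := fun h => h1 ⟨x + 1, h⟩
    have h6 : ∃ j, j ∈ {j | pat (x + 1) j = pat (x + 1) i} ∧ j ∉ N ∧ i < j := by
      by_contra hno'
      apply hbig
      have h7 : {j | pat (x + 1) j = pat (x + 1) i} ⊆ N ∪ (Iio i ∪ {i}) := by
        intro j hj
        by_cases hjN : j ∈ N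
        · exact Or.inl hjN
        · right
          rcases lt_trichotomy j i with h | h | h
          · exact Or.inl h
          · exact Or.inr h
          · exact absurd ⟨j, hj, hjN, h⟩ hno'
      exact (hN.union ((hcount i).union (countable_singleton i))).mono h7
    obtain ⟨j, hj1, hj2, hj3⟩ := h6
    refine ⟨x, ⟨(j, insert x F, R ∩ (G i).1), hj2, h2.insert x, ?_, ?_⟩, hx1.1, hx1.2, ?_, hj3,
      rfl, rfl⟩
    · intro y hy
      have hy1 : y ∈ pat (x + 1) i := by
        rcases mem_insert_iff.1 hy with h | h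
        · rw [h]; exact ⟨hx1.1, by simp⟩
        · refine ⟨h3 h, ?_⟩
          have := hm h
          simp only [mem_Iio]; omega
      have hj1' : pat (x + 1) j = pat (x + 1) i := hj1
      rw [← hj1'] at hy1
      exact hy1.1
    · refine (((hmain j).2 i hj3).1.union h4).subset ?_
      rintro y ⟨hy1, hy2⟩
      by_cases hy3 : y ∈ (G i).1
      · right
        refine ⟨hy3, fun hy4 => hy2 ⟨hy4, hy3⟩⟩
      · left; exact ⟨hy1, hy3⟩
    · intro y hy
      have := hm hy
      omega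
  choose nx nt hx1 hx2 hx3 hx4 hx5 hx6 using hstep
  obtain ⟨i₀, hi₀⟩ : ∃ i, i ∉ N := by
    by_contra h
    apply hunc
    exact hN.mono fun i _ => by
      by_contra hi
      exact h ⟨i, hi⟩
  let σ₀ : {σ : I × Set ℕ × Set ℕ // SG σ} :=
    ⟨(i₀, ∅, univ), hi₀, finite_empty, empty_subset _, by simp⟩
  let σ : ℕ → {σ : I × Set ℕ × Set ℕ // SG σ} := fun n => Nat.rec σ₀ (fun _ τ => nt τ) n
  have hσ : ∀ n, σ (n + 1) = nt (σ n) := fun n => rfl
  -- monotonicity of the states
  have hF : ∀ m n, n < m → nx (σ n) ∈ (σ m).1.2.1 := by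
    intro m
    induction m with
    | zero => intro n hn; omega
    | succ m ih =>
      intro n hn
      rw [hσ, hx5]
      rcases Nat.lt_succ_iff_lt_or_eq.1 hn with h | h
      · exact mem_insert_of_mem _ (ih n h)
      · rw [h]; exact mem_insert _ _
  have hR : ∀ n m, m < n → (σ n).1.2.2 ⊆ (G (σ m).1.1).1 := by
    intro n
    induction n with
    | zero => intro m hm; omega
    | succ n ih =>
      intro m hm
      rw [hσ, hx6]
      rcases Nat.lt_succ_iff_lt_or_eq.1 hm with h | h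
      · exact inter_subset_left.trans (ih m h)
      · rw [h]; exact inter_subset_right
  have hxm : StrictMono fun n => nx (σ n) := by
    refine strictMono_nat_of_lt_succ fun n => ?_
    exact hx3 (σ (n + 1)) _ (hF (n + 1) n (Nat.lt_succ_self n))
  have hXsub : ∀ m, range (fun n => nx (σ n)) ⊆ (G (σ m).1.1).1 := by
    rintro m _ ⟨n, rfl⟩
    rcases lt_trichotomy n m with h | h | h
    · exact (σ m).2.2.2.1 (hF m n h)
    · rw [h]; exact hx1 _
    · exact hR n m h (hx2 (σ n))
  have hXinf : (range fun n => nx (σ n)).Infinite := infinite_range_of_injective hxm.injective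
  obtain ⟨_, ⟨m, rfl⟩, hmin⟩ := wf.has_min
    (range fun m => (G (σ m).1.1).2 (range fun n => nx (σ n))) ⟨_, 0, rfl⟩
  refine hmin _ ⟨m + 1, rfl⟩ ?_
  have h8 : (σ m).1.1 < (σ (m + 1)).1.1 := hx4 (σ m)
  exact ((hmain _).2 _ h8).2 _ (hXsub (m + 1)) (hXsub m) hXinf

end mba

end Pool.MP_0d2ef4_co
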