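import Pool.Agent.Work.MP_0d2ef4_co.WQ.Basic
import Pool.Agent.Work.MP_0d2ef4_co.WQ.Defs2

/-! Rayless graphs whose blocks are free of induced four vertex paths up to `k`
vertices have coloured decompositions of their blocks. -/

namespace Pool.MP_0d2ef4_co

open Set

universe u

variable {V : Type u} {G : SimpleGraph V}

private lemma p4dec_empty {m : ℕ} (c : V → Fin m) : Dec G c (∅ : Set V) := by
  have h1 := Dec.unif (G := G) (c := c) (fun _ _ => False) PEmpty.{u+1} (fun i => i.elim)
    (fun i => i.elim) (fun i => i.elim)
  rwa [Set.iUnion_of_empty] at h1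

private lemma p4dec_acc (hp : PartStmt.{u}) {S : Set V} (hr : RaylessOn G S) :
    Acc (fun S' S : Set V => PartOn G S' S) S := by
  by_contra h
  rw [not_acc_iff_exists_descending_chain] at h
  obtain ⟨f, h0, h1⟩ := h
  exact hp V G f (h0 ▸ hr) h1

private lemma p4dec_free (hs : SeinStmt.{u}) (hp : PartStmt.{u}) {m : ℕ} (c : V → Fin m)
    {S : Set V} (hr : RaylessOn G S) (h4 : P4FreeOn G S) : Dec G c S := by
  have hacc := p4dec_acc hp hr
  induction hacc with
  | intro S _ ih =>
    by_cases hne : S.Nonempty
    swap
    · rw [Set.not_nonempty_iff_eq_empty.mp hne]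
      exact p4dec_empty c
    obtain ⟨x, hx⟩ := hne
    by_cases hy : ∃ y ∈ S, y ≠ x
    swap
    · have hS : S = {x} := by
        ext z
        constructor
        · intro hz
          by_contra hzx
          exact hy ⟨z, hz, hzx⟩
        · rintro rfl
          exact hx
      rw [hS]
      exact Dec.single x
    by_cases hc : ∀ a ∈ S, ∀ b ∈ S, Cn G S a b
    · obtain ⟨S', h1, h2, h3, h5⟩ := hs V G S hr h4 hc x hx hy
      have hP1 : PartOn G S' S := ⟨h1, h2, h3, Or.inr h5⟩
      have hne2 : (S \ S').Nonempty := by
        by_contra h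
        rw [Set.not_nonempty_iff_eq_empty, Set.sdiff_eq_empty] at h
        exact h3 (Set.Subset.antisymm h1 h)
      have hP2 : PartOn G (S \ S') S := by
        refine ⟨Set.sdiff_subset, hne2, ?_, Or.inr ?_⟩
        · intro h
          obtain ⟨z, hz⟩ := h2
          have hz' : z ∈ S \ S' := by rw [h]; exact h1 hz
          exact hz'.2 hz
        · rintro a ha b hb
          have hb' : b ∈ S' := by
            by_contra hb'
            exact hb.2 ⟨hb.1, hb'⟩
          exact (h5 b hb' a ha).symm
      have hD1 : Dec G c S' := ih S' hP1 (hr.mono h1) (h4.mono h1)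
      have hD2 : Dec G c (S \ S') :=
        ih (S \ S') hP2 (hr.mono Set.sdiff_subset) (h4.mono Set.sdiff_subset)
      have h6 := Dec.unif (G := G) (c := c) (fun _ _ => True) (ULift.{u} Bool)
        (fun i => if i.down then S' else S \ S')
        (by
          rintro ⟨i⟩
          cases i
          · simpa using hD2
          · simpa using hD1)
        (by
          rintro ⟨i⟩ ⟨j⟩ hij p hpi q hqj
          cases i <;> cases j
          · exact absurd rfl hij
          · simp only [Bool.false_eq_true, if_false, if_true] at hpi hqj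
            exact ⟨fun h => hpi.2 (h ▸ hqj), iff_of_true (h5 q hqj p hpi).symm trivial⟩
          · simp only [Bool.false_eq_true, if_false, if_true] at hpi hqj
            exact ⟨fun h => hqj.2 (h ▸ hpi), iff_of_true (h5 p hpi q hqj) trivial⟩
          · exact absurd rfl hij)
      have h7 : (⋃ i : ULift.{u} Bool, if i.down then S' else S \ S') = S := by
        ext z
        rw [Set.mem_iUnion]
        constructor
        · rintro ⟨⟨i⟩, hi⟩
          cases i
          · exact (by simpa using hi : z ∈ S ∧ z ∉ S').1
          · exact h1 (by simpa using hi)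
        · intro hz
          by_cases hz' : z ∈ S'
          · exact ⟨⟨true⟩, by simpa using hz'⟩
          · exact ⟨⟨false⟩, by simpa using ⟨hz, hz'⟩⟩
      rwa [h7] at h6
    · have h6 := Dec.unif (G := G) (c := c) (fun _ _ => False)
        {C : Set V // ∃ a ∈ S, C = cmp G S a} (fun C => C.1)
        (by
          rintro ⟨C, a, ha, rfl⟩
          have hP : PartOn G (cmp G S a) S := by
            refine ⟨cmp_subset, ⟨a, self_mem_cmp ha⟩, ?_, Or.inl ⟨a, ha, rfl⟩⟩
            intro h
            apply hc
            intro p hp' q hq'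
            have hp2 : p ∈ cmp G S a := by rw [h]; exact hp'
            have hq2 : q ∈ cmp G S a := by rw [h]; exact hq'
            exact (Cn.symm hp2).trans hq2
          exact ih _ hP (hr.mono cmp_subset) (h4.mono cmp_subset))
        (by
          rintro ⟨C, a, ha, rfl⟩ ⟨D, b, hb, rfl⟩ hij p hpi q hqj
          have hne' : ¬ Cn G S p q := by
            intro hpq
            apply hij
            apply Subtype.ext
            show cmp G S a = cmp G S b
            have hpi' : Cn G S a p := hpi
            have hqj' : Cn G S b q := hqj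
            exact cmp_eq ((hpi'.trans hpq).trans hqj'.symm)
          have hpS : p ∈ S := cmp_subset hpi
          have hqS : q ∈ S := cmp_subset hqj
          refine ⟨fun h => hne' (h ▸ Cn.refl hpS), iff_of_false ?_ not_false⟩
          intro h
          exact hne' (Cn.of_adj hpS hqS h))
      have h7 : (⋃ C : {C : Set V // ∃ a ∈ S, C = cmp G S a}, C.1) = S := by
        ext z
        rw [Set.mem_iUnion]
        constructor
        · rintro ⟨⟨C, a, ha, rfl⟩, hz⟩
          exact cmp_subset hz
        · intro hz
          exact ⟨⟨cmp G S z, z, hz, rfl⟩, self_mem_cmp hz⟩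
      rwa [h7] at h6

theorem p4dec_block (hs : SeinStmt.{u}) (hp : PartStmt.{u}) (k : ℕ) (V : Type u)
    (G : SimpleGraph V) (hray : RaylessOn G univ) (S : Set V) (F : Finset V) (hF : F.card ≤ k)
    (h4 : P4FreeOn G (S \ ↑F)) : ∃ c : V → Fin (2 ^ k + k + 1), Dec G c S := by
  classical
  have hr : RaylessOn G (S \ ↑F) := hray.mono (Set.subset_univ _)
  obtain ⟨code⟩ : Nonempty (Set (Fin k) ↪ Fin (2 ^ k + k + 1)) := by
    apply Function.Embedding.nonempty_of_card_le
    simp only [Fintype.card_set, Fintype.card_fin]
    omega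
  obtain ⟨e⟩ : Nonempty (F ↪ Fin k) := by
    apply Function.Embedding.nonempty_of_card_le
    simpa using hF
  have hb : ∀ t : Fin k, t.1 + 1 < 2 ^ k + k + 1 := fun t =>
    Nat.lt_succ_of_le (Nat.le_trans (Nat.succ_le_of_lt t.2) (Nat.le_add_left _ _))
  set idx : V → Fin (2 ^ k + k + 1) := fun x =>
    if hx : x ∈ F then ⟨(e ⟨x, hx⟩).1 + 1, hb _⟩ else ⟨0, Nat.succ_pos _⟩
    with hidx
  have idx_pos : ∀ x (hx : x ∈ F), (idx x).1 = (e ⟨x, hx⟩).1 + 1 := by
    intro x hx
    simp only [hidx, dif_pos hx]
  have idx_neg : ∀ x, x ∉ F → (idx x).1 = 0 := by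
    intro x hx
    simp only [hidx, dif_neg hx]
  set vec : V → Set (Fin k) := fun y => {t | ∃ f, ∃ hf : f ∈ F, e ⟨f, hf⟩ = t ∧ G.Adj y f}
    with hvec
  have mem_vec : ∀ x (hx : x ∈ F) y, G.Adj y x ↔ e ⟨x, hx⟩ ∈ vec y := by
    intro x hx y
    constructor
    · intro h
      exact ⟨x, hx, rfl, h⟩
    · rintro ⟨f, hf, h1, h2⟩
      have h3 := e.injective h1
      have h4 : f = x := congrArg Subtype.val h3
      rwa [h4] at h2
  refine ⟨fun y => code (vec y), ?_⟩
  have h6 := Dec.fin (G := G) (c := fun y => code (vec y))
    (fun i j a b => if i.1 = 0 then ∃ s, code s = a ∧ ∃ t ∈ s, t.1 + 1 = j.1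
      else ∃ s, code s = b ∧ ∃ t ∈ s, t.1 + 1 = i.1)
    (fun i => {x | x ∈ S ∧ idx x = i})
    (by
      intro i
      by_cases hi : i.1 = 0
      · have h7 : {x | x ∈ S ∧ idx x = i} = S \ ↑F := by
          ext x
          simp only [Set.mem_ofPred_eq, Set.mem_sdiff, Finset.mem_coe]
          constructor
          · rintro ⟨hx, hxi⟩
            refine ⟨hx, fun hxF => ?_⟩
            have := idx_pos x hxF
            rw [hxi, hi] at this
            omega
          · rintro ⟨hx, hxF⟩
            refine ⟨hx, Fin.ext ?_⟩
            rw [idx_neg x hxF, hi]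
        rw [h7]
        exact p4dec_free hs hp _ hr h4
      · by_cases hne : ({x | x ∈ S ∧ idx x = i} : Set V).Nonempty
        · obtain ⟨x, hx, hxi⟩ := hne
          have h7 : {x | x ∈ S ∧ idx x = i} = {x} := by
            ext y
            simp only [Set.mem_ofPred_eq, Set.mem_singleton_iff]
            constructor
            · rintro ⟨hy, hyi⟩
              have hxF : x ∈ F := by
                by_contra h
                exact hi (by rw [← hxi, idx_neg x h])
              have hyF : y ∈ F := by
                by_contra h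
                exact hi (by rw [← hyi, idx_neg y h])
              have h8 : (e ⟨y, hyF⟩).1 + 1 = (e ⟨x, hxF⟩).1 + 1 := by
                rw [← idx_pos y hyF, ← idx_pos x hxF, hyi, hxi]
              have h9 : e ⟨y, hyF⟩ = e ⟨x, hxF⟩ := Fin.ext (by omega)
              exact congrArg Subtype.val (e.injective h9)
            · rintro rfl
              exact ⟨hx, hxi⟩
          rw [h7]
          exact Dec.single x
        · rw [Set.not_nonempty_iff_eq_empty.mp hne]
          exact p4dec_empty _)
    (by
      rintro i j hij x ⟨hx, hxi⟩ y ⟨hy, hyj⟩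
      refine ⟨fun h => hij (by rw [← hxi, ← hyj, h]), ?_⟩
      have key : ∀ p (hp : p ∈ F) q (l : Fin (2 ^ k + k + 1)), idx p = l →
          (G.Adj q p ↔ ∃ s, code s = code (vec q) ∧ ∃ t ∈ s, t.1 + 1 = l.1) := by
        intro p hp q l hl
        rw [mem_vec p hp q]
        have h8 := idx_pos p hp
        rw [hl] at h8
        constructor
        · intro h
          exact ⟨vec q, rfl, _, h, h8.symm⟩
        · rintro ⟨s, hs, t, ht, h9⟩
          have h10 := code.injective hs
          have h11 : t = e ⟨p, hp⟩ := Fin.ext (by omega)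
          rw [← h10, ← h11]
          exact ht
      by_cases hi : i.1 = 0
      · rw [if_pos hi]
        have hyF : y ∈ F := by
          by_contra h
          apply hij
          apply Fin.ext
          rw [hi, ← hyj, idx_neg y h]
        exact key y hyF x j hyj
      · rw [if_neg hi]
        have hxF : x ∈ F := by
          by_contra h
          exact hi (by rw [← hxi, idx_neg x h])
        rw [G.adj_comm]
        exact key x hxF y i hxi)
  have h7 : (⋃ i, {x | x ∈ S ∧ idx x = i}) = S := by
    ext x
    rw [Set.mem_iUnion]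
    constructor
    · rintro ⟨i, hx, _⟩
      exact hx
    · intro hx
      exact ⟨idx x, hx, rfl⟩
  rwa [h7] at h6

theorem p4dec_holds (hs : SeinStmt.{u}) (hp : PartStmt.{u}) : P4DecStmt.{u} := by
  intro k
  refine ⟨2 ^ k + k + 1, ?_⟩
  intro V G hray hcls S hS
  obtain ⟨F, hF, h4⟩ := hcls S hS
  exact p4dec_block hs hp k V G hray S F hF h4

end Pool.MP_0d2ef4_co
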