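import Pool.Agent.Work.MP_0d2ef4_co.WQ.Basic

/-! Parts are well founded in rayless sets. -/

namespace Pool.MP_0d2ef4_co

open Set

universe u

private lemma part_step {V : Type u} {G : SimpleGraph V} {S : ℕ → Set V}
    (hS : ∀ n, PartOn G (S (n + 1)) (S n)) (n : ℕ) :
    ∃ t, t ∈ S n ∧ t ∉ S (n + 2) ∧ ∀ b ∈ S (n + 2), G.Adj t b := by
  obtain ⟨h1, -, h3, h4⟩ := hS n
  obtain ⟨k1, -, k3, k4⟩ := hS (n + 1)
  rcases h4 with ⟨a, ha, hSa⟩ | hb
  · rcases k4 with ⟨a', ha', hSa'⟩ | kb
    · exfalso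
      apply k3
      refine Subset.antisymm k1 fun b hb => ?_
      have hc : Cn G (S (n + 1)) a' b := by
        have h5 : Cn G (cmp G (S n) a) a' b := by
          apply cmp_conn
          · rw [← hSa]; exact ha'
          · rw [← hSa]; exact hb
        rw [← hSa] at h5
        exact h5
      have h6 : b ∈ cmp G (S (n + 1)) a' := hc
      rw [← hSa'] at h6
      exact h6
    · obtain ⟨t, ht, ht'⟩ := not_subset.1 (fun h => k3 (Subset.antisymm k1 h))
      exact ⟨t, h1 ht, ht', fun b hb => (kb b hb t ⟨ht, ht'⟩).symm⟩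
  · obtain ⟨t, ht, ht'⟩ := not_subset.1 (fun h => h3 (Subset.antisymm h1 h))
    exact ⟨t, ht, fun h => ht' (k1 h), fun b hb' => (hb b (k1 hb') t ⟨ht, ht'⟩).symm⟩

/-- Parts are well founded in rayless sets. -/
theorem part_holds (_h : RayStmt.{u}) : PartStmt.{u} := by
  intro V G S hray hS
  have hanti : ∀ m n, m ≤ n → S n ⊆ S m := by
    intro m n hmn
    induction hmn with
    | refl => exact Subset.rfl
    | step _ ih => exact (hS _).1.trans ih
  choose t ht1 ht2 ht3 using fun n => part_step hS (2 * n)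
  have hlt : ∀ m n, m < n → t m ≠ t n := by
    intro m n hmn h
    apply ht2 m
    rw [h]
    exact hanti (2 * m + 2) (2 * n) (by omega) (ht1 n)
  apply hray
  refine ⟨t, ?_, fun n => hanti 0 (2 * n) (Nat.zero_le _) (ht1 n), fun n => ?_⟩
  · intro m n h
    rcases lt_trichotomy m n with h' | h' | h'
    · exact absurd h (hlt m n h')
    · exact h'
    · exact absurd h.symm (hlt n m h')
  · exact ht3 n _ (hanti (2 * n + 2) (2 * (n + 1)) (by omega) (ht1 (n + 1)))

end Pool.MP_0d2ef4_co
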