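import Pool.Agent.Work.MP_0d2ef4_co.WQ.Basic

/-! A connected rayless set without induced path on four vertices is a join. -/

namespace Pool.MP_0d2ef4_co

open Set

universe u

variable {V : Type u} {G : SimpleGraph V} {S : Set V} {x : V}

private lemma sein_second (hP : P4FreeOn G S) (hx : x ∈ S)
    (hC : ∀ a ∈ S, ∀ b ∈ S, Cn G S a b) {b : V} (hb : b ∈ S) (hbx : b ≠ x)
    (hxb : ¬ G.Adj x b) : ∃ a ∈ S, G.Adj x a ∧ G.Adj a b := by
  have key : b = x ∨ G.Adj x b ∨ ∃ a ∈ S, G.Adj x a ∧ G.Adj a b := by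
    refine Cn.induct (p := fun v => v = x ∨ G.Adj x v ∨ ∃ a ∈ S, G.Adj x a ∧ G.Adj a v)
      (hC x hx b hb) (Or.inl rfl) ?_
    intro u w hu huw hw h1
    by_cases hwx : w = x
    · exact Or.inl hwx
    by_cases hxw : G.Adj x w
    · exact Or.inr (Or.inl hxw)
    right; right
    by_cases hux : u = x
    · exact absurd (hux ▸ huw) hxw
    by_cases hxu : G.Adj x u
    · exact ⟨u, hu.right, hxu, huw⟩
    rcases h1 with h1 | h1 | ⟨a, ha, hxa, hau⟩
    · exact absurd h1 hux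
    · exact absurd h1 hxu
    · by_cases haw : G.Adj a w
      · exact ⟨a, ha, hxa, haw⟩
      · exact (hP x a u w hx ha hu.right hw hxa hau huw hxu haw hxw).elim
  rcases key with h1 | h1 | h1
  · exact absurd h1 hbx
  · exact absurd h1 hxb
  · exact h1

private lemma sein_comp (hP : P4FreeOn G S) (hx : x ∈ S) {k k' : V} (hk : k ∈ S) (hk' : k' ∈ S)
    (hxk : ¬ G.Adj x k) (hxk' : ¬ G.Adj x k') :
    (∀ a ∈ S, G.Adj x a → G.Adj a k → G.Adj a k') ∨
      ∀ a ∈ S, G.Adj x a → G.Adj a k' → G.Adj a k := by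
  by_contra hcon
  push Not at hcon
  obtain ⟨⟨a, ha, hxa, hak, hak'⟩, a', ha', hxa', hak2, hak3⟩ := hcon
  have hkk' : ¬ G.Adj k k' := fun h =>
    hP x a k k' hx ha hk hk' hxa hak h hxk hak' hxk'
  by_cases haa : G.Adj a a'
  · exact hP k a a' k' hk ha ha' hk' hak.symm haa hak2 (fun h => hak3 h.symm) hak' hkk'
  · exact hP k a x a' hk ha hx ha' hak.symm hxa.symm hxa' (fun h => hxk h.symm) haa
      (fun h => hak3 h.symm)

theorem sein_holds (h : RayStmt.{u}) : SeinStmt.{u} := by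
  intro V G S hR hP hC x hx hy
  obtain ⟨y, hy, hyx⟩ := hy
  by_cases hB : ∃ b ∈ S, b ≠ x ∧ ¬ G.Adj x b
  swap
  · push Not at hB
    refine ⟨{x}, by simpa using hx, ⟨x, rfl⟩, ?_, ?_⟩
    · intro h1
      have : y ∈ ({x} : Set V) := h1 ▸ hy
      exact hyx this
    · rintro a rfl b ⟨hb, hbx⟩
      exact hB b hb hbx
  by_cases hA : ∃ a ∈ S, G.Adj x a ∧ ∀ b ∈ S, b ≠ x → ¬ G.Adj x b → G.Adj a b
  · obtain ⟨a0, ha0, hxa0, ha0B⟩ := hA
    refine ⟨{a | a ∈ S ∧ G.Adj x a ∧ ∀ b ∈ S, b ≠ x → ¬ G.Adj x b → G.Adj a b},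
      fun a ha => ha.1, ⟨a0, ha0, hxa0, ha0B⟩, ?_, ?_⟩
    · intro h1
      have h2 : x ∈ {a | a ∈ S ∧ G.Adj x a ∧ ∀ b ∈ S, b ≠ x → ¬ G.Adj x b → G.Adj a b} := by
        rw [h1]; exact hx
      exact G.loopless.irrefl x h2.2.1
    · rintro a ⟨ha, hxa, haB⟩ c ⟨hc, hcS⟩
      by_cases hcx : c = x
      · rw [hcx]; exact hxa.symm
      by_cases hxc : G.Adj x c
      · by_contra hac
        apply hcS
        refine ⟨hc, hxc, ?_⟩
        intro k hk hkx hxk
        by_contra hck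
        exact hP c x a k hc hx ha hk hxc.symm hxa (haB k hk hkx hxk) (fun h => hac h.symm) hxk hck
      · exact haB c hc hcx hxc
  exfalso
  push Not at hA
  obtain ⟨b0, hb0, hb0x, hxb0⟩ := hB
  let T := {p : V × V // (p.1 ∈ S ∧ G.Adj x p.1) ∧ (p.2 ∈ S ∧ p.2 ≠ x ∧ ¬ G.Adj x p.2) ∧
    G.Adj p.1 p.2}
  have hT0 : Nonempty T := by
    obtain ⟨a, ha, hxa, hab⟩ := sein_second hP hx hC hb0 hb0x hxb0
    exact ⟨⟨(a, b0), ⟨ha, hxa⟩, ⟨hb0, hb0x, hxb0⟩, hab⟩⟩
  have hnext : ∀ p : T, ∃ q : T, ¬ G.Adj p.1.1 q.1.2 := by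
    intro p
    obtain ⟨k, hk, hkx, hxk, hak⟩ := hA p.1.1 p.2.1.1 p.2.1.2
    obtain ⟨a, ha, hxa, hab⟩ := sein_second hP hx hC hk hkx hxk
    exact ⟨⟨(a, k), ⟨ha, hxa⟩, ⟨hk, hkx, hxk⟩, hab⟩, hak⟩
  choose nx hnx using hnext
  obtain ⟨p0⟩ := hT0
  let s : ℕ → T := fun n => Nat.rec p0 (fun _ p => nx p) n
  have hs : ∀ n, ¬ G.Adj (s n).1.1 (s (n + 1)).1.2 := fun n => hnx (s n)
  have hsub : ∀ n, ∀ m ≤ n, ∀ a ∈ S, G.Adj x a → G.Adj a (s n).1.2 → G.Adj a (s m).1.2 := by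
    intro n
    induction n with
    | zero =>
      intro m hm a _ _ h1
      have hm0 : m = 0 := Nat.le_zero.mp hm
      rw [hm0]; exact h1
    | succ n ih =>
      intro m hm a ha hxa h1
      rcases Nat.lt_or_ge m (n + 1) with h2 | h2
      · have h3 : m ≤ n := Nat.lt_succ_iff.mp h2
        rcases sein_comp hP hx (s (n + 1)).2.2.1.1 (s m).2.2.1.1 (s (n + 1)).2.2.1.2.2
          (s m).2.2.1.2.2 with h4 | h4
        · exact h4 a ha hxa h1
        · exact absurd (h4 _ (s n).2.1.1 (s n).2.1.2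
            (ih m h3 _ (s n).2.1.1 (s n).2.1.2 (s n).2.2.2)) (hs n)
      · have h3 : m = n + 1 := le_antisymm hm h2
        rw [h3]; exact h1
  have hnot : ∀ m n, m < n → ¬ G.Adj (s m).1.1 (s n).1.2 := by
    intro m n hmn h1
    exact hs m (hsub n (m + 1) hmn _ (s m).2.1.1 (s m).2.1.2 h1)
  refine h V G S (fun n => {(s n).1.1, (s n).1.2}) ?_ ?_ ?_ ?_ hR
  · rintro n a (rfl | rfl)
    · exact (s n).2.1.1
    · exact (s n).2.2.1.1
  · intro m n hmn
    rw [Set.disjoint_left]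
    rintro a ha hb
    simp only [Set.mem_insert_iff, Set.mem_singleton_iff] at ha hb
    rcases ha with ha | ha <;> rcases hb with hb | hb
    · apply hnot m n hmn
      rw [← ha, hb]; exact (s n).2.2.2
    · apply (s n).2.2.1.2.2
      rw [← hb, ha]; exact (s m).2.1.2
    · apply (s m).2.2.1.2.2
      rw [← ha, hb]; exact (s n).2.1.2
    · apply hnot m n hmn
      rw [← hb, ha]; exact (s m).2.2.2
  · intro n a ha b hb
    have h1 : Cn G ({(s n).1.1, (s n).1.2} : Set V) (s n).1.1 (s n).1.2 :=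
      Cn.of_adj (by simp) (by simp) (s n).2.2.2
    simp only [Set.mem_insert_iff, Set.mem_singleton_iff] at ha hb
    rcases ha with rfl | rfl <;> rcases hb with rfl | rfl
    · exact Cn.refl (by simp)
    · exact h1
    · exact h1.symm
    · exact Cn.refl (by simp)
  · intro n
    refine ⟨(s n).1.2, by simp, (s (n + 1)).1.1, by simp, ?_⟩
    exact (hsub (n + 1) n (Nat.le_succ n) _ (s (n + 1)).2.1.1 (s (n + 1)).2.1.2
      (s (n + 1)).2.2.2).symm

end Pool.MP_0d2ef4_co
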