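import Pool.Agent.Work.MP_0d2ef4_co.WQ.Basic
import Pool.Agent.Work.MP_0d2ef4_co.WQ.Arr
import Pool.Agent.Work.MP_0d2ef4_co.WQ.Defs2

/-! Rooted graphs are better-quasi-ordered under rooted minors. -/

namespace Pool.MP_0d2ef4_co

open Set

universe u v

theorem rg2_holds (hm : MBAStmt.{u + 1}) (hf : FamStmt.{u, u + 1}) (hb : BS2Stmt.{u})
    (ht : TwoConStmt.{u}) (hg : GlueStmt.{u}) (hl : LtFacts.{u}) : RG2Stmt.{u} := by
  intro m
  by_contra hcon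
  obtain ⟨B, _, hBi, g, hga, hgP, hgbad, hgNB⟩ := hm RG.{u} RMin.{u} RG.lt.{u} hl.wf hl.trans hl.le
    (fun _ x => Cn x.G univ x.r x.v ∧ RaylessOn x.G univ ∧ ClsD m x.G) (by
      rintro X a b ⟨h1, h2, h3⟩ ⟨w, rfl, h4, _, _⟩
      exact ⟨h4.1, h2, h3⟩) univ hcon
  have h1 := hb m (fun X q => RG.lt q (g X)) B hgNB
  have h2 := hf BS.{u} BS.le.{u} _ B h1
  obtain ⟨X, hX, hXi, hle⟩ := h2 B Subset.rfl hBi (fun X => (g X).fam) (hga.comp RG.fam) (by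
    rintro X hX hXi ⟨C, c, hc, rfl⟩
    obtain ⟨h3, h4, h5⟩ := hgP X hX hXi
    refine ⟨?_, ?_, ?_⟩
    · intro hv
      have := cmp_subset hv
      exact this.2.1 rfl
    · exact h5 _ (ht _ _ _ _ _ hc)
    · intro w hw
      have hw' := cmp_subset hw
      exact ⟨w, rfl, hw'.1, hw'.2.1, h4⟩)
  refine hgbad X hX hXi (hg _ _ (hgP X hX hXi).1 ?_ hle)
  exact (hgP (tl X) ((tl_subset X).trans hX) (tl_infinite hXi)).1

end Pool.MP_0d2ef4_co
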