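import Pool.Agent.Work.MP_0d2ef4_co.WQ.Top
import Pool.Agent.Work.MP_0d2ef4_co.WQ.RG2
import Pool.Agent.Work.MP_0d2ef4_co.WQ.I_MBA
import Pool.Agent.Work.MP_0d2ef4_co.WQ.I_TSEQ
import Pool.Agent.Work.MP_0d2ef4_co.WQ.I_FAM
import Pool.Agent.Work.MP_0d2ef4_co.WQ.I_RAY
import Pool.Agent.Work.MP_0d2ef4_co.WQ.I_PART
import Pool.Agent.Work.MP_0d2ef4_co.WQ.I_SEIN
import Pool.Agent.Work.MP_0d2ef4_co.WQ.I_DOM
import Pool.Agent.Work.MP_0d2ef4_co.WQ.I_TWO
import Pool.Agent.Work.MP_0d2ef4_co.WQ.I_GLUE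
import Pool.Agent.Work.MP_0d2ef4_co.WQ.I_LT
import Pool.Agent.Work.MP_0d2ef4_co.WQ.I_CS2
import Pool.Agent.Work.MP_0d2ef4_co.WQ.I_BS2
import Pool.Agent.Work.MP_0d2ef4_co.WQ.I_P4DEC

/-! Assembly. -/

namespace Pool.MP_0d2ef4_co

open Set

universe u

lemma Dec.castLE {V : Type u} {G : SimpleGraph V} {m m' : ℕ} (h : m ≤ m') {c : V → Fin m}
    {S : Set V} (hS : Dec G c S) : Dec G (fun x => Fin.castLE h (c x)) S := by
  induction hS with
  | single v => exact Dec.single v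
  | unif D I S _ hD ih =>
    refine Dec.unif (fun a b => ∃ a₀ b₀, Fin.castLE h a₀ = a ∧ Fin.castLE h b₀ = b ∧ D a₀ b₀)
      I S ih ?_
    intro i j hij x hx y hy
    obtain ⟨h1, h2⟩ := hD i j hij x hx y hy
    refine ⟨h1, ?_⟩
    rw [h2]
    constructor
    · intro h3; exact ⟨_, _, rfl, rfl, h3⟩
    · rintro ⟨a₀, b₀, h3, h4, h5⟩
      rw [← Fin.castLE_injective h h3, ← Fin.castLE_injective h h4]
      exact h5
  | fin D S _ hD ih =>
    have h0 : (⋃ i : Fin m', if hi : i.1 < m then S ⟨i.1, hi⟩ else ∅) = ⋃ i, S i := by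
      ext x
      simp only [mem_iUnion]
      constructor
      · rintro ⟨i, hi⟩
        by_cases him : i.1 < m
        · rw [dif_pos him] at hi; exact ⟨_, hi⟩
        · rw [dif_neg him] at hi; exact absurd hi (notMem_empty x)
      · rintro ⟨i, hi⟩
        refine ⟨Fin.castLE h i, ?_⟩
        have : (Fin.castLE h i).1 < m := i.2
        rw [dif_pos this]
        exact hi
    rw [← h0]
    refine Dec.fin (fun i j a b => ∃ i₀ j₀ a₀ b₀, Fin.castLE h i₀ = i ∧ Fin.castLE h j₀ = j ∧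
      Fin.castLE h a₀ = a ∧ Fin.castLE h b₀ = b ∧ D i₀ j₀ a₀ b₀) _ ?_ ?_
    · intro i
      by_cases him : i.1 < m
      · rw [dif_pos him]; exact ih _
      · rw [dif_neg him]
        have h1 := Dec.unif (G := G) (c := fun x => Fin.castLE h (c x)) (fun _ _ => False)
          PEmpty.{u+1} (fun i => i.elim) (fun i => i.elim) (fun i => i.elim)
        rwa [Set.iUnion_of_empty] at h1
    · intro i j hij x hx y hy
      by_cases him : i.1 < m
      swap
      · rw [dif_neg him] at hx; exact absurd hx (notMem_empty x)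
      by_cases hjm : j.1 < m
      swap
      · rw [dif_neg hjm] at hy; exact absurd hy (notMem_empty y)
      rw [dif_pos him] at hx
      rw [dif_pos hjm] at hy
      have hij' : (⟨i.1, him⟩ : Fin m) ≠ ⟨j.1, hjm⟩ := by
        intro h3
        apply hij
        have := congrArg Fin.val h3
        exact Fin.ext this
      obtain ⟨h1, h2⟩ := hD _ _ hij' x hx y hy
      refine ⟨h1, ?_⟩
      rw [h2]
      constructor
      · intro h3; exact ⟨_, _, _, _, rfl, rfl, rfl, rfl, h3⟩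
      · rintro ⟨i₀, j₀, a₀, b₀, h3, h4, h5, h6, h7⟩
        have h8 : i₀ = ⟨i.1, him⟩ := Fin.ext (show i₀.1 = i.1 from congrArg Fin.val h3)
        have h9 : j₀ = ⟨j.1, hjm⟩ := Fin.ext (show j₀.1 = j.1 from congrArg Fin.val h4)
        rw [← Fin.castLE_injective h h5, ← Fin.castLE_injective h h6, ← h8, ← h9]
        exact h7

theorem class_bqo (m : ℕ) (V : ℕ → Type u) (G : ∀ n, SimpleGraph (V n))
    (hG : ∀ n, InClass m (G n)) (c : Set ℕ → ℕ) (hc : Measurable c) :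
    ∃ X : Set ℕ, X.Infinite ∧ IsMinor (G (c X)) (G (c (X \ {sInf X}))) := by
  have hfam : FamStmt.{u, u + 1} := fam_holds (tseq_holds mba_holds)
  have hray : RayStmt.{u} := ray_holds
  have hpart : PartStmt.{u} := part_holds hray
  have hsein : SeinStmt.{u} := sein_holds hray
  have hdom : DomFacts.{u} := dom_holds
  have hcs : CS2Stmt.{u, u + 1} := cs2_holds mba_holds hfam
  have hrg : RG2Stmt.{u} := rg2_holds mba_holds hfam (bs2_holds hcs) (twocon_holds hdom)
    (glue_holds hdom) (lt_holds hdom hray)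
  refine bqo_of_rg hfam hrg (2 ^ m + m + 1) V G (fun n => ?_) c hc
  have h1 : RaylessOn (G n) univ := rayless_iff.1 (hG n).1
  refine ⟨h1, fun S hS => ?_⟩
  rcases (hG n).2 S (twoCon_iff.2 hS) with ⟨c, hc⟩ | ⟨F, hF, h4⟩
  · exact ⟨_, hc.castLE (Nat.le_succ_of_le (Nat.le_add_left m (2 ^ m)))⟩
  · refine p4dec_block hsein hpart m (V n) (G n) h1 S F hF ?_
    intro a b c d ha hb hc hd h2 h3 h5 h6 h7 h8
    exact h4 a ha b hb c hc d hd ⟨h2, h3, h5, h6, h7, h8⟩

theorem class_wqo (m : ℕ) (V : ℕ → Type u) (G : ∀ n, SimpleGraph (V n))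
    (hG : ∀ n, InClass m (G n)) : ∃ i j, i < j ∧ IsMinor (G i) (G j) := by
  obtain ⟨X, hX, h⟩ := class_bqo m V G hG (fun X => sInf X) measurable_sInf'
  exact ⟨_, _, sInf_lt_sInf_tl hX, h⟩

end Pool.MP_0d2ef4_co
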