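import Pool.Agent.Work.MP_0d2ef4_co.WQ.Basic
import Pool.Agent.Work.MP_0d2ef4_co.WQ.Arr

/-! Blocks at the root: from labelled sets without induced path on four vertices
to blocks that have this property after the deletion of at most `k` vertices. -/

namespace Pool.MP_0d2ef4_co

open Set

universe u v

/-- The condition on a block. -/
private def bsGood (k : ℕ) (b : BS.{u}) : Prop :=
  ∃ F : Finset b.V, F.card ≤ k ∧ P4FreeOn b.G (insert b.v b.C \ ↑F)

private lemma bs_p4_mono {V : Type u} {G : SimpleGraph V} {S T : Set V} (h : S ⊆ T)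
    (hT : P4FreeOn G T) : P4FreeOn G S := by
  intro a b c d ha hb hc hd h1 h2 h3 h4 h5 h6
  exact hT a b c d (h ha) (h hb) (h hc) (h hd) h1 h2 h3 h4 h5 h6

/-- An enumeration of the deleted vertices. -/
private lemma bs_enum (k : ℕ) (b : BS.{u}) (h : bsGood k b) :
    ∃ e : Fin k → b.V, (∀ i, e i ∈ insert b.v b.C) ∧
      P4FreeOn b.G (insert b.v b.C \ range e) := by
  classical
  obtain ⟨F, hF, hP⟩ := h
  set F' : Finset b.V := F.filter (fun x => x ∈ insert b.v b.C) with hF'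
  have hcard : F'.card ≤ k := (Finset.card_filter_le _ _).trans hF
  refine ⟨fun i => F'.toList.getD i.1 b.v, ?_, ?_⟩
  · intro i
    by_cases hi : i.1 < F'.toList.length
    · have h1 : F'.toList.getD i.1 b.v = F'.toList[i.1] := List.getD_eq_getElem _ _ hi
      have h2 : F'.toList[i.1] ∈ F'.toList := List.getElem_mem hi
      have h3 : F'.toList[i.1] ∈ F' := Finset.mem_toList.1 h2
      show F'.toList.getD i.1 b.v ∈ insert b.v b.C
      rw [h1]
      exact (Finset.mem_filter.1 h3).2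
    · have h1 : F'.toList.getD i.1 b.v = b.v := List.getD_eq_default _ _ (by omega)
      show F'.toList.getD i.1 b.v ∈ insert b.v b.C
      rw [h1]
      exact mem_insert _ _
  · refine bs_p4_mono ?_ hP
    rintro x ⟨hx1, hx2⟩
    refine ⟨hx1, fun hx3 => hx2 ?_⟩
    have hx4 : x ∈ F' := Finset.mem_filter.2 ⟨hx3, hx1⟩
    obtain ⟨n, hn, hn2⟩ := List.getElem_of_mem (Finset.mem_toList.2 hx4)
    have hn3 : n < k := by
      have : F'.toList.length = F'.card := Finset.length_toList _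
      omega
    refine ⟨⟨n, hn3⟩, ?_⟩
    show F'.toList.getD n b.v = x
    rw [List.getD_eq_getElem _ _ hn]
    exact hn2

/-- The chosen enumeration. -/
private noncomputable def bsE (k : ℕ) (b : BS.{u}) : Fin k → b.V := by
  classical
  exact if h : bsGood k b then (bs_enum k b h).choose else fun _ => b.v

private lemma bsE_mem (k : ℕ) (b : BS.{u}) (i : Fin k) : bsE k b i ∈ insert b.v b.C := by
  classical
  unfold bsE
  by_cases h : bsGood k b
  · rw [dif_pos h]
    exact (bs_enum k b h).choose_spec.1 i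
  · rw [dif_neg h]
    exact mem_insert _ _

private lemma bsE_p4 (k : ℕ) (b : BS.{u}) (h : bsGood k b) :
    P4FreeOn b.G (insert b.v b.C \ range (bsE k b)) := by
  classical
  unfold bsE
  rw [dif_pos h]
  exact (bs_enum k b h).choose_spec.2

/-- Labels. -/
private abbrev BSL (k : ℕ) : Type (u + 1) := Option RG.{u} × (Fin k → Prop)

private noncomputable def bsLab (k : ℕ) (b : BS.{u}) (w : b.V) : BSL.{u} k := by
  classical
  exact (if w = b.v then none else some ⟨b.V, b.G, b.r, w⟩, fun i => b.G.Adj w (bsE k b i))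

private def bsLe (k : ℕ) (x y : BSL.{u} k) : Prop :=
  ((x.1 = none ∧ y.1 = none) ∨ ∃ p q, x.1 = some p ∧ y.1 = some q ∧ RMin p q) ∧ x.2 = y.2

private noncomputable def bsCS (k : ℕ) (b : BS.{u}) : CS.{u} (BSL.{u} k) where
  W := b.V
  H := b.G
  S := insert b.v b.C \ range (bsE k b)
  lab := bsLab k b

private lemma bs_nb (k : ℕ) (P : Set ℕ → RG.{u} → Prop) (A : Set ℕ) (h : NB RMin P A) :
    NB (bsLe.{u} k) (fun X a => ∀ q, a.1 = some q → P X q) A := by
  classical
  intro B hBA hB f hf hP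
  have hc1 : IsArr (fun X => ((f X).1.isNone, (f X).2)) := hf.comp (fun a => (a.1.isNone, a.2))
  obtain ⟨C, hCB, hC, ⟨κ, s⟩, hκ⟩ := exists_const (K := Bool × (Fin k → Prop))
    (c := fun X => ((f X).1.isNone, (f X).2)) (fun q => hc1.2 q) hB
  have h2 : ∀ X, X ⊆ C → X.Infinite → (f X).2 = s := fun X hX hXi =>
    congrArg Prod.snd (hκ X hX hXi)
  have h1 : ∀ X, X ⊆ C → X.Infinite → (f X).1.isNone = κ := fun X hX hXi =>
    congrArg Prod.fst (hκ X hX hXi)
  have ht : tl C ⊆ C := tl_subset C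
  have hti : (tl C).Infinite := tl_infinite hC
  cases κ with
  | true =>
    refine ⟨C, hCB, hC, Or.inl ⟨?_, ?_⟩, ?_⟩
    · exact Option.isNone_iff_eq_none.1 (h1 C Subset.rfl hC)
    · exact Option.isNone_iff_eq_none.1 (h1 (tl C) ht hti)
    · rw [h2 C Subset.rfl hC, h2 (tl C) ht hti]
  | false =>
    have h3 : ∀ X, X ⊆ C → X.Infinite → ∃ q, (f X).1 = some q := by
      intro X hX hXi
      have := h1 X hX hXi
      rcases h4 : (f X).1 with _ | q
      · rw [h4] at this
        exact absurd this (by simp)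
      · exact ⟨q, rfl⟩
    obtain ⟨q0, _⟩ := h3 C Subset.rfl hC
    have hg : IsArr (fun X => (f X).1.getD q0) := hf.comp (fun a => a.1.getD q0)
    obtain ⟨X, hX, hXi, hle⟩ := h C (hCB.trans hBA) hC (fun X => (f X).1.getD q0) hg (by
      intro X hX hXi
      obtain ⟨q, hq⟩ := h3 X hX hXi
      show P X ((f X).1.getD q0)
      rw [hq]
      exact hP X (hX.trans hCB) hXi q hq)
    refine ⟨X, hX.trans hCB, hXi, Or.inr ?_, ?_⟩
    · obtain ⟨q, hq⟩ := h3 X hX hXi
      obtain ⟨q', hq'⟩ := h3 (tl X) ((tl_subset X).trans hX) (tl_infinite hXi)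
      refine ⟨q, q', hq, hq', ?_⟩
      have h5 : RMin ((f X).1.getD q0) ((f (tl X)).1.getD q0) := hle
      rw [hq, hq'] at h5
      exact h5
    · rw [h2 X hX hXi, h2 (tl X) ((tl_subset X).trans hX) (tl_infinite hXi)]

/-- An embedding from the data. -/
private lemma bs_glue (k : ℕ) (x y : BS.{u}) (hx : x.v ∉ x.C)
    (h1 : CS.le (bsLe.{u} k) (bsCS k x) (bsCS k y))
    (h2 : ∀ i, bsLe k (bsLab k x (bsE k x i)) (bsLab k y (bsE k y i)))
    (h3 : ∀ i j, bsE k x i = bsE k x j ↔ bsE k y i = bsE k y j) : BS.le x y := by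
  classical
  obtain ⟨φ, hφ1, hφ2, hφ3, hφ4⟩ := h1
  change x.V → y.V at φ
  change InjOn φ (insert x.v x.C \ range (bsE k x)) at hφ1
  change MapsTo φ (insert x.v x.C \ range (bsE k x)) (insert y.v y.C \ range (bsE k y)) at hφ2
  change ∀ a ∈ insert x.v x.C \ range (bsE k x), ∀ b ∈ insert x.v x.C \ range (bsE k x),
    x.G.Adj a b → y.G.Adj (φ a) (φ b) at hφ3
  change ∀ a ∈ insert x.v x.C \ range (bsE k x), bsLe k (bsLab k x a) (bsLab k y (φ a)) at hφ4
  let ψ : x.V → y.V := fun a => if h : ∃ i, bsE k x i = a then bsE k y h.choose else φ a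
  have hψ1 : ∀ i, ψ (bsE k x i) = bsE k y i := by
    intro i
    have h : ∃ j, bsE k x j = bsE k x i := ⟨i, rfl⟩
    have h4 : ψ (bsE k x i) = bsE k y h.choose := dif_pos h
    rw [h4]
    exact (h3 _ _).1 h.choose_spec
  have hψ2 : ∀ a, a ∉ range (bsE k x) → ψ a = φ a := by
    intro a ha
    exact dif_neg ha
  have hlab : ∀ a ∈ insert x.v x.C, bsLe k (bsLab k x a) (bsLab k y (ψ a)) ∧
      ψ a ∈ insert y.v y.C := by
    intro a ha
    by_cases h : a ∈ range (bsE k x)
    · obtain ⟨i, rfl⟩ := h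
      rw [hψ1]
      exact ⟨h2 i, bsE_mem k y i⟩
    · rw [hψ2 a h]
      exact ⟨hφ4 a ⟨ha, h⟩, (hφ2 ⟨ha, h⟩).1⟩
  have hv : ψ x.v = y.v := by
    obtain ⟨⟨h4 | ⟨p, q, h4, _⟩, _⟩, _⟩ := hlab x.v (mem_insert _ _)
    · by_contra h5
      have h6 : (bsLab k y (ψ x.v)).1 = some ⟨y.V, y.G, y.r, ψ x.v⟩ := if_neg h5
      rw [h6] at h4
      exact absurd h4.2 (by simp)
    · have h6 : (bsLab k x x.v).1 = none := if_pos rfl
      rw [h6] at h4
      exact absurd h4 (by simp)
  have hC : ∀ a ∈ x.C, ψ a ∈ y.C ∧ RMin ⟨x.V, x.G, x.r, a⟩ ⟨y.V, y.G, y.r, ψ a⟩ := by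
    intro a ha
    have hav : a ≠ x.v := fun h => hx (h ▸ ha)
    have h6 : (bsLab k x a).1 = some ⟨x.V, x.G, x.r, a⟩ := if_neg hav
    obtain ⟨⟨h4 | ⟨p, q, h4, h5, h7⟩, _⟩, h8⟩ := hlab a (mem_insert_of_mem _ ha)
    · rw [h6] at h4
      exact absurd h4.1 (by simp)
    · by_cases h9 : ψ a = y.v
      · have h10 : (bsLab k y (ψ a)).1 = none := if_pos h9
        rw [h10] at h5
        exact absurd h5 (by simp)
      · have h10 : (bsLab k y (ψ a)).1 = some ⟨y.V, y.G, y.r, ψ a⟩ := if_neg h9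
        refine ⟨h8.resolve_left h9, ?_⟩
        rw [h6] at h4
        rw [h10] at h5
        rw [Option.some.inj h4, Option.some.inj h5]
        exact h7
  have hadj : ∀ a ∈ insert x.v x.C, ∀ i, x.G.Adj a (bsE k x i) →
      y.G.Adj (ψ a) (bsE k y i) := by
    intro a ha i h
    have h4 : (bsLab k x a).2 = (bsLab k y (ψ a)).2 := (hlab a ha).1.2
    have h5 : (x.G.Adj a (bsE k x i)) = (y.G.Adj (ψ a) (bsE k y i)) := congrFun h4 i
    exact h5 ▸ h
  refine ⟨ψ, ?_, fun a ha => (hC a ha).1, hv, ?_, fun a ha => (hC a ha).2⟩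
  · intro a ha b hb hab
    by_cases ha' : a ∈ range (bsE k x)
    · obtain ⟨i, rfl⟩ := ha'
      by_cases hb' : b ∈ range (bsE k x)
      · obtain ⟨j, rfl⟩ := hb'
        rw [hψ1, hψ1] at hab
        exact (h3 i j).2 hab
      · rw [hψ1, hψ2 b hb'] at hab
        exact absurd ⟨i, hab⟩ (hφ2 ⟨hb, hb'⟩).2
    · by_cases hb' : b ∈ range (bsE k x)
      · obtain ⟨j, rfl⟩ := hb'
        rw [hψ1, hψ2 a ha'] at hab
        exact absurd ⟨j, hab.symm⟩ (hφ2 ⟨ha, ha'⟩).2
      · rw [hψ2 a ha', hψ2 b hb'] at hab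
        exact hφ1 ⟨ha, ha'⟩ ⟨hb, hb'⟩ hab
  · intro a ha b hb hab
    by_cases ha' : a ∈ range (bsE k x)
    · obtain ⟨i, rfl⟩ := ha'
      have h4 := hadj b hb i hab.symm
      rw [hψ1]
      exact h4.symm
    · by_cases hb' : b ∈ range (bsE k x)
      · obtain ⟨j, rfl⟩ := hb'
        rw [hψ1]
        exact hadj a ha j hab
      · rw [hψ2 a ha', hψ2 b hb']
        exact hφ3 a ⟨ha, ha'⟩ b ⟨hb, hb'⟩ hab

theorem bs_holds (hc : CSStmt.{u, u+1}) : BSStmt.{u} := by
  classical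
  intro k P A hA B hBA hB f hf hP
  have hnb := bs_nb k P A hA
  have hcs := hc (BSL.{u} k) (bsLe k) _ A hnb
  -- labels satisfy the condition
  have hlabP : ∀ X, X ⊆ B → X.Infinite → ∀ w ∈ insert (f X).v (f X).C,
      ∀ q, (bsLab k (f X) w).1 = some q → P X q := by
    intro X hX hXi w hw q hq
    by_cases h : w = (f X).v
    · have h1 : (bsLab k (f X) w).1 = none := if_pos h
      rw [h1] at hq
      exact absurd hq (by simp)
    · have h1 : (bsLab k (f X) w).1 = some ⟨(f X).V, (f X).G, (f X).r, w⟩ := if_neg h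
      rw [h1] at hq
      rw [← Option.some.inj hq]
      exact (hP X hX hXi).2.2.2 w (hw.resolve_left h)
  obtain ⟨C1, hC1B, hC1, hC1le⟩ := hcs.perfect hBA hB (hf.comp (bsCS k)) (by
    intro X hX hXi
    refine ⟨⟨(f X).v⟩, ?_, bsE_p4 k (f X) (hP X hX hXi).2.2.1, ?_⟩
    · rintro ⟨g, hg1, _, hg3⟩
      exact (hP X hX hXi).2.1 ⟨g, hg1, fun _ => mem_univ _, hg3⟩
    · intro w hw
      exact hlabP X hX hXi w hw.1)
  -- the deleted vertices
  have key : ∀ s : Finset (Fin k), ∃ C, C ⊆ C1 ∧ C.Infinite ∧ ∀ i ∈ s, ∀ X, X ⊆ C →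
      X.Infinite → bsLe k (bsLab k (f X) (bsE k (f X) i))
        (bsLab k (f (tl X)) (bsE k (f (tl X)) i)) := by
    intro s
    induction s using Finset.induction_on with
    | empty => exact ⟨C1, Subset.rfl, hC1, by simp⟩
    | insert i s his ih =>
      obtain ⟨C, h1, h2, h3⟩ := ih
      obtain ⟨D, hD1, hD2, hD3⟩ := hnb.perfect ((h1.trans hC1B).trans hBA) h2
        (hf.comp (fun b => bsLab k b (bsE k b i))) (by
          intro X hX hXi
          exact hlabP X ((hX.trans h1).trans hC1B) hXi _ (bsE_mem k (f X) i))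
      refine ⟨D, hD1.trans h1, hD2, ?_⟩
      intro j hj X hX hXi
      rcases Finset.mem_insert.1 hj with h4 | h4
      · rw [h4]; exact hD3 X hX hXi
      · exact h3 j h4 X (hX.trans hD1) hXi
  obtain ⟨C2, hC21, hC2, hC2le⟩ := key Finset.univ
  have hpat : IsArr (fun X => fun i j => bsE k (f X) i = bsE k (f X) j) :=
    hf.comp (fun b => fun i j => bsE k b i = bsE k b j)
  obtain ⟨C3, hC32, hC3, κ, hκ⟩ := exists_const (K := Fin k → Fin k → Prop)
    (c := fun X => fun i j => bsE k (f X) i = bsE k (f X) j) (fun q => hpat.2 q) hC2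
  refine ⟨C3, (hC32.trans hC21).trans hC1B, hC3, ?_⟩
  refine bs_glue k (f C3) (f (tl C3)) (hP C3 ((hC32.trans hC21).trans hC1B) hC3).1
    (hC1le C3 (hC32.trans hC21) hC3) (fun i => hC2le i (Finset.mem_univ i) C3 hC32 hC3) ?_
  intro i j
  have h1 := congrFun (congrFun (hκ C3 Subset.rfl hC3) i) j
  have h2 := congrFun (congrFun (hκ (tl C3) (tl_subset C3) (tl_infinite hC3)) i) j
  have h3 : (bsE k (f C3) i = bsE k (f C3) j) = (bsE k (f (tl C3)) i = bsE k (f (tl C3)) j) :=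
    h1.trans h2.symm
  rw [h3]

end Pool.MP_0d2ef4_co
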