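import Pool.Agent.Work.MP_0d2ef4_co.WQ.Basic
import Pool.Agent.Work.MP_0d2ef4_co.WQ.Arr

/-! Labelled rayless graphs without induced path on four vertices. -/

namespace Pool.MP_0d2ef4_co

open Set

universe u v

section

variable {L : Type v}

/-- The labelled graph on a part. -/
private def CS.sub (y : CS.{u} L) (S' : Set y.W) : CS.{u} L := ⟨y.W, y.H, S', y.lab⟩

/-- One step to a part. -/
private def CS.step (x y : CS.{u} L) : Prop :=
  RaylessOn y.H y.S ∧ ∃ S', x = y.sub S' ∧ PartOn y.H S' y.S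

/-- Parts of parts. -/
private def CS.lt (x y : CS.{u} L) : Prop := Relation.TransGen CS.step x y

private lemma CS.lt_sub {x y : CS.{u} L} (h : CS.lt x y) : ∃ S', S' ⊆ y.S ∧ x = y.sub S' := by
  unfold CS.lt at h
  induction h with
  | single h1 =>
    obtain ⟨_, S', h2, h3⟩ := h1
    exact ⟨S', h3.1, h2⟩
  | tail _ h1 ih =>
    obtain ⟨_, S', h2, h3⟩ := h1
    obtain ⟨T, hT1, hT2⟩ := ih
    subst h2
    exact ⟨T, hT1.trans h3.1, hT2⟩

private lemma CS.step_aux {y z w : CS.{u} L} {T : Set w.W} (hz : z = w.sub T)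
    (h : ∃ S', y = z.sub S' ∧ PartOn z.H S' z.S) :
    ∃ S'' : Set w.W, y = w.sub S'' ∧ PartOn w.H S'' T := by
  subst hz
  exact h

private lemma CS.step_wf (hp : PartStmt.{u}) : WellFounded (CS.step (L := L) : CS.{u} L → CS.{u} L → Prop) := by
  rw [wellFounded_iff_isEmpty_descending_chain]
  refine ⟨?_⟩
  rintro ⟨s, hs⟩
  have key : ∀ n, ∃ T : Set (s 0).W, s n = (s 0).sub T := by
    intro n
    induction n with
    | zero => exact ⟨(s 0).S, rfl⟩
    | succ n ih =>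
      obtain ⟨T, hT⟩ := ih
      obtain ⟨S'', h1, _⟩ := CS.step_aux hT (hs n).2
      exact ⟨S'', h1⟩
  choose T hT using key
  have hT0 : T 0 = (s 0).S := by
    have h := hT 0
    have h2 : (s 0).S = ((s 0).sub (T 0)).S := by
      have : ∀ y : CS.{u} L, ∀ T : Set y.W, y = y.sub T → y.S = T := by
        intro y T h
        cases y
        simp only [CS.sub, CS.mk.injEq, heq_eq_eq, true_and, and_true] at h
        exact h
      exact this _ _ h
    exact h2.symm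
  refine hp (s 0).W (s 0).H T ?_ ?_
  · rw [hT0]; exact (hs 0).1
  · intro n
    obtain ⟨S'', h4, h5⟩ := CS.step_aux (hT n) (hs n).2
    rw [hT (n + 1)] at h4
    simp only [CS.sub, CS.mk.injEq, heq_eq_eq, true_and, and_true] at h4
    rw [h4]
    exact h5

private lemma CS.le_sub {leL : L → L → Prop} {x y : CS.{u} L} {T : Set y.W} (hT : T ⊆ y.S)
    (h : CS.le leL x (y.sub T)) : CS.le leL x y := by
  obtain ⟨φ, h1, h2, h3, h4⟩ := h
  exact ⟨φ, h1, fun a ha => hT (h2 ha), h3, h4⟩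

/-- The family of components. -/
private def CS.comps (x : CS.{u} L) : Fam.{u} (CS.{u} L) where
  I := {D : Set x.W // ∃ a ∈ x.S, D = cmp x.H x.S a}
  x := fun D => x.sub D.1

private lemma CS.glue_comps {leL : L → L → Prop} {x y : CS.{u} L} [Nonempty y.W]
    (h : Fam.le (CS.le leL) x.comps y.comps) : CS.le leL x y := by
  classical
  obtain ⟨σ, hσ, h1⟩ := h
  choose φ hφ1 hφ2 hφ3 hφ4 using h1
  let ix : ∀ a ∈ x.S, x.comps.I := fun a ha => ⟨cmp x.H x.S a, a, ha, rfl⟩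
  refine ⟨fun a => if ha : a ∈ x.S then φ (ix a ha) a else Classical.arbitrary _, ?_, ?_, ?_, ?_⟩
  · intro a ha b hb hab
    simp only [dif_pos ha, dif_pos hb] at hab
    have ha' : φ (ix a ha) a ∈ (σ (ix a ha)).1 := hφ2 (ix a ha) (self_mem_cmp ha)
    have hb' : φ (ix b hb) b ∈ (σ (ix b hb)).1 := hφ2 (ix b hb) (self_mem_cmp hb)
    rw [hab] at ha'
    obtain ⟨p, _, hp2⟩ := (σ (ix a ha)).2
    obtain ⟨q, _, hq2⟩ := (σ (ix b hb)).2
    have hpq : (σ (ix a ha)).1 = (σ (ix b hb)).1 := by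
      rw [hp2] at ha' ⊢
      rw [hq2] at hb' ⊢
      rw [cmp_eq ha', cmp_eq hb']
    have hix : ix a ha = ix b hb := hσ (Subtype.ext hpq)
    have hmem : a ∈ (ix b hb).1 := by
      rw [← hix]; exact self_mem_cmp ha
    rw [hix] at hab
    exact hφ1 (ix b hb) hmem (self_mem_cmp hb) hab
  · intro a ha
    simp only [dif_pos ha]
    have ha' : φ (ix a ha) a ∈ (σ (ix a ha)).1 := hφ2 (ix a ha) (self_mem_cmp ha)
    obtain ⟨p, _, hp2⟩ := (σ (ix a ha)).2
    rw [hp2] at ha'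
    exact cmp_subset ha'
  · intro a ha b hb hab
    simp only [dif_pos ha, dif_pos hb]
    have hix : ix b hb = ix a ha := by
      refine Subtype.ext ?_
      exact (cmp_eq (Cn.of_adj ha hb hab)).symm
    have hb' : b ∈ (ix a ha).1 := Cn.of_adj ha hb hab
    rw [hix]
    exact hφ3 (ix a ha) a (self_mem_cmp ha) b hb' hab
  · intro a ha
    simp only [dif_pos ha]
    exact hφ4 (ix a ha) a (self_mem_cmp ha)

private lemma CS.glue_join {leL : L → L → Prop} {x y : CS.{u} L} {S : Set x.W} {T : Set y.W}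
    (hT : T ⊆ y.S) (hj : ∀ a ∈ T, ∀ b ∈ y.S \ T, y.H.Adj a b)
    (h1 : CS.le leL (x.sub S) (y.sub T)) (h2 : CS.le leL (x.sub (x.S \ S)) (y.sub (y.S \ T))) :
    CS.le leL x y := by
  classical
  obtain ⟨φ, a1, a2, a3, a4⟩ := h1
  obtain ⟨ψ, b1, b2, b3, b4⟩ := h2
  have hφ : ∀ a, a ∈ S → φ a ∈ T := fun a ha => a2 ha
  have hψ : ∀ a, a ∈ x.S → a ∉ S → ψ a ∈ y.S \ T := fun a ha ha' => b2 ⟨ha, ha'⟩
  refine ⟨fun a => if a ∈ S then φ a else ψ a, ?_, ?_, ?_, ?_⟩
  · intro a ha b hb hab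
    by_cases has : a ∈ S <;> by_cases hbs : b ∈ S <;> simp only [has, hbs, if_true, if_false] at hab
    · exact a1 has hbs hab
    · exact absurd (hab ▸ hφ a has) (hψ b hb hbs).2
    · exact absurd (hab ▸ hφ b hbs) (hψ a ha has).2
    · exact b1 ⟨ha, has⟩ ⟨hb, hbs⟩ hab
  · intro a ha
    by_cases has : a ∈ S <;> simp only [has, if_true, if_false]
    · exact hT (hφ a has)
    · exact (hψ a ha has).1
  · intro a ha b hb hab
    by_cases has : a ∈ S <;> by_cases hbs : b ∈ S <;> simp only [has, hbs, if_true, if_false]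
    · exact a3 a has b hbs hab
    · exact hj _ (hφ a has) _ (hψ b hb hbs)
    · exact (hj _ (hφ b hbs) _ (hψ a ha has)).symm
    · exact b3 a ⟨ha, has⟩ b ⟨hb, hbs⟩ hab
  · intro a ha
    by_cases has : a ∈ S <;> simp only [has, if_true, if_false]
    · exact a4 a has
    · exact b4 a ⟨ha, has⟩

end

theorem cs_holds (hm : MBAStmt.{max v (u+1)}) (hf : FamStmt.{u, max v (u+1)})
    (hs : SeinStmt.{u}) (hp : PartStmt.{u}) : CSStmt.{u,v} := by
  classical
  intro L leL P A hNB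
  by_contra hbad
  obtain ⟨B, hBA, hB, g, hg, hgP, hgbad, hgNB⟩ :=
    hm (CS.{u} L) (CS.le leL) CS.lt (CS.step_wf hp).transGen
      (fun a b c h1 h2 => Relation.TransGen.trans h1 h2)
      (by
        intro a b c h1 h2
        obtain ⟨T, hT1, hT2⟩ := CS.lt_sub h2
        rw [hT2] at h1
        exact CS.le_sub hT1 h1) _
      (by
        intro X a b h1 h2
        obtain ⟨T, hT1, hT2⟩ := CS.lt_sub h2
        obtain ⟨c1, c2, c3, c4⟩ := h1
        rw [hT2]
        exact ⟨c1, c2.mono hT1, c3.mono hT1, fun w hw => c4 w (hT1 hw)⟩) A hbad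
  have hstep : ∀ X, X ⊆ B → X.Infinite → ∀ S', PartOn (g X).H S' (g X).S →
      CS.lt ((g X).sub S') (g X) := by
    intro X hX hXi S' hS'
    exact Relation.TransGen.single ⟨(hgP X hX hXi).2.1, S', rfl, hS'⟩
  have htl : ∀ X, X ⊆ B → X.Infinite → (tl X ⊆ B ∧ (tl X).Infinite) := fun X hX hXi =>
    ⟨(tl_subset X).trans hX, tl_infinite hXi⟩
  -- the empty case
  obtain ⟨B1, hB1, hB1i, h1⟩ := gp_pred (p := fun X => (g X).S = ∅)
    (hg.measurableSet_setOf fun x => x.S = ∅) hB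
  rcases h1 with h1 | h1
  · obtain ⟨⟨w⟩, _⟩ := hgP (tl B1) (htl B1 hB1 hB1i).1 (htl B1 hB1 hB1i).2
    refine hgbad B1 hB1 hB1i ⟨fun _ => w, ?_, ?_, ?_, ?_⟩
    · rw [h1 B1 Subset.rfl hB1i]; exact injOn_empty _
    · rw [h1 B1 Subset.rfl hB1i]; exact mapsTo_empty _ _
    · rw [h1 B1 Subset.rfl hB1i]; intro a ha; exact absurd ha (notMem_empty a)
    · rw [h1 B1 Subset.rfl hB1i]; intro a ha; exact absurd ha (notMem_empty a)
  have hne : ∀ X, X ⊆ B1 → X.Infinite → (g X).S.Nonempty := fun X hX hXi =>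
    nonempty_iff_ne_empty.2 (h1 X hX hXi)
  -- one vertex
  obtain ⟨B2, hB2, hB2i, h2⟩ := gp_pred (p := fun X => (g X).S.Subsingleton)
    (hg.measurableSet_setOf fun x => x.S.Subsingleton) hB1i
  rcases h2 with h2 | h2
  · have hL : ∃ ℓ : CS.{u} L → L, ∀ x, x.S.Nonempty → ∃ w ∈ x.S, ℓ x = x.lab w := by
      obtain ⟨w0, _⟩ := hne B2 hB2 hB2i
      refine ⟨fun x => if h : x.S.Nonempty then x.lab h.some else (g B2).lab w0, ?_⟩
      intro x hx
      exact ⟨hx.some, hx.some_mem, by simp only [dif_pos hx]⟩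
    obtain ⟨ℓ, hℓ⟩ := hL
    obtain ⟨X, hX, hXi, hX2⟩ := hNB B2 (hB2.trans (hB1.trans hBA)) hB2i (fun X => ℓ (g X))
      (hg.comp ℓ) (by
        intro X hX hXi
        obtain ⟨w, hw1, hw2⟩ := hℓ (g X) (hne X (hX.trans hB2) hXi)
        rw [hw2]
        exact (hgP X ((hX.trans hB2).trans hB1) hXi).2.2.2 w hw1)
    have hXt : tl X ⊆ B2 := (tl_subset X).trans hX
    have hXti := tl_infinite hXi
    obtain ⟨w, hw1, hw2⟩ := hℓ (g X) (hne X (hX.trans hB2) hXi)
    obtain ⟨w', hw1', hw2'⟩ := hℓ (g (tl X)) (hne (tl X) (hXt.trans hB2) hXti)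
    rw [hw2, hw2'] at hX2
    refine hgbad X ((hX.trans hB2).trans hB1) hXi ⟨fun _ => w', ?_, ?_, ?_, ?_⟩
    · intro a ha b hb _
      exact h2 X hX hXi ha hb
    · intro a _; exact hw1'
    · intro a ha b hb hab
      exact absurd (h2 X hX hXi ha hb) hab.ne
    · intro a ha
      rw [h2 X hX hXi ha hw1]
      exact hX2
  have htwo : ∀ X, X ⊆ B2 → X.Infinite → ∃ a ∈ (g X).S, ∃ b ∈ (g X).S, b ≠ a := by
    intro X hX hXi
    by_contra hcon
    refine h2 X hX hXi ?_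
    intro a ha b hb
    by_contra hab
    exact hcon ⟨a, ha, b, hb, fun h => hab h.symm⟩
  -- connected or not
  obtain ⟨B3, hB3, hB3i, h3⟩ := gp_pred
    (p := fun X => ∀ a ∈ (g X).S, ∀ b ∈ (g X).S, Cn (g X).H (g X).S a b)
    (hg.measurableSet_setOf fun x => ∀ a ∈ x.S, ∀ b ∈ x.S, Cn x.H x.S a b) hB2i
  have hB3B : B3 ⊆ B := (hB3.trans hB2).trans hB1
  rcases h3 with h3 | h3
  · -- join
    have hch : ∀ x : CS.{u} L, ∃ S' : Set x.W, (RaylessOn x.H x.S ∧ P4FreeOn x.H x.S ∧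
        (∀ a ∈ x.S, ∀ b ∈ x.S, Cn x.H x.S a b) ∧ ∃ a ∈ x.S, ∃ b ∈ x.S, b ≠ a) →
        S' ⊆ x.S ∧ S'.Nonempty ∧ S' ≠ x.S ∧ ∀ a ∈ S', ∀ b ∈ x.S \ S', x.H.Adj a b := by
      intro x
      by_cases h : (RaylessOn x.H x.S ∧ P4FreeOn x.H x.S ∧
        (∀ a ∈ x.S, ∀ b ∈ x.S, Cn x.H x.S a b) ∧ ∃ a ∈ x.S, ∃ b ∈ x.S, b ≠ a)
      · obtain ⟨h1, h2, h3, a, ha, hb⟩ := h
        obtain ⟨S', hS'⟩ := hs x.W x.H x.S h1 h2 h3 a ha hb
        exact ⟨S', fun _ => hS'⟩
      · exact ⟨∅, fun h' => absurd h' h⟩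
    choose F hF using hch
    have hF' : ∀ X, X ⊆ B3 → X.Infinite → F (g X) ⊆ (g X).S ∧ (F (g X)).Nonempty ∧
        F (g X) ≠ (g X).S ∧ ∀ a ∈ F (g X), ∀ b ∈ (g X).S \ F (g X), (g X).H.Adj a b := by
      intro X hX hXi
      obtain ⟨_, c2, c3, _⟩ := hgP X (hX.trans hB3B) hXi
      exact hF (g X) ⟨c2, c3, h3 X hX hXi, htwo X (hX.trans hB3) hXi⟩
    obtain ⟨C, hC1, hC2, hC3⟩ := hgNB.perfect hB3B hB3i (f := fun X => (g X).sub (F (g X)))
      (hg.comp fun x => x.sub (F x)) (by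
        intro X hX hXi
        obtain ⟨c1, c2, c3, c4⟩ := hF' X hX hXi
        exact hstep X (hX.trans hB3B) hXi _ ⟨c1, c2, c3, Or.inr c4⟩)
    obtain ⟨X, hX, hXi, hX2⟩ := hgNB C (hC1.trans hB3B) hC2
      (fun X => (g X).sub ((g X).S \ F (g X))) (hg.comp fun x => x.sub (x.S \ F x)) (by
        intro X hX hXi
        obtain ⟨c1, c2, c3, c4⟩ := hF' X (hX.trans hC1) hXi
        refine hstep X ((hX.trans hC1).trans hB3B) hXi _ ⟨sdiff_subset, ?_, ?_, Or.inr ?_⟩
        · by_contra hcon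
          rw [not_nonempty_iff_eq_empty, sdiff_eq_empty] at hcon
          exact c3 (Subset.antisymm c1 hcon)
        · intro hcon
          obtain ⟨w, hw⟩ := c2
          have h4 : w ∈ (g X).S \ F (g X) := by
            rw [hcon]
            exact c1 hw
          exact h4.2 hw
        · intro a ha b hb
          have hb' : b ∈ F (g X) := by
            by_contra hb'
            exact hb.2 ⟨hb.1, hb'⟩
          exact (c4 b hb' a ha).symm)
    have hXt : tl X ⊆ B3 := (tl_subset X).trans (hX.trans hC1)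
    obtain ⟨c1, _, _, c4⟩ := hF' (tl X) hXt (tl_infinite hXi)
    exact hgbad X ((hX.trans hC1).trans hB3B) hXi (CS.glue_join c1 c4 (hC3 X hX hXi) hX2)
  · -- components
    obtain ⟨X, hX, hXi, hX2⟩ := hf (CS.{u} L) (CS.le leL) (fun X q => CS.lt q (g X)) B hgNB B3 hB3B
      hB3i (fun X => (g X).comps) (hg.comp CS.comps) (by
        rintro X hX hXi ⟨D, a, ha, hD⟩
        refine hstep X (hX.trans hB3B) hXi D ⟨?_, ?_, ?_, Or.inl ⟨a, ha, hD⟩⟩
        · rw [hD]; exact cmp_subset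
        · rw [hD]; exact ⟨a, self_mem_cmp ha⟩
        · intro hcon
          refine h3 X hX hXi ?_
          intro p hp q hq
          rw [← hcon, hD] at hp hq
          exact (Cn.symm hp).trans hq)
    have hne' : Nonempty (g (tl X)).W := (hgP (tl X) (htl X (hX.trans hB3B) hXi).1
      (htl X (hX.trans hB3B) hXi).2).1
    exact hgbad X (hX.trans hB3B) hXi (CS.glue_comps hX2)

end Pool.MP_0d2ef4_co
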