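import Pool.Agent.Work.MP_0d2ef4_co.WQ.Basic

/-! Gluing rooted models along an injection of the blocks. -/

namespace Pool.MP_0d2ef4_co

open Set

universe u

/-- The index of the component of a child. -/
private def glueIdx (x : RG.{u}) (a : x.V) (ha : a ∈ Ch x.G x.r x.v) : x.fam.I :=
  ⟨cmp x.G (Ch x.G x.r x.v) a, a, ha, rfl⟩

private lemma glueIdx_eq (x : RG.{u}) {a b : x.V} (ha : a ∈ Ch x.G x.r x.v)
    (hb : b ∈ Ch x.G x.r x.v) (h : Cn x.G (Ch x.G x.r x.v) a b) :
    glueIdx x a ha = glueIdx x b hb :=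
  Subtype.ext (cmp_eq h)

/-- The data extracted from an injection of the blocks. -/
private lemma glue_data (x y : RG.{u}) (h : Fam.le BS.le x.fam y.fam) :
    ∃ Φ : x.V → y.V,
      (∀ a ∈ Ch x.G x.r x.v, Φ a ∈ Ch y.G y.r y.v) ∧
      (∀ a ∈ Ch x.G x.r x.v, ∀ b ∈ Ch x.G x.r x.v, Φ a = Φ b → a = b) ∧
      (∀ a ∈ Ch x.G x.r x.v, ∀ b ∈ Ch x.G x.r x.v, x.G.Adj a b → y.G.Adj (Φ a) (Φ b)) ∧
      (∀ a ∈ Ch x.G x.r x.v, x.G.Adj x.v a → y.G.Adj y.v (Φ a)) ∧
      ∀ a ∈ Ch x.G x.r x.v, RMin ⟨x.V, x.G, x.r, a⟩ ⟨y.V, y.G, y.r, Φ a⟩ := by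
  classical
  obtain ⟨σ, hσ, h⟩ := h
  choose φ h1 h2 h3 h4 h5 using h
  let Φ : x.V → y.V := fun a =>
    if ha : a ∈ Ch x.G x.r x.v then φ (glueIdx x a ha) a else y.v
  have hΦ : ∀ a (ha : a ∈ Ch x.G x.r x.v), Φ a = φ (glueIdx x a ha) a := fun a ha => dif_pos ha
  have hself : ∀ a (ha : a ∈ Ch x.G x.r x.v), a ∈ (glueIdx x a ha).1 :=
    fun a ha => self_mem_cmp ha
  have hA : ∀ a (ha : a ∈ Ch x.G x.r x.v), Φ a ∈ (σ (glueIdx x a ha)).1 := by
    intro a ha
    rw [hΦ a ha]
    exact h2 (glueIdx x a ha) (hself a ha)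
  have hsub : ∀ i : y.fam.I, i.1 ⊆ Ch y.G y.r y.v := by
    rintro ⟨C, c, hc, rfl⟩
    exact cmp_subset
  have heq : ∀ (i j : y.fam.I) (p : y.V), p ∈ i.1 → p ∈ j.1 → i = j := by
    rintro ⟨C, c, hc, rfl⟩ ⟨D, d, hd, rfl⟩ p hp hq
    refine Subtype.ext ?_
    change cmp y.G (Ch y.G y.r y.v) c = cmp y.G (Ch y.G y.r y.v) d
    rw [cmp_eq (mem_cmp.1 hp), cmp_eq (mem_cmp.1 hq)]
  refine ⟨Φ, ?_, ?_, ?_, ?_, ?_⟩
  · intro a ha
    exact hsub _ (hA a ha)
  · intro a ha b hb hab
    have h6 : σ (glueIdx x a ha) = σ (glueIdx x b hb) :=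
      heq _ _ (Φ a) (hA a ha) (hab ▸ hA b hb)
    have h7 : glueIdx x a ha = glueIdx x b hb := hσ h6
    rw [hΦ a ha, hΦ b hb, ← h7] at hab
    refine h1 (glueIdx x a ha) (Or.inr (hself a ha)) (Or.inr ?_) hab
    have h8 := hself b hb
    rw [← h7] at h8
    exact h8
  · intro a ha b hb hab
    have h7 : glueIdx x a ha = glueIdx x b hb := glueIdx_eq x ha hb (Cn.of_adj ha hb hab)
    rw [hΦ a ha, hΦ b hb, ← h7]
    refine h4 (glueIdx x a ha) a (Or.inr (hself a ha)) b (Or.inr ?_) hab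
    have h8 := hself b hb
    rw [← h7] at h8
    exact h8
  · intro a ha hva
    have h8 := h4 (glueIdx x a ha) x.v (Or.inl rfl) a (Or.inr (hself a ha)) hva
    have h9 : φ (glueIdx x a ha) x.v = y.v := h3 (glueIdx x a ha)
    rw [hΦ a ha]
    rw [h9] at h8
    exact h8
  · intro a ha
    rw [hΦ a ha]
    exact h5 (glueIdx x a ha) a (hself a ha)

theorem glue_holds (hd : DomFacts.{u}) : GlueStmt.{u} := by
  classical
  intro x y hx hy hF
  obtain ⟨Φ, hCh, hinj, hadj, hvadj, hR⟩ := glue_data x y hF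
  choose! N hN using hR
  have ht : ∀ u : x.V, ∃ w, u ∈ dom x.G x.r x.v → u ≠ x.v →
      w ∈ Ch x.G x.r x.v ∧ u ∈ dom x.G x.r w := by
    intro u
    by_cases hu : u ∈ dom x.G x.r x.v ∧ u ≠ x.v
    · obtain ⟨w, hw, hw'⟩ := hd.child x.G x.r x.v u hu.1 hu.2
      exact ⟨w, fun _ _ => ⟨hw, hw'⟩⟩
    · exact ⟨u, fun h1 h2 => absurd ⟨h1, h2⟩ hu⟩
  choose t ht using ht
  have hdomv : ∀ a, a ∈ Ch y.G y.r y.v → dom y.G y.r a ⊆ dom y.G y.r y.v :=
    fun a ha p hp => hd.trans y.G y.r y.v a p hp ha.1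
  have hvnot : ∀ a, a ∈ Ch y.G y.r y.v → y.v ∉ dom y.G y.r a := by
    intro a ha hva
    exact ha.2.1 (hd.antisymm y.G y.r y.v a ha.1 hva).symm
  let M : x.V → Set y.V := fun u => if u = x.v then {y.v} else N (t u) u
  have hMv : M x.v = {y.v} := if_pos rfl
  have hMu : ∀ u, u ≠ x.v → M u = N (t u) u := fun u hu => if_neg hu
  have hsub : ∀ u, u ∈ dom x.G x.r x.v → u ≠ x.v → M u ⊆ dom y.G y.r (Φ (t u)) := by
    intro u hu huv
    rw [hMu u huv]
    exact ((hN (t u) (ht u hu huv).1).1 u (ht u hu huv).2).1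
  -- a vertex with a neighbour outside of the dominated set of its child is the child
  have hroot : ∀ u, u ∈ dom x.G x.r x.v → (huv : u ≠ x.v) → ∀ z, x.G.Adj u z →
      z ∉ dom x.G x.r (t u) → t u = u := by
    intro u hu huv z huz hz
    by_contra hne
    exact hz (hd.bdry x.G x.r (t u) u z (ht u hu huv).2 (fun h => hne h.symm) huz)
  have hmemroot : ∀ u, u ∈ dom x.G x.r x.v → u ≠ x.v → t u = u → Φ u ∈ M u := by
    intro u hu huv htu
    rw [hMu u huv, htu]
    have h1 : u ∈ Ch x.G x.r x.v := by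
      have := (ht u hu huv).1
      rwa [htu] at this
    exact (hN u h1).2.2.2
  have hvt : ∀ u, u ∈ dom x.G x.r x.v → u ≠ x.v → x.v ∉ dom x.G x.r (t u) := by
    intro u hu huv hv
    exact (ht u hu huv).1.2.1 (hd.antisymm x.G x.r x.v (t u) (ht u hu huv).1.1 hv).symm
  -- edges at the root
  have hve : ∀ u, u ∈ dom x.G x.r x.v → u ≠ x.v → x.G.Adj x.v u →
      ∃ q ∈ M u, y.G.Adj y.v q := by
    intro u hu huv hvu
    have htu : t u = u := hroot u hu huv x.v hvu.symm (hvt u hu huv)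
    have h1 : u ∈ Ch x.G x.r x.v := by
      have := (ht u hu huv).1
      rwa [htu] at this
    exact ⟨Φ u, hmemroot u hu huv htu, hvadj u h1 hvu⟩
  refine ⟨M, ?_, ?_, ?_, ?_⟩
  · intro a ha
    by_cases hav : a = x.v
    · subst hav
      rw [hMv]
      refine ⟨?_, ⟨y.v, rfl⟩, ?_⟩
      · rintro p rfl
        exact hd.self y.G y.r y.v hy
      · rintro p rfl q hq
        rw [show q = y.v from hq]
        exact Cn.refl rfl
    · refine ⟨(hsub a ha hav).trans (hdomv _ (hCh _ (ht a ha hav).1)), ?_, ?_⟩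
      · rw [hMu a hav]
        exact ((hN (t a) (ht a ha hav).1).1 a (ht a ha hav).2).2.1
      · rw [hMu a hav]
        exact ((hN (t a) (ht a ha hav).1).1 a (ht a ha hav).2).2.2
  · have hdis : ∀ b, b ∈ dom x.G x.r x.v → b ≠ x.v → Disjoint (M x.v) (M b) := by
      intro b hb hbv
      rw [hMv]
      rw [Set.disjoint_singleton_left]
      intro h
      exact hvnot _ (hCh _ (ht b hb hbv).1) (hsub b hb hbv h)
    intro a ha b hb hab
    by_cases hav : a = x.v
    · subst hav
      exact hdis b hb (fun h => hab h.symm)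
    · by_cases hbv : b = x.v
      · subst hbv
        exact (hdis a ha hav).symm
      · by_cases htt : t a = t b
        · have h1 := (hN (t a) (ht a ha hav).1).2.1 a (ht a ha hav).2 b
            (by rw [htt]; exact (ht b hb hbv).2) hab
          rw [hMu a hav, hMu b hbv, ← htt]
          exact h1
        · rw [Set.disjoint_left]
          intro p hp hq
          have h1 := hd.child_unique y.G y.r y.v (Φ (t a)) (Φ (t b)) p
            (hCh _ (ht a ha hav).1) (hCh _ (ht b hb hbv).1) (hsub a ha hav hp) (hsub b hb hbv hq)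
          exact htt (hinj _ (ht a ha hav).1 _ (ht b hb hbv).1 h1)
  · intro a ha b hb hab
    by_cases hav : a = x.v
    · subst hav
      have hbv : b ≠ x.v := fun h => by
        rw [h] at hab
        exact x.G.irrefl hab
      obtain ⟨q, hq, hvq⟩ := hve b hb hbv hab
      exact ⟨y.v, by rw [hMv]; rfl, q, hq, hvq⟩
    · by_cases hbv : b = x.v
      · subst hbv
        obtain ⟨q, hq, hvq⟩ := hve a ha hav hab.symm
        exact ⟨q, hq, y.v, by rw [hMv]; rfl, hvq.symm⟩
      · by_cases htt : t a = t b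
        · have h1 := (hN (t a) (ht a ha hav).1).2.2.1 a (ht a ha hav).2 b
            (by rw [htt]; exact (ht b hb hbv).2) hab
          rw [hMu a hav, hMu b hbv, ← htt]
          exact h1
        · have hta : t a = a := by
            refine hroot a ha hav b hab ?_
            intro h
            exact htt (hd.child_unique x.G x.r x.v (t a) (t b) b (ht a ha hav).1
              (ht b hb hbv).1 h (ht b hb hbv).2)
          have htb : t b = b := by
            refine hroot b hb hbv a hab.symm ?_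
            intro h
            exact htt (hd.child_unique x.G x.r x.v (t a) (t b) a (ht a ha hav).1
              (ht b hb hbv).1 (ht a ha hav).2 h)
          have hca : a ∈ Ch x.G x.r x.v := by
            have := (ht a ha hav).1
            rwa [hta] at this
          have hcb : b ∈ Ch x.G x.r x.v := by
            have := (ht b hb hbv).1
            rwa [htb] at this
          exact ⟨Φ a, hmemroot a ha hav hta, Φ b, hmemroot b hb hbv htb, hadj a hca b hcb hab⟩
  · rw [hMv]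
    rfl

end Pool.MP_0d2ef4_co
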